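import Mathlib

set_option autoImplicit false

universe u

open RingTheory.Sequence Polynomial

namespace Pool.Agent.W456

/-- Every maximal ideal is generated by a weakly regular sequence of length `n`. -/
def HasRegGen (S : Type u) [CommRing S] (n : ℕ) : Prop :=
  ∀ q : Ideal S, q.IsMaximal → ∃ gs : List S, gs.length = n ∧ q = Ideal.ofList gs ∧
    IsWeaklyRegular S gs

theorem HasRegGen.of_ringEquiv {S S' : Type u} [CommRing S] [CommRing S'] {n : ℕ}
    (h : HasRegGen S n) (e : S ≃+* S') : HasRegGen S' n := by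
  intro q hq
  obtain ⟨gs, h1, h2, h3⟩ := h (q.comap e.toRingHom) (Ideal.comap_isMaximal_of_equiv e)
  refine ⟨gs.map e.toRingHom, by simp [h1], ?_, ?_⟩
  · rw [← Ideal.map_ofList, ← h2]
    exact (Ideal.map_comap_of_surjective e.toRingHom e.surjective q).symm
  · refine (AddEquiv.isWeaklyRegular_congr (e := e.toAddEquiv) ?_).1 h3
    rw [List.forall₂_map_right_iff, List.forall₂_same]
    intro r _ x
    exact map_mul e r x

theorem HasRegGen.field {k : Type u} [Field k] : HasRegGen k 0 := by
  intro q hq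
  refine ⟨[], rfl, ?_, IsWeaklyRegular.nil k k⟩
  rw [Ideal.ofList_nil]
  rcases Ideal.eq_bot_or_top q with h | h
  · exact h
  · exact absurd h hq.ne_top

theorem monic_regular {S : Type u} [CommRing S] (I : Ideal S) (f : S[X]) (hf : f.Monic)
    (p : S[X]) (h : f * p ∈ I.map C) : p ∈ I.map C := by
  rw [← Ideal.mk_ker (I := I), ← Polynomial.ker_mapRingHom, RingHom.mem_ker] at h ⊢
  rw [map_mul] at h
  exact (hf.map (Ideal.Quotient.mk I)).mul_right_eq_zero_iff.1 h

theorem HasRegGen.polynomial {S : Type u} [CommRing S] [IsJacobsonRing S] {n : ℕ}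
    (h : HasRegGen S n) : HasRegGen S[X] (n + 1) := by
  intro q hq
  have hmax : (q.comap (C : S →+* S[X])).IsMaximal :=
    Polynomial.isMaximal_comap_C_of_isJacobsonRing q
  obtain ⟨gs, h1, h2, h3⟩ := h _ hmax
  have hne : q ≠ (q.comap (C : S →+* S[X])).map C := by
    intro heq
    have h1' : (1 : S) ∉ q.comap (C : S →+* S[X]) := fun h =>
      hmax.ne_top ((Ideal.eq_top_iff_one _).2 h)
    by_cases hX : (X : S[X]) ∈ q
    · rw [heq, Ideal.mem_map_C_iff] at hX
      have := hX 1
      rw [coeff_X_one] at this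
      exact h1' this
    · obtain ⟨y, i, hi, hyi⟩ := hq.exists_inv hX
      rw [heq, Ideal.mem_map_C_iff] at hi
      have h2' := hi 0
      have h3' : i.coeff 0 = 1 := by
        have := congrArg (fun t => t.coeff 0) hyi
        simpa using this
      rw [h3'] at h2'
      exact h1' h2'
  obtain ⟨f, hf, hq'⟩ := Polynomial.exists_monic_span_sup_map_eq S q hmax hne
  refine ⟨gs.map C ++ [f], by simp [h1], ?_, ?_⟩
  · rw [Ideal.ofList_append, ← Ideal.map_ofList, Ideal.ofList_singleton, ← h2]
    exact hq'
  · rw [isWeaklyRegular_append_iff]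
    refine ⟨?_, ?_⟩
    · exact h3.of_flat (S := S[X])
    · rw [isWeaklyRegular_singleton_iff]
      rw [isSMulRegular_iff_right_eq_zero_of_smul]
      intro m hm
      obtain ⟨p, rfl⟩ := Submodule.Quotient.mk_surjective _ m
      rw [← Submodule.Quotient.mk_smul, Submodule.Quotient.mk_eq_zero] at hm
      rw [Submodule.Quotient.mk_eq_zero]
      rw [smul_eq_mul, Ideal.mul_top, ← Ideal.map_ofList] at hm ⊢
      exact monic_regular _ f hf p hm

theorem hasRegGen_mvPolynomial (k : Type u) [Field k] (n : ℕ) :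
    HasRegGen (MvPolynomial (Fin n) k) n := by
  induction n with
  | zero =>
    exact HasRegGen.field.of_ringEquiv (MvPolynomial.isEmptyRingEquiv k (Fin 0)).symm
  | succ n ih =>
    exact ih.polynomial.of_ringEquiv (MvPolynomial.finSuccEquiv k n).symm.toRingEquiv

end Pool.Agent.W456
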