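import Mathlib
import Pool.Agent.W456.CA1

set_option autoImplicit false

universe u

open RingTheory.Sequence Polynomial

namespace Pool.Agent.W456

theorem dim_le_of_integral (B A : Type u) [CommRing B] [CommRing A] [Algebra B A]
    [Algebra.IsIntegral B A] : ringKrullDim A ≤ ringKrullDim B := by
  refine Order.krullDim_le_of_strictMono
    (fun p : PrimeSpectrum A => PrimeSpectrum.comap (algebraMap B A) p) ?_
  intro p q hpq
  obtain ⟨h1, x, hx, hx'⟩ := SetLike.lt_iff_le_and_exists.1
    (show p.asIdeal < q.asIdeal from hpq)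
  exact Ideal.comap_lt_comap_of_integral_mem_sdiff h1 ⟨hx, hx'⟩
    (Algebra.IsIntegral.isIntegral x)

theorem exists_maximal_notMem (B : Type u) [CommRing B] [IsDomain B] [IsJacobsonRing B] (r : B)
    (hr : r ≠ 0) : ∃ q : Ideal B, q.IsMaximal ∧ r ∉ q := by
  by_contra hc
  push Not at hc
  apply hr
  have h1 : (⊥ : Ideal B).jacobson = ⊥ := 
    IsJacobsonRing.out inferInstance Ideal.isPrime_bot.isRadical
  have h2 : r ∈ (⊥ : Ideal B).jacobson := by
    rw [Ideal.jacobson, Ideal.mem_sInf]
    intro J hJ
    exact hc J hJ.2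
  rw [h1] at h2
  exact h2

theorem generic_flat (B A : Type u) [CommRing B] [IsDomain B] [IsNoetherianRing B] [CommRing A]
    [Algebra B A] [Module.Finite B A] : ∃ r : B, r ≠ 0 ∧ ∀ (m : Ideal A) [m.IsPrime],
      algebraMap B A r ∉ m → Module.Flat B (Localization.AtPrime m) := by
  have hfp : Module.FinitePresentation B A := Module.finitePresentation_of_finite B A
  obtain ⟨r, hr, hfree, -⟩ := Module.FinitePresentation.exists_free_localizedModule_powers
    (nonZeroDivisors B) (LocalizedModule.mkLinearMap (nonZeroDivisors B) A)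
    (FractionRing B)
  refine ⟨r, nonZeroDivisors.ne_zero hr, ?_⟩
  intro m hm hrm
  have h1 : Module.Flat (Localization (Submonoid.powers r)) (LocalizedModule.Away r A) :=
    inferInstance
  have h2 : Module.Flat B (LocalizedModule.Away r A) :=
    Module.Flat.trans B (Localization (Submonoid.powers r)) _
  let Ar := Localization (Algebra.algebraMapSubmonoid A (Submonoid.powers r))
  have h3 : Module.Flat B Ar := by
    have e := IsLocalizedModule.linearEquiv (Submonoid.powers r)
      (LocalizedModule.mkLinearMap (Submonoid.powers r) A)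
      (IsScalarTower.toAlgHom B A Ar).toLinearMap
    exact Module.Flat.of_linearEquiv e.symm
  have hle : Algebra.algebraMapSubmonoid A (Submonoid.powers r) ≤ m.primeCompl := by
    rintro _ ⟨_, ⟨n, rfl⟩, rfl⟩
    intro h
    apply hrm
    have h' : (algebraMap B A r) ^ n ∈ m := by
      simpa using h
    exact hm.mem_of_pow_mem n h'
  let _ : Algebra Ar (Localization.AtPrime m) :=
    IsLocalization.localizationAlgebraOfSubmonoidLe Ar (Localization.AtPrime m)
      (Algebra.algebraMapSubmonoid A (Submonoid.powers r)) m.primeCompl hle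
  have h4 : IsScalarTower A Ar (Localization.AtPrime m) :=
    IsLocalization.localization_isScalarTower_of_submonoid_le Ar (Localization.AtPrime m)
      (Algebra.algebraMapSubmonoid A (Submonoid.powers r)) m.primeCompl hle
  have h5 : IsLocalization (m.primeCompl.map (algebraMap A Ar)) (Localization.AtPrime m) :=
    IsLocalization.isLocalization_of_submonoid_le Ar (Localization.AtPrime m)
      (Algebra.algebraMapSubmonoid A (Submonoid.powers r)) m.primeCompl hle
  have h6 : Module.Flat Ar (Localization.AtPrime m) :=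
    IsLocalization.flat _ (m.primeCompl.map (algebraMap A Ar))
  have h7 : IsScalarTower B Ar (Localization.AtPrime m) := by
    refine IsScalarTower.of_algebraMap_eq fun b => ?_
    rw [IsScalarTower.algebraMap_apply B A (Localization.AtPrime m),
      IsScalarTower.algebraMap_apply B A Ar, IsScalarTower.algebraMap_apply A Ar
        (Localization.AtPrime m)]
  exact Module.Flat.trans B Ar _

theorem ca_lower (k A : Type u) [Field k] [CommRing A] [Algebra k A] [Algebra.FiniteType k A]
    (l : ℕ) (hl : (l : WithBot ℕ∞) ≤ ringKrullDim A) :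
    ∃ (m : Ideal A) (_ : m.IsMaximal) (fs : List A), l ≤ fs.length ∧ (∀ f ∈ fs, f ∈ m) ∧
      IsWeaklyRegular (Localization.AtPrime m)
        (fs.map (algebraMap A (Localization.AtPrime m))) ∧
      (∀ p : Ideal A, p.IsPrime → (∀ f ∈ fs, f ∈ p) → p.IsMaximal) := by
  have hnt : Nontrivial A := by
    by_contra h
    rw [not_nontrivial_iff_subsingleton] at h
    rw [ringKrullDim_eq_bot_of_subsingleton] at hl
    exact absurd hl (by simp)
  obtain ⟨s, g, hinj, hfin⟩ := exists_finite_inj_algHom_of_fg k A
  let B := MvPolynomial (Fin s) k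
  let _ : Algebra B A := g.toRingHom.toAlgebra
  have hfin' : Module.Finite B A := hfin
  have hint : Algebra.IsIntegral B A := inferInstance
  have hls : l ≤ s := by
    have h1 := hl.trans (dim_le_of_integral B A)
    rw [MvPolynomial.ringKrullDim_of_isNoetherianRing, ringKrullDim_eq_zero_of_field, zero_add,
      Nat.card_fin] at h1
    exact_mod_cast h1
  obtain ⟨r, hr, hflat⟩ := generic_flat B A
  obtain ⟨q, hq, hrq⟩ := exists_maximal_notMem B r hr
  obtain ⟨gs, hlen, hgen, hreg⟩ := hasRegGen_mvPolynomial k s q hq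
  have hker : RingHom.ker (algebraMap B A) ≤ q := by
    have : RingHom.ker (algebraMap B A) = ⊥ := (RingHom.injective_iff_ker_eq_bot _).1 hinj
    rw [this]
    exact bot_le
  obtain ⟨m, hm, hmq⟩ := Ideal.exists_ideal_over_maximal_of_isIntegral (S := A) q hker
  have hrm : algebraMap B A r ∉ m := by
    intro h
    apply hrq
    rw [← hmq]
    exact h
  have hf := hflat m hrm
  refine ⟨m, hm, gs.map (algebraMap B A), by simpa [hlen] using hls, ?_, ?_, ?_⟩
  · intro f hf
    obtain ⟨x, hx, rfl⟩ := List.mem_map.1 hf
    have : x ∈ m.comap (algebraMap B A) := by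
      rw [hmq, hgen]
      exact Ideal.subset_span hx
    exact this
  · have h1 := hreg.of_flat (S := Localization.AtPrime m)
    have h2 : (gs.map (algebraMap B A)).map (algebraMap A (Localization.AtPrime m)) =
        gs.map (algebraMap B (Localization.AtPrime m)) := by
      rw [List.map_map]
      rfl
    rw [h2]
    exact h1
  · intro p hp hfp
    have h1 : q ≤ p.comap (algebraMap B A) := by
      rw [hgen, Ideal.ofList, Ideal.span_le]
      intro x hx
      exact hfp _ (List.mem_map.2 ⟨x, hx, rfl⟩)
    have h2 : p.comap (algebraMap B A) = q := by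
      refine (hq.eq_of_le ?_ h1).symm
      exact Ideal.IsPrime.ne_top'
    exact Ideal.isMaximal_of_isIntegral_of_isMaximal_comap p (h2 ▸ hq)

/-- Isolating a maximal ideal among the primes over an ideal. -/
theorem exists_isolating {A : Type u} [CommRing A] [IsNoetherianRing A] (m : Ideal A)
    [hm : m.IsMaximal] (fs : List A) (hmin : m ∈ (Ideal.ofList fs).minimalPrimes) :
    ∃ g : A, g ∉ m ∧ ∀ p : Ideal A, p.IsPrime → (∀ f ∈ fs, f ∈ p) → g ∉ p → p = m := by
  have hfin := Ideal.finite_minimalPrimes_of_isNoetherianRing A (Ideal.ofList fs)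
  let S : Finset (Ideal A) := (hfin.toFinset).erase m
  have h1 : ∀ p ∈ S, ∃ g ∈ p, g ∉ m := by
    intro p hp
    rw [Finset.mem_erase, Set.Finite.mem_toFinset] at hp
    by_contra hc
    push Not at hc
    exact hp.1 (le_antisymm hc (hmin.2 hp.2.1 hc))
  choose! g hg hg' using h1
  refine ⟨∏ p ∈ S, g p, ?_, ?_⟩
  · intro h
    obtain ⟨p, hp, h2⟩ := (Ideal.IsPrime.prod_mem_iff (hp := hm.isPrime)).1 h
    exact hg' p hp h2
  · intro p hp hfp hgp
    obtain ⟨p', hp', hle⟩ := Ideal.exists_minimalPrimes_le (I := Ideal.ofList fs) (J := p)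
      (Ideal.span_le.2 hfp)
    by_cases hpm : p' = m
    · subst hpm
      exact (hm.eq_of_le hp.ne_top hle).symm
    · exfalso
      apply hgp
      have hmem : p' ∈ S := Finset.mem_erase.2 ⟨hpm, hfin.mem_toFinset.2 hp'⟩
      exact hle (Ideal.prod_mem _ hmem (hg p' hmem))

end Pool.Agent.W456
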