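import Mathlib
import Pool.Agent.W456.CA2

set_option autoImplicit false

universe u

open CategoryTheory AlgebraicGeometry TopologicalSpace

namespace Pool.Agent.W456

theorem ringKrullDim_eq_top (X : Scheme.{u}) (U : X.affineOpens) :
    topologicalKrullDim (U.1 : Set X) = ringKrullDim Γ(X, U) := by
  rw [← PrimeSpectrum.topologicalKrullDim_eq_ringKrullDim Γ(X, U)]
  exact IsHomeomorph.topologicalKrullDim_eq _ U.2.isoSpec.hom.homeomorph.isHomeomorph

theorem ringKrullDim_le_dim (X : Scheme.{u}) (U : X.affineOpens) :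
    ringKrullDim Γ(X, U) ≤ topologicalKrullDim X := by
  rw [← ringKrullDim_eq_top]
  exact topologicalKrullDim_subspace_le X _

theorem exists_affine_of_le_dim (X : Scheme.{u}) (l : ℕ)
    (h : (l : WithBot ℕ∞) ≤ topologicalKrullDim X) :
    ∃ U : X.affineOpens, (l : WithBot ℕ∞) ≤ ringKrullDim Γ(X, U) := by
  obtain ⟨p, hp⟩ := Order.le_krullDim_iff.1 h
  have h1 : (l : ℕ∞) ≤ Order.coheight p.head := by
    rw [← hp]; exact Order.length_le_coheight_head
  obtain ⟨x, hx⟩ := p.head.isIrreducible.nonempty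
  obtain ⟨_, ⟨U, hU, rfl⟩, hxU, -⟩ := X.isBasis_affineOpens.exists_subset_of_mem_open
    (Set.mem_univ x) isOpen_univ
  let f : ↥(U : Set X) → X := fun u => u.1
  have hf : Topology.IsOpenEmbedding f := U.isOpenEmbedding
  let Z' := (IrreducibleCloseds.orderIsoOfIsOpenEmbedding f hf).symm
    ⟨p.head, ⟨⟨x, hxU⟩, hx⟩⟩
  have h2 : IrreducibleCloseds.map f hf.continuous Z' = p.head := by
    have := (IrreducibleCloseds.orderIsoOfIsOpenEmbedding f hf).apply_symm_apply
      ⟨p.head, ⟨⟨x, hxU⟩, hx⟩⟩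
    exact congrArg Subtype.val this
  have h3 : Order.coheight Z' = Order.coheight p.head := by
    rw [← h2]; exact (hf.coheight_map Z').symm
  refine ⟨⟨U, hU⟩, ?_⟩
  rw [← ringKrullDim_eq_top]
  refine le_trans ?_ (Order.coheight_le_krullDim Z')
  rw [h3]
  exact_mod_cast h1

end Pool.Agent.W456
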