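import Mathlib
import Pool.Agent.W456.Dim

set_option autoImplicit false

universe u

open RingTheory.Sequence

namespace Pool.Agent.W456

theorem regular_of_isLocalization {A : Type u} [CommRing A] (m : Ideal A) [m.IsPrime]
    (B : Type u) [CommRing B] [Algebra A B] [IsLocalization.AtPrime B m] (fs : List A)
    (h : IsWeaklyRegular (Localization.AtPrime m)
      (fs.map (algebraMap A (Localization.AtPrime m)))) :
    IsWeaklyRegular B (fs.map (algebraMap A B)) := by
  rw [isWeaklyRegular_map_algebraMap_iff] at h ⊢
  exact ((IsLocalization.algEquiv m.primeCompl (Localization.AtPrime m)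
    B).toLinearEquiv.isWeaklyRegular_congr fs).1 h

theorem exists_min_list {A : Type u} [CommRing A] [IsNoetherianRing A] (m : Ideal A)
    [hm : m.IsPrime] :
    ∃ fs : List A, m ∈ (Ideal.ofList fs).minimalPrimes ∧ (fs.length : ℕ∞) = m.height := by
  obtain ⟨s, hs, hs'⟩ := Ideal.exists_finset_card_eq_height_of_isNoetherianRing m
  refine ⟨s.toList, ?_, ?_⟩
  · have : Ideal.ofList s.toList = Ideal.span s := by
      rw [Ideal.ofList]
      congr 1
      ext a
      simp
    rw [this]
    exact hs
  · rw [Finset.length_toList]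
    exact hs'

theorem prime_of_isLocalization {A : Type u} [CommRing A] (m : Ideal A) [m.IsPrime]
    (B : Type u) [CommRing B] [Algebra A B] [IsLocalization.AtPrime B m] [IsLocalRing B]
    (fs : List A) (hmin : m ∈ (Ideal.ofList fs).minimalPrimes) (p : Ideal B) (hp : p.IsPrime)
    (h : ∀ f ∈ fs.map (algebraMap A B), f ∈ p) : p = IsLocalRing.maximalIdeal B := by
  have h1 : (p.comap (algebraMap A B)).IsPrime := hp.comap _
  have h2 : p.comap (algebraMap A B) ≤ m := by
    rw [← IsLocalization.AtPrime.comap_maximalIdeal B m]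
    exact Ideal.comap_mono (IsLocalRing.le_maximalIdeal hp.ne_top)
  have h3 : Ideal.ofList fs ≤ p.comap (algebraMap A B) := by
    rw [Ideal.ofList, Ideal.span_le]
    intro f hf
    exact h _ (List.mem_map.2 ⟨f, hf, rfl⟩)
  have h4 : p.comap (algebraMap A B) = m := le_antisymm h2 (hmin.2 ⟨h1, h3⟩ h2)
  have h5 : p.under A = m := h4
  have h6 : (IsLocalRing.maximalIdeal B).under A = m :=
    IsLocalization.AtPrime.under_maximalIdeal B m
  rw [← IsLocalization.map_under m.primeCompl B p, h5, ← h6,
    IsLocalization.map_under m.primeCompl B (IsLocalRing.maximalIdeal B)]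

theorem mem_of_isLocalization {A : Type u} [CommRing A] (m : Ideal A) [m.IsPrime]
    (B : Type u) [CommRing B] [Algebra A B] [IsLocalization.AtPrime B m] [IsLocalRing B]
    (fs : List A) (h : ∀ f ∈ fs, f ∈ m) :
    ∀ f ∈ fs.map (algebraMap A B), f ∈ IsLocalRing.maximalIdeal B := by
  intro f hf
  obtain ⟨g, hg, rfl⟩ := List.mem_map.1 hf
  have := h g hg
  rw [← IsLocalization.AtPrime.comap_maximalIdeal B m] at this
  exact this

end Pool.Agent.W456
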