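import Mathlib

set_option autoImplicit false

universe w₁ w₂ v₁ v₂ u₁ u₂

open CategoryTheory CategoryTheory.Limits

namespace Pool.Agent.W456

noncomputable section

variable {C : Type u₁} [Category.{v₁} C] [Abelian C] {D : Type u₂} [Category.{v₂} D] [Abelian D]
  {F : C ⥤ D} {G : D ⥤ C} (adj : F ⊣ G) [F.Additive] [G.Additive]

/-- The adjunction on cochain complexes. -/
def cAdj : F.mapHomologicalComplex (ComplexShape.up ℤ) ⊣
    G.mapHomologicalComplex (ComplexShape.up ℤ) :=
  Adjunction.mkOfUnitCounit
    { unit :=
        { app := fun K =>
            { f := fun i => adj.unit.app (K.X i)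
              comm' := fun i j _ => (adj.unit.naturality (K.d i j)).symm }
          naturality := fun K L f => by
            ext i
            exact adj.unit.naturality (f.f i) }
      counit :=
        { app := fun K =>
            { f := fun i => adj.counit.app (K.X i)
              comm' := fun i j _ => (adj.counit.naturality (K.d i j)).symm }
          naturality := fun K L f => by
            ext i
            exact adj.counit.naturality (f.f i) }
      left_triangle := by
        ext K i
        simp only [Functor.id_obj, Functor.comp_obj, NatTrans.comp_app, Functor.whiskerRight_app,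
          Functor.associator_hom_app, Functor.whiskerLeft_app, Category.id_comp]
        exact adj.left_triangle_components (K.X i)
      right_triangle := by
        ext K i
        simp only [Functor.id_obj, Functor.comp_obj, NatTrans.comp_app, Functor.whiskerRight_app,
          Functor.associator_inv_app, Functor.whiskerLeft_app, Category.id_comp]
        exact adj.right_triangle_components (K.X i) }

theorem cAdj_unit_f (K : CochainComplex C ℤ) (i : ℤ) :
    ((cAdj adj).unit.app K).f i = adj.unit.app (K.X i) := rfl

theorem cAdj_counit_f (K : CochainComplex D ℤ) (i : ℤ) :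
    ((cAdj adj).counit.app K).f i = adj.counit.app (K.X i) := rfl

variable [HasDerivedCategory.{w₁} C] [HasDerivedCategory.{w₂} D]
  [PreservesFiniteLimits F] [PreservesFiniteColimits F]
  [PreservesFiniteLimits G] [PreservesFiniteColimits G]

/-- The adjunction on derived categories induced by an adjunction between exact functors. -/
def dAdj : F.mapDerivedCategory ⊣ G.mapDerivedCategory :=
  letI : CatCommSq (F.mapHomologicalComplex (ComplexShape.up ℤ)) DerivedCategory.Q
    DerivedCategory.Q F.mapDerivedCategory := ⟨F.mapDerivedCategoryFactors.symm⟩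
  letI : CatCommSq (G.mapHomologicalComplex (ComplexShape.up ℤ)) DerivedCategory.Q
    DerivedCategory.Q G.mapDerivedCategory := ⟨G.mapDerivedCategoryFactors.symm⟩
  (cAdj adj).localization DerivedCategory.Q (HomologicalComplex.quasiIso C (ComplexShape.up ℤ))
    DerivedCategory.Q (HomologicalComplex.quasiIso D (ComplexShape.up ℤ))
    F.mapDerivedCategory G.mapDerivedCategory

theorem dAdj_unit_Q (K : CochainComplex C ℤ) :
    (dAdj adj).unit.app (DerivedCategory.Q.obj K) =
      DerivedCategory.Q.map ((cAdj adj).unit.app K) ≫
        G.mapDerivedCategoryFactors.inv.app ((F.mapHomologicalComplex (ComplexShape.up ℤ)).obj K) ≫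
        G.mapDerivedCategory.map (F.mapDerivedCategoryFactors.inv.app K) := by
  let _ : CatCommSq (F.mapHomologicalComplex (ComplexShape.up ℤ)) DerivedCategory.Q
    DerivedCategory.Q F.mapDerivedCategory := ⟨F.mapDerivedCategoryFactors.symm⟩
  let _ : CatCommSq (G.mapHomologicalComplex (ComplexShape.up ℤ)) DerivedCategory.Q
    DerivedCategory.Q G.mapDerivedCategory := ⟨G.mapDerivedCategoryFactors.symm⟩
  exact Adjunction.localization_unit_app (cAdj adj) DerivedCategory.Q
    (HomologicalComplex.quasiIso C (ComplexShape.up ℤ))
    DerivedCategory.Q (HomologicalComplex.quasiIso D (ComplexShape.up ℤ))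
    F.mapDerivedCategory G.mapDerivedCategory K

theorem dAdj_counit_Q (K : CochainComplex D ℤ) :
    (dAdj adj).counit.app (DerivedCategory.Q.obj K) =
      F.mapDerivedCategory.map (G.mapDerivedCategoryFactors.hom.app K) ≫
        F.mapDerivedCategoryFactors.hom.app ((G.mapHomologicalComplex (ComplexShape.up ℤ)).obj K) ≫
        DerivedCategory.Q.map ((cAdj adj).counit.app K) := by
  let _ : CatCommSq (F.mapHomologicalComplex (ComplexShape.up ℤ)) DerivedCategory.Q
    DerivedCategory.Q F.mapDerivedCategory := ⟨F.mapDerivedCategoryFactors.symm⟩
  let _ : CatCommSq (G.mapHomologicalComplex (ComplexShape.up ℤ)) DerivedCategory.Q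
    DerivedCategory.Q G.mapDerivedCategory := ⟨G.mapDerivedCategoryFactors.symm⟩
  exact Adjunction.localization_counit_app (cAdj adj) DerivedCategory.Q
    (HomologicalComplex.quasiIso C (ComplexShape.up ℤ))
    DerivedCategory.Q (HomologicalComplex.quasiIso D (ComplexShape.up ℤ))
    F.mapDerivedCategory G.mapDerivedCategory K

theorem isIso_cAdj_counit [IsIso adj.counit] (K : CochainComplex D ℤ) :
    IsIso ((cAdj adj).counit.app K) := by
  have : ∀ i, IsIso (((cAdj adj).counit.app K).f i) := fun i => by
    exact (inferInstance : IsIso (adj.counit.app (K.X i)))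
  exact HomologicalComplex.Hom.isIso_of_components _

theorem isIso_cAdj_unit [IsIso adj.unit] (K : CochainComplex C ℤ) :
    IsIso ((cAdj adj).unit.app K) := by
  have : ∀ i, IsIso (((cAdj adj).unit.app K).f i) := fun i => by
    exact (inferInstance : IsIso (adj.unit.app (K.X i)))
  exact HomologicalComplex.Hom.isIso_of_components _

instance isIso_dAdj_counit [IsIso adj.counit] : IsIso (dAdj adj).counit := by
  have : ∀ K, IsIso ((dAdj adj).counit.app K) := fun K => by
    rw [← NatTrans.isIso_app_iff_of_iso (dAdj adj).counit (DerivedCategory.Q.objObjPreimageIso K),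
      dAdj_counit_Q]
    have := isIso_cAdj_counit adj (DerivedCategory.Q.objPreimage K)
    infer_instance
  exact NatIso.isIso_of_isIso_app _

instance isIso_dAdj_unit [IsIso adj.unit] : IsIso (dAdj adj).unit := by
  have : ∀ K, IsIso ((dAdj adj).unit.app K) := fun K => by
    rw [← NatTrans.isIso_app_iff_of_iso (dAdj adj).unit (DerivedCategory.Q.objObjPreimageIso K),
      dAdj_unit_Q]
    have := isIso_cAdj_unit adj (DerivedCategory.Q.objPreimage K)
    infer_instance
  exact NatIso.isIso_of_isIso_app _

end

end Pool.Agent.W456
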