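import Mathlib
import Pool.Agent.W456.DAdj

set_option autoImplicit false

universe w v u

open CategoryTheory CategoryTheory.Limits Pretriangulated

namespace Pool.Agent.W456

noncomputable section

section Tri

variable {T : Type*} [Category* T] [Preadditive T] [HasZeroObject T] [HasShift T ℤ]
  [∀ n : ℤ, (shiftFunctor T n).Additive] [Pretriangulated T]
  {R : Type*} [CommRing R] [Linear R T] [∀ n : ℤ, (shiftFunctor T n).Linear R]

omit [HasZeroObject T] [∀ n : ℤ, (shiftFunctor T n).Additive] [Pretriangulated T] in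
theorem shift_smul_id (r : R) (M : T) (n : ℤ) :
    (shiftFunctor T n).map (r • 𝟙 M) = r • 𝟙 ((shiftFunctor T n).obj M) := by
  rw [Functor.map_smul, CategoryTheory.Functor.map_id]

theorem phi_trick (r : R) {A ΦA M ΦM : T} {u : A ⟶ ΦA} {v : ΦA ⟶ A⟦(1 : ℤ)⟧}
    (hA : Triangle.mk (r • 𝟙 A) u v ∈ distTriang T)
    {u' : M ⟶ ΦM} {v' : ΦM ⟶ M⟦(1 : ℤ)⟧} (hM : Triangle.mk (r • 𝟙 M) u' v' ∈ distTriang T)
    (n : ℤ) (H : ∀ g : A ⟶ ΦM⟦n⟧, g = 0) (g : ΦA ⟶ M⟦n + 1⟧) : g = 0 := by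
  have hM' := Triangle.shift_distinguished _ hM n
  have hm1 : ((Triangle.shiftFunctor T n).obj (Triangle.mk (r • 𝟙 M) u' v')).mor₁ =
      ((n.negOnePow : ℤ)) • (r • 𝟙 (M⟦n⟧)) := by
    change n.negOnePow • ((r • 𝟙 M)⟦n⟧') = _
    rw [shift_smul_id, Units.smul_def]
  -- surjectivity of `r`
  have P2 : ∀ h : A ⟶ M⟦n⟧, ∃ h' : A ⟶ M⟦n⟧, h = r • h' := by
    intro h
    obtain ⟨(h' : A ⟶ M⟦n⟧), hh'⟩ := Triangle.coyoneda_exact₂ _ hM' h (H _)
    refine ⟨(n.negOnePow : ℤ) • h', ?_⟩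
    refine hh'.trans ((congrArg (fun t => h' ≫ t) hm1).trans ?_)
    change h' ≫ (((n.negOnePow : ℤ)) • (r • 𝟙 (M⟦n⟧))) = _
    rw [Preadditive.comp_zsmul, Linear.comp_smul, Category.comp_id, smul_comm]
  -- injectivity of `r`
  have P1 : ∀ h : A ⟶ M⟦n⟧⟦(1 : ℤ)⟧, r • h = 0 → h = 0 := by
    intro h hh
    obtain ⟨h', hh'⟩ := Triangle.coyoneda_exact₁ _ hM' h (by
      refine (congrArg (fun t => h ≫ (shiftFunctor T (1 : ℤ)).map t) hm1).trans ?_
      change h ≫ (shiftFunctor T (1 : ℤ)).map (((n.negOnePow : ℤ)) • (r • 𝟙 (M⟦n⟧))) = _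
      rw [Functor.map_zsmul, shift_smul_id, Preadditive.comp_zsmul, Linear.comp_smul,
        Category.comp_id, hh, smul_zero]
      rfl)
    exact hh'.trans ((congrArg (fun t => t ≫ _) (H h')).trans zero_comp)
  let e : M⟦n⟧⟦(1 : ℤ)⟧ ≅ M⟦n + 1⟧ := (shiftFunctorAdd T n 1).symm.app M
  have h1 : u ≫ g ≫ e.inv = 0 := by
    apply P1
    have := comp_distTriang_mor_zero₁₂ _ hA
    change (r • 𝟙 A) ≫ u = 0 at this
    rw [← Linear.smul_comp, ← Category.id_comp u, ← Linear.smul_comp, this, zero_comp]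
  obtain ⟨k, hk⟩ := Triangle.yoneda_exact₃ _ hA (g ≫ e.inv) h1
  change g ≫ e.inv = v ≫ k at hk
  obtain ⟨h, rfl⟩ := (shiftFunctor T (1 : ℤ)).map_surjective k
  obtain ⟨h', rfl⟩ := P2 h
  have h2 := comp_distTriang_mor_zero₃₁ _ hA
  change v ≫ (r • 𝟙 A)⟦(1 : ℤ)⟧' = 0 at h2
  have h3 : v ≫ (shiftFunctor T (1 : ℤ)).map (r • h') = 0 := by
    have : r • h' = (r • 𝟙 A) ≫ h' := by rw [Linear.smul_comp, Category.id_comp]
    rw [this, Functor.map_comp, ← Category.assoc, h2, zero_comp]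
  have h4 : g ≫ e.inv = 0 := hk.trans h3
  exact (cancel_mono e.inv).1 (h4.trans zero_comp.symm)

/-- `N` is a cone of multiplication by `r` on `M`. -/
def IsCone (r : R) (M N : T) : Prop :=
  ∃ (u : M ⟶ N) (v : N ⟶ M⟦(1 : ℤ)⟧), Triangle.mk (r • 𝟙 M) u v ∈ distTriang T

omit [∀ n : ℤ, (shiftFunctor T n).Linear R] in
theorem exists_isCone (r : R) (M : T) : ∃ N, IsCone r M N := by
  obtain ⟨N, u, v, h⟩ := distinguished_cocone_triangle (r • 𝟙 M)
  exact ⟨N, u, v, h⟩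

omit [∀ n : ℤ, (shiftFunctor T n).Linear R] in
theorem IsCone.of_iso {r : R} {M N M' N' : T} (h : IsCone r M N) (e : M ≅ M') (e' : N ≅ N') :
    IsCone r M' N' := by
  obtain ⟨u, v, h⟩ := h
  refine ⟨e.inv ≫ u ≫ e'.hom, e'.inv ≫ v ≫ e.hom⟦(1 : ℤ)⟧',
    isomorphic_distinguished _ h _ (Triangle.isoMk _ _ e.symm e.symm e'.symm ?_ ?_ ?_)⟩
  · change (r • 𝟙 M') ≫ e.inv = e.inv ≫ (r • 𝟙 M)
    rw [Linear.smul_comp, Linear.comp_smul, Category.id_comp, Category.comp_id]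
  · change (e.inv ≫ u ≫ e'.hom) ≫ e'.inv = e.inv ≫ u
    rw [Category.assoc, Category.assoc, Iso.hom_inv_id, Category.comp_id]
  · change (e'.inv ≫ v ≫ (shiftFunctor T (1 : ℤ)).map e.hom) ≫ (shiftFunctor T (1 : ℤ)).map e.inv =
      e'.inv ≫ v
    rw [Category.assoc, Category.assoc, ← Functor.map_comp, Iso.hom_inv_id,
      CategoryTheory.Functor.map_id, Category.comp_id]

omit [∀ n : ℤ, (shiftFunctor T n).Linear R] in
theorem IsCone.unique {r : R} {M N N' : T} (h : IsCone r M N) (h' : IsCone r M N') :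
    Nonempty (N ≅ N') := by
  obtain ⟨u, v, h⟩ := h
  obtain ⟨u', v', h'⟩ := h'
  exact ⟨Triangle.π₃.mapIso (isoTriangleOfIso₁₂ _ _ h h' (Iso.refl _) (Iso.refl _) (by
    change (r • 𝟙 M) ≫ 𝟙 M = 𝟙 M ≫ (r • 𝟙 M)
    rw [Category.id_comp, Category.comp_id]))⟩

omit [∀ n : ℤ, (shiftFunctor T n).Linear R] in
theorem IsCone.isZero {r : R} {M N : T} (h : IsCone r M N) (hr : IsIso (r • 𝟙 M)) :
    IsZero N := by
  obtain ⟨u, v, h⟩ := h
  exact (Triangle.isZero₃_iff_isIso₁ _ h).2 hr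

omit [∀ n : ℤ, (shiftFunctor T n).Linear R] in
theorem IsCone.isZero_of_isZero {r : R} {M N : T} (h : IsCone r M N) (hM : IsZero M) :
    IsZero N := by
  refine h.isZero ⟨0, hM.eq_of_src _ _, hM.eq_of_src _ _⟩

/-- `IsPhi rs M N`: `N` is an iterated cone of multiplications by the elements of `rs`. -/
def IsPhi : List R → T → T → Prop
  | [], M, N => Nonempty (M ≅ N)
  | r :: rs, M, N => ∃ M', IsCone r M M' ∧ IsPhi rs M' N

/-- `IsPsi rs M N`: `N` is an iterated cone of multiplications by the elements of `rs`, in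
reverse order. -/
def IsPsi : List R → T → T → Prop
  | [], M, N => Nonempty (M ≅ N)
  | r :: rs, M, N => ∃ M', IsPsi rs M M' ∧ IsCone r M' N

omit [∀ n : ℤ, (shiftFunctor T n).Linear R] in
theorem exists_isPhi (rs : List R) : ∀ M : T, ∃ N, IsPhi rs M N := by
  induction rs with
  | nil => exact fun M => ⟨M, ⟨Iso.refl _⟩⟩
  | cons r rs ih =>
    intro M
    obtain ⟨M', hM'⟩ := exists_isCone r M
    obtain ⟨N, hN⟩ := ih M'
    exact ⟨N, M', hM', hN⟩

omit [∀ n : ℤ, (shiftFunctor T n).Linear R] in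
theorem IsPhi.of_iso {rs : List R} : ∀ {M N M' N' : T} (_ : IsPhi rs M N) (_ : M ≅ M')
    (_ : N ≅ N'), IsPhi rs M' N' := by
  induction rs with
  | nil =>
    rintro M N M' N' ⟨i⟩ e e'
    exact ⟨e.symm ≪≫ i ≪≫ e'⟩
  | cons r rs ih =>
    rintro M N M' N' ⟨K, hK, hN⟩ e e'
    exact ⟨K, hK.of_iso e (Iso.refl _), ih hN (Iso.refl _) e'⟩

omit [∀ n : ℤ, (shiftFunctor T n).Linear R] in
theorem IsPsi.of_iso {rs : List R} : ∀ {M N M' N' : T} (_ : IsPsi rs M N) (_ : M ≅ M')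
    (_ : N ≅ N'), IsPsi rs M' N' := by
  induction rs with
  | nil =>
    rintro M N M' N' ⟨i⟩ e e'
    exact ⟨e.symm ≪≫ i ≪≫ e'⟩
  | cons r rs ih =>
    rintro M N M' N' ⟨K, hK, hN⟩ e e'
    exact ⟨K, ih hK e (Iso.refl _), hN.of_iso (Iso.refl _) e'⟩

theorem phi_iter (rs : List R) : ∀ {A Ψ M Φ : T} (_ : IsPsi rs A Ψ) (_ : IsPhi rs M Φ) (n m : ℤ)
    (_ : n + rs.length = m) (_ : ∀ g : A ⟶ Φ⟦n⟧, g = 0) (g : Ψ ⟶ M⟦m⟧), g = 0 := by
  induction rs with
  | nil =>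
    rintro A Ψ M Φ ⟨i⟩ ⟨j⟩ n m hm H g
    obtain rfl : n = m := by simpa using hm
    have := H (i.hom ≫ g ≫ j.hom⟦n⟧')
    rw [← cancel_epi i.hom, ← cancel_mono (j.hom⟦n⟧'), Category.assoc, this, comp_zero, zero_comp]
  | cons r rs ih =>
    rintro A Ψ M Φ ⟨Ψ', hΨ', ⟨u, v, hc⟩⟩ ⟨M', ⟨u', v', hM'⟩, hΦ⟩ n m hm H g
    obtain rfl : n + rs.length + 1 = m := by
      rw [← hm, List.length_cons]; push_cast; ring
    exact phi_trick r hc hM' (n + rs.length) (ih hΨ' hΦ n _ rfl H) g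

end Tri

section Map

variable {T : Type*} [Category* T] [Preadditive T] [HasZeroObject T] [HasShift T ℤ]
  [∀ n : ℤ, (shiftFunctor T n).Additive] [Pretriangulated T]
  {R : Type*} [CommRing R] [Linear R T]
  {T' : Type*} [Category* T'] [Preadditive T'] [HasZeroObject T'] [HasShift T' ℤ]
  [∀ n : ℤ, (shiftFunctor T' n).Additive] [Pretriangulated T']
  {R' : Type*} [CommRing R'] [Linear R' T']
  (F : T ⥤ T') [F.CommShift ℤ] [F.IsTriangulated] (φ : R → R')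
  (hF : ∀ (r : R) (M : T), F.map (r • 𝟙 M) = φ r • 𝟙 (F.obj M))

include hF

theorem IsCone.map {r : R} {M N : T} (h : IsCone r M N) : IsCone (φ r) (F.obj M) (F.obj N) := by
  obtain ⟨u, v, h⟩ := h
  refine ⟨F.map u, F.map v ≫ (F.commShiftIso (1 : ℤ)).hom.app M, ?_⟩
  have := F.map_distinguished _ h
  refine isomorphic_distinguished _ this _ (Triangle.isoMk _ _ (Iso.refl _) (Iso.refl _)
    (Iso.refl _) ?_ ?_ ?_)
  · change (φ r • 𝟙 (F.obj M)) ≫ 𝟙 (F.obj M) = 𝟙 (F.obj M) ≫ F.map (r • 𝟙 M)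
    rw [Category.id_comp, Category.comp_id, hF]
  · change F.map u ≫ 𝟙 (F.obj N) = 𝟙 (F.obj M) ≫ F.map u
    rw [Category.id_comp, Category.comp_id]
  · change (F.map v ≫ (F.commShiftIso (1 : ℤ)).hom.app M) ≫
      (shiftFunctor T' (1 : ℤ)).map (𝟙 (F.obj M)) = 𝟙 (F.obj N) ≫ F.map v ≫
        (F.commShiftIso (1 : ℤ)).hom.app M
    rw [Category.id_comp, CategoryTheory.Functor.map_id]
    exact Category.comp_id _

theorem IsPhi.map {rs : List R} : ∀ {M N : T} (_ : IsPhi rs M N),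
    IsPhi (rs.map φ) (F.obj M) (F.obj N) := by
  induction rs with
  | nil =>
    rintro M N ⟨i⟩
    exact ⟨F.mapIso i⟩
  | cons r rs ih =>
    rintro M N ⟨K, hK, hN⟩
    exact ⟨F.obj K, hK.map F φ hF, ih hN⟩

theorem IsPsi.map {rs : List R} : ∀ {M N : T} (_ : IsPsi rs M N),
    IsPsi (rs.map φ) (F.obj M) (F.obj N) := by
  induction rs with
  | nil =>
    rintro M N ⟨i⟩
    exact ⟨F.mapIso i⟩
  | cons r rs ih =>
    rintro M N ⟨K, hK, hN⟩
    exact ⟨F.obj K, ih hK, hN.map F φ hF⟩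

end Map

section Zero

variable {T : Type*} [Category* T] [Preadditive T] [HasZeroObject T] [HasShift T ℤ]
  [∀ n : ℤ, (shiftFunctor T n).Additive] [Pretriangulated T]
  {R : Type*} [CommRing R] [Linear R T]

omit [HasZeroObject T] [HasShift T ℤ] [∀ n : ℤ, (shiftFunctor T n).Additive]
  [Pretriangulated T] in
theorem isIso_smul_id_of_isUnit {r : R} (hr : IsUnit r) (M : T) : IsIso (r • 𝟙 M) := by
  obtain ⟨s, hs⟩ := hr.exists_right_inv
  refine ⟨s • 𝟙 M, ?_, ?_⟩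
  · rw [Linear.smul_comp, Category.id_comp, smul_smul, hs, one_smul]
  · rw [Linear.smul_comp, Category.id_comp, smul_smul, mul_comm, hs, one_smul]

theorem IsPhi.isZero_of_isZero {rs : List R} : ∀ {M N : T} (_ : IsPhi rs M N) (_ : IsZero M),
    IsZero N := by
  induction rs with
  | nil =>
    rintro M N ⟨i⟩ h
    exact h.of_iso i.symm
  | cons r rs ih =>
    rintro M N ⟨K, hK, hN⟩ h
    exact ih hN (hK.isZero_of_isZero h)

theorem IsPsi.isZero_of_isZero {rs : List R} : ∀ {M N : T} (_ : IsPsi rs M N) (_ : IsZero M),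
    IsZero N := by
  induction rs with
  | nil =>
    rintro M N ⟨i⟩ h
    exact h.of_iso i.symm
  | cons r rs ih =>
    rintro M N ⟨K, hK, hN⟩ h
    exact hN.isZero_of_isZero (ih hK h)

theorem IsPhi.isZero_of_isUnit {rs : List R} : ∀ {M N : T} (_ : IsPhi rs M N)
    (_ : ∃ r ∈ rs, IsUnit r), IsZero N := by
  induction rs with
  | nil =>
    rintro M N - ⟨r, hr, -⟩
    simp at hr
  | cons s rs ih =>
    rintro M N ⟨K, hK, hN⟩ ⟨r, hr, hu⟩
    rcases List.mem_cons.1 hr with rfl | hr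
    · exact hN.isZero_of_isZero (hK.isZero (isIso_smul_id_of_isUnit hu _))
    · exact ih hN ⟨r, hr, hu⟩

theorem IsPsi.isZero_of_isUnit {rs : List R} : ∀ {M N : T} (_ : IsPsi rs M N)
    (_ : ∃ r ∈ rs, IsUnit r), IsZero N := by
  induction rs with
  | nil =>
    rintro M N - ⟨r, hr, -⟩
    simp at hr
  | cons s rs ih =>
    rintro M N ⟨K, hK, hN⟩ ⟨r, hr, hu⟩
    rcases List.mem_cons.1 hr with rfl | hr
    · exact hN.isZero (isIso_smul_id_of_isUnit hu _)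
    · exact hN.isZero_of_isZero (ih hK ⟨r, hr, hu⟩)

end Zero

end

end Pool.Agent.W456
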