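import Mathlib
import Pool.Agent.W456.Phi

set_option autoImplicit false

universe w v u

open CategoryTheory CategoryTheory.Limits Pretriangulated

namespace Pool.Agent.W456

noncomputable section

section Lin

variable {C : Type u} [Category.{v} C] [Abelian C] {R : Type*} [CommRing R] [Linear R C]

theorem homologyMap_smul' {K L : CochainComplex C ℤ} (r : R) (φ : K ⟶ L) (i : ℤ) :
    HomologicalComplex.homologyMap (r • φ) i = r • HomologicalComplex.homologyMap φ i := by
  have : (HomologicalComplex.shortComplexFunctor C (ComplexShape.up ℤ) i).map (r • φ) =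
      r • (HomologicalComplex.shortComplexFunctor C (ComplexShape.up ℤ) i).map φ := by
    ext <;> rfl
  dsimp only [HomologicalComplex.homologyMap]
  rw [this]
  exact ShortComplex.homologyMap_smul
    ((HomologicalComplex.shortComplexFunctor C (ComplexShape.up ℤ) i).map φ) r

variable [HasDerivedCategory.{w} C]

instance (i : ℤ) : Functor.Linear R (DerivedCategory.homologyFunctor C i) := by
  have h1 : Functor.Linear R (HomologicalComplex.homologyFunctor C (ComplexShape.up ℤ) i) :=
    ⟨fun f r => homologyMap_smul' r f i⟩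
  let _ : Localization.Lifting DerivedCategory.Q
      (HomologicalComplex.quasiIso C (ComplexShape.up ℤ))
      (HomologicalComplex.homologyFunctor C (ComplexShape.up ℤ) i)
      (DerivedCategory.homologyFunctor C i) := ⟨DerivedCategory.homologyFunctorFactors C i⟩
  exact (Localization.functor_linear_iff DerivedCategory.Q
    (HomologicalComplex.quasiIso C (ComplexShape.up ℤ)) R
    (HomologicalComplex.homologyFunctor C (ComplexShape.up ℤ) i) _).1 h1

/-- Notation-free shorthand for the cohomology of an object of the derived category. -/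
abbrev Hh (i : ℤ) (M : DerivedCategory C) : C := (DerivedCategory.homologyFunctor C i).obj M

theorem isZero_iff_homology (M : DerivedCategory C) : IsZero M ↔ ∀ i, IsZero (Hh i M) := by
  constructor
  · intro h i
    exact Functor.map_isZero _ h
  · intro h
    have : IsIso (0 : M ⟶ M) := by
      rw [DerivedCategory.isIso_iff]
      intro n
      exact ⟨0, (h n).eq_of_src _ _, (h n).eq_of_src _ _⟩
    rw [IsZero.iff_id_eq_zero]
    have h1 := IsIso.hom_inv_id (0 : M ⟶ M)
    rw [zero_comp] at h1
    exact h1.symm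

theorem IsCone.isZero_homology {r : R} {M N : DerivedCategory C} (h : IsCone r M N) (i : ℤ)
    (h0 : IsZero (Hh i M)) (h1 : IsZero (Hh (i + 1) M)) : IsZero (Hh i N) := by
  obtain ⟨u, v, h⟩ := h
  exact (DerivedCategory.HomologySequence.exact₃ _ h i (i + 1) rfl).isZero_of_both_zeros
    (h0.eq_of_src _ _) (h1.eq_of_tgt _ _)

theorem IsCone.le {r : R} {M N : DerivedCategory C} (h : IsCone r M N) (b : ℤ)
    (hM : ∀ i, b < i → IsZero (Hh i M)) : ∀ i, b < i → IsZero (Hh i N) := fun i hi =>
  h.isZero_homology i (hM i hi) (hM _ (by lia))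

theorem IsCone.ge {r : R} {M N : DerivedCategory C} (h : IsCone r M N) (a : ℤ)
    (hM : ∀ i, i < a → IsZero (Hh i M)) : ∀ i, i < a - 1 → IsZero (Hh i N) := fun i hi =>
  h.isZero_homology i (hM i (by lia)) (hM _ (by lia))

theorem IsPhi.le {rs : List R} : ∀ {M N : DerivedCategory C} (_ : IsPhi rs M N) (b : ℤ)
    (_ : ∀ i, b < i → IsZero (Hh i M)), ∀ i, b < i → IsZero (Hh i N) := by
  induction rs with
  | nil =>
    rintro M N ⟨e⟩ b hM i hi
    exact (hM i hi).of_iso ((DerivedCategory.homologyFunctor C i).mapIso e.symm)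
  | cons r rs ih =>
    rintro M N ⟨K, hK, hN⟩ b hM
    exact ih hN b (hK.le b hM)

theorem IsPsi.le {rs : List R} : ∀ {M N : DerivedCategory C} (_ : IsPsi rs M N) (b : ℤ)
    (_ : ∀ i, b < i → IsZero (Hh i M)), ∀ i, b < i → IsZero (Hh i N) := by
  induction rs with
  | nil =>
    rintro M N ⟨e⟩ b hM i hi
    exact (hM i hi).of_iso ((DerivedCategory.homologyFunctor C i).mapIso e.symm)
  | cons r rs ih =>
    rintro M N ⟨K, hK, hN⟩ b hM
    exact hN.le b (ih hK b hM)

theorem IsPsi.ge {rs : List R} : ∀ {M N : DerivedCategory C} (_ : IsPsi rs M N) (a : ℤ)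
    (_ : ∀ i, i < a → IsZero (Hh i M)), ∀ i, i < a - rs.length → IsZero (Hh i N) := by
  induction rs with
  | nil =>
    rintro M N ⟨e⟩ a hM i hi
    exact (hM i (by simpa using hi)).of_iso ((DerivedCategory.homologyFunctor C i).mapIso e.symm)
  | cons r rs ih =>
    rintro M N ⟨K, hK, hN⟩ a hM i hi
    refine hN.ge _ (ih hK a hM) i ?_
    rw [List.length_cons] at hi
    push_cast at hi
    lia

end Lin

section Mod

variable {R : Type u} [CommRing R] [HasDerivedCategory.{w} (ModuleCat.{u} R)]

/-- The cohomology modules of an object of the derived category of modules. -/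
abbrev HM (i : ℤ) (M : DerivedCategory (ModuleCat.{u} R)) : ModuleCat.{u} R := Hh i M

theorem IsCone.exact_mid {r : R} {M N : DerivedCategory (ModuleCat.{u} R)} (h : IsCone r M N)
    (i : ℤ) : ∃ (f : HM i M ⟶ HM i N) (g : HM i N ⟶ HM (i + 1) M),
      (∀ x, g.hom (f.hom x) = 0) ∧ (∀ y, g.hom y = 0 → ∃ x, f.hom x = y) ∧
      (∀ x, f.hom (r • x) = 0) ∧ (∀ y, r • g.hom y = 0) := by
  obtain ⟨u, v, h⟩ := h
  have e3 := DerivedCategory.HomologySequence.exact₃ _ h i (i + 1) rfl
  have e1 := DerivedCategory.HomologySequence.comp_δ _ h i (i + 1) rfl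
  have e2 := DerivedCategory.HomologySequence.δ_comp _ h i (i + 1) rfl
  rw [ShortComplex.moduleCat_exact_iff] at e3
  let f : HM i M ⟶ HM i N := (DerivedCategory.homologyFunctor _ i).map u
  let g : HM i N ⟶ HM (i + 1) M := 
    DerivedCategory.HomologySequence.δ (Triangle.mk (r • 𝟙 M) u v) i (i + 1) rfl
  have hfg : f ≫ g = 0 := e1
  have hf : (r • 𝟙 (HM i M)) ≫ f = 0 := by
    have h1 := comp_distTriang_mor_zero₁₂ _ h
    have h2 := congrArg (DerivedCategory.homologyFunctor _ i).map h1
    rw [Functor.map_comp, Functor.map_zero] at h2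
    have h3 : (DerivedCategory.homologyFunctor (ModuleCat.{u} R) i).map (r • 𝟙 M) =
        r • 𝟙 (HM i M) := by
      rw [Functor.map_smul, CategoryTheory.Functor.map_id]
    rw [← h3]
    exact h2
  have hg : g ≫ (r • 𝟙 (HM (i + 1) M)) = 0 := by
    have h3 : (DerivedCategory.homologyFunctor (ModuleCat.{u} R) (i + 1)).map (r • 𝟙 M) =
        r • 𝟙 (HM (i + 1) M) := by
      rw [Functor.map_smul, CategoryTheory.Functor.map_id]
    rw [← h3]
    exact e2
  refine ⟨f, g, fun x => ?_, fun y hy => ?_, fun x => ?_, fun y => ?_⟩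
  · exact ConcreteCategory.congr_hom hfg x
  · exact e3 y hy
  · exact ConcreteCategory.congr_hom hf x
  · exact ConcreteCategory.congr_hom hg y

theorem IsCone.isNoetherian {r : R} {M N : DerivedCategory (ModuleCat.{u} R)}
    (h : IsCone r M N) (hM : ∀ i, IsNoetherian R (HM i M)) (i : ℤ) :
    IsNoetherian R (HM i N) := by
  obtain ⟨f, g, h1, h2, -, -⟩ := h.exact_mid i
  have := hM i
  have := hM (i + 1)
  refine isNoetherian_of_range_eq_ker f.hom g.hom ?_
  ext y
  constructor
  · rintro ⟨x, rfl⟩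
    exact h1 x
  · intro hy
    exact h2 y hy

theorem IsPsi.isNoetherian {rs : List R} : ∀ {M N : DerivedCategory (ModuleCat.{u} R)}
    (_ : IsPsi rs M N) (_ : ∀ i, IsNoetherian R (HM i M)) (i : ℤ), IsNoetherian R (HM i N) := by
  induction rs with
  | nil =>
    rintro M N ⟨e⟩ hM i
    have := hM i
    exact isNoetherian_of_linearEquiv
      ((DerivedCategory.homologyFunctor _ i).mapIso e).toLinearEquiv
  | cons r rs ih =>
    rintro M N ⟨K, hK, hN⟩ hM
    exact hN.isNoetherian (ih hK hM)

/-- `r` acts locally nilpotently on the cohomology of `M`. -/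
def NilOn (r : R) (M : DerivedCategory (ModuleCat.{u} R)) : Prop :=
  ∀ (i : ℤ) (x : HM i M), ∃ n : ℕ, r ^ n • x = 0

theorem IsCone.nilOn_self {r : R} {M N : DerivedCategory (ModuleCat.{u} R)}
    (h : IsCone r M N) : NilOn r N := by
  intro i x
  obtain ⟨f, g, h1, h2, h3, h4⟩ := h.exact_mid i
  obtain ⟨y, hy⟩ := h2 (r • x) (by rw [map_smul]; exact h4 x)
  refine ⟨2, ?_⟩
  rw [pow_two, mul_smul, ← hy, ← map_smul]
  exact h3 y

theorem IsCone.nilOn {r : R} {M N : DerivedCategory (ModuleCat.{u} R)}
    (h : IsCone r M N) {s : R} (hs : NilOn s M) : NilOn s N := by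
  intro i x
  obtain ⟨f, g, h1, h2, -, -⟩ := h.exact_mid i
  obtain ⟨a, ha⟩ := hs _ (g.hom x)
  obtain ⟨y, hy⟩ := h2 (s ^ a • x) (by rw [map_smul]; exact ha)
  obtain ⟨b, hb⟩ := hs _ y
  refine ⟨b + a, ?_⟩
  rw [pow_add, mul_smul, ← hy, ← map_smul, hb, map_zero]

theorem NilOn.of_iso {r : R} {M N : DerivedCategory (ModuleCat.{u} R)} (h : NilOn r M)
    (e : M ≅ N) : NilOn r N := by
  intro i x
  let l := ((DerivedCategory.homologyFunctor _ i).mapIso e).toLinearEquiv
  obtain ⟨n, hn⟩ := h i (l.symm x)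
  refine ⟨n, ?_⟩
  apply l.symm.injective
  rw [map_smul, hn, map_zero]

theorem IsPsi.nilOn {rs : List R} : ∀ {M N : DerivedCategory (ModuleCat.{u} R)}
    (_ : IsPsi rs M N) (r : R) (_ : r ∈ rs), NilOn r N := by
  induction rs with
  | nil =>
    rintro M N - r hr
    simp at hr
  | cons s rs ih =>
    rintro M N ⟨K, hK, hN⟩ r hr
    rcases List.mem_cons.1 hr with rfl | hr
    · exact hN.nilOn_self
    · exact hN.nilOn (ih hK r hr)

end Mod

end

end Pool.Agent.W456
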