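import Mathlib
import Pool.Agent.W456.DLoc

set_option autoImplicit false

universe w₁ w₂ w₃ v₁ v₂ v₃ u₁ u₂ u₃

open CategoryTheory CategoryTheory.Limits Pretriangulated

namespace Pool.Agent.W456

noncomputable section

variable {A : Type u₁} [Category.{v₁} A] [Abelian A] [HasDerivedCategory.{w₁} A]
  {B : Type u₂} [Category.{v₂} B] [Abelian B] [HasDerivedCategory.{w₂} B]
  {C : Type u₃} [Category.{v₃} C] [Abelian C] [HasDerivedCategory.{w₃} C]

section

variable (F : A ⥤ B) [F.Additive] [PreservesFiniteLimits F] [PreservesFiniteColimits F]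

theorem mapD_smul {R R' : Type*} [CommRing R] [CommRing R'] [Linear R A] [Linear R' B]
    (φ : R → R') (hF : ∀ (r : R) (M : A), F.map (r • 𝟙 M) = φ r • 𝟙 (F.obj M)) (r : R)
    (E : DerivedCategory A) :
    F.mapDerivedCategory.map (r • 𝟙 E) = φ r • 𝟙 (F.mapDerivedCategory.obj E) := by
  let K := DerivedCategory.Q.objPreimage E
  let e : DerivedCategory.Q.obj K ≅ E := DerivedCategory.Q.objObjPreimageIso E
  have h1 : r • 𝟙 E = e.inv ≫ DerivedCategory.Q.map (r • 𝟙 K) ≫ e.hom := by
    rw [Functor.map_smul, CategoryTheory.Functor.map_id, Linear.smul_comp, Category.id_comp,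
      Linear.comp_smul, Iso.inv_hom_id]
  have h2 : (F.mapHomologicalComplex (ComplexShape.up ℤ)).map (r • 𝟙 K) =
      φ r • 𝟙 ((F.mapHomologicalComplex (ComplexShape.up ℤ)).obj K) := by
    ext i : 1
    exact hF r (K.X i)
  have h3 := F.mapDerivedCategoryFactors_hom_naturality (r • 𝟙 K)
  have h5 : DerivedCategory.Q.map (φ r • 𝟙 ((F.mapHomologicalComplex
      (ComplexShape.up ℤ)).obj K)) = φ r • 𝟙 _ := by
    rw [Functor.map_smul, CategoryTheory.Functor.map_id]
  rw [h2, h5] at h3
  have h4 : F.mapDerivedCategory.map (DerivedCategory.Q.map (r • 𝟙 K)) =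
      φ r • 𝟙 (F.mapDerivedCategory.obj (DerivedCategory.Q.obj K)) := by
    rw [← cancel_mono (F.mapDerivedCategoryFactors.hom.app K), h3]
    erw [Linear.smul_comp, Linear.comp_smul]
    congr 1
    exact (Category.comp_id _).trans (Category.id_comp _).symm
  rw [h1, Functor.map_comp, Functor.map_comp, h4, Linear.smul_comp, Category.id_comp,
    Linear.comp_smul, ← Functor.map_comp, Iso.inv_hom_id, CategoryTheory.Functor.map_id]

theorem IsPsi.mapD {R R' : Type*} [CommRing R] [CommRing R'] [Linear R A] [Linear R' B]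
    (φ : R → R') (hF : ∀ (r : R) (M : A), F.map (r • 𝟙 M) = φ r • 𝟙 (F.obj M)) {rs : List R}
    {M N : DerivedCategory A} (h : IsPsi rs M N) :
    IsPsi (rs.map φ) (F.mapDerivedCategory.obj M) (F.mapDerivedCategory.obj N) :=
  h.map F.mapDerivedCategory φ (mapD_smul F φ hF)

theorem IsPhi.mapD {R R' : Type*} [CommRing R] [CommRing R'] [Linear R A] [Linear R' B]
    (φ : R → R') (hF : ∀ (r : R) (M : A), F.map (r • 𝟙 M) = φ r • 𝟙 (F.obj M)) {rs : List R}
    {M N : DerivedCategory A} (h : IsPhi rs M N) :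
    IsPhi (rs.map φ) (F.mapDerivedCategory.obj M) (F.mapDerivedCategory.obj N) :=
  h.map F.mapDerivedCategory φ (mapD_smul F φ hF)

/-- The derived functor of an exact functor, on objects of degree zero. -/
theorem mapD_single (M : A) (n : ℤ) :
    Nonempty (F.mapDerivedCategory.obj ((DerivedCategory.singleFunctor A n).obj M) ≅
      (DerivedCategory.singleFunctor B n).obj (F.obj M)) :=
  ⟨(F.mapDerivedCategorySingleFunctor n).app M⟩

theorem mapD_iso (G : A ⥤ B) [G.Additive] [PreservesFiniteLimits G] [PreservesFiniteColimits G]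
    (e : F ≅ G) (E : DerivedCategory A) :
    Nonempty (F.mapDerivedCategory.obj E ≅ G.mapDerivedCategory.obj E) := by
  let K := DerivedCategory.Q.objPreimage E
  let i : DerivedCategory.Q.obj K ≅ E := DerivedCategory.Q.objObjPreimageIso E
  exact ⟨F.mapDerivedCategory.mapIso i.symm ≪≫ F.mapDerivedCategoryFactors.app K ≪≫
    DerivedCategory.Q.mapIso ((NatIso.mapHomologicalComplex e (ComplexShape.up ℤ)).app K) ≪≫
    (G.mapDerivedCategoryFactors.app K).symm ≪≫ G.mapDerivedCategory.mapIso i⟩

end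

theorem mapD_comp (F : A ⥤ B) [F.Additive] [PreservesFiniteLimits F] [PreservesFiniteColimits F]
    (G : B ⥤ C) [G.Additive] [PreservesFiniteLimits G] [PreservesFiniteColimits G]
    (H : A ⥤ C) [H.Additive] [PreservesFiniteLimits H] [PreservesFiniteColimits H]
    (e : F ⋙ G ≅ H) (E : DerivedCategory A) :
    Nonempty (G.mapDerivedCategory.obj (F.mapDerivedCategory.obj E) ≅
      H.mapDerivedCategory.obj E) := by
  let K := DerivedCategory.Q.objPreimage E
  let i : DerivedCategory.Q.obj K ≅ E := DerivedCategory.Q.objObjPreimageIso E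
  exact ⟨G.mapDerivedCategory.mapIso (F.mapDerivedCategory.mapIso i.symm ≪≫
      F.mapDerivedCategoryFactors.app K) ≪≫ G.mapDerivedCategoryFactors.app _ ≪≫
    DerivedCategory.Q.mapIso ((NatIso.mapHomologicalComplex e (ComplexShape.up ℤ)).app K) ≪≫
    (H.mapDerivedCategoryFactors.app K).symm ≪≫ H.mapDerivedCategory.mapIso i⟩

end

end Pool.Agent.W456
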