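import Mathlib

set_option autoImplicit false

/-!
Stalks and skyscraper modules over a scheme.
-/

universe u

open CategoryTheory CategoryTheory.Limits AlgebraicGeometry TopologicalSpace Opposite

namespace Pool.Agent.W456

noncomputable section

variable {X : Scheme.{u}}

instance stalkModule (M : X.Modules) (x : X) :
    Module (X.presheaf.stalk x) (TopCat.Presheaf.stalk (C := Ab.{u}) M.presheaf x) :=
  let M' : PresheafOfModules.{u} (X.presheaf ⋙ forget₂ CommRingCat RingCat) := M.val
  inferInstanceAs (Module (X.presheaf.stalk x) (TopCat.Presheaf.stalk (C := Ab.{u}) M'.presheaf x))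

theorem germ_smul (M : X.Modules) (x : X) (U : X.Opens) (hx : x ∈ U) (r : Γ(X, U)) (m : Γ(M, U)) :
    M.presheaf.germ U x hx (r • m) = X.presheaf.germ U x hx r • M.presheaf.germ U x hx m :=
  PresheafOfModules.germ_smul (R := X.presheaf) M.val x U hx r m

/-- Simultaneous representatives of two germs. -/
theorem exists_germ₂ (M : X.Modules) (x : X) (r : X.presheaf.stalk x)
    (m : (TopCat.Presheaf.stalk (C := Ab.{u}) M.presheaf x : Ab.{u})) :
    ∃ (U : X.Opens) (hx : x ∈ U) (r' : Γ(X, U)) (m' : Γ(M, U)),
      X.presheaf.germ U x hx r' = r ∧ M.presheaf.germ U x hx m' = m := by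
  obtain ⟨U, hx, m, rfl⟩ := TopCat.Presheaf.exists_germ_eq (C := Ab.{u}) M.presheaf m
  obtain ⟨V, hV, r, rfl⟩ := TopCat.Presheaf.exists_germ_eq X.presheaf r
  refine ⟨U ⊓ V, ⟨hx, hV⟩, X.presheaf.map (homOfLE inf_le_right).op r,
    M.presheaf.map (homOfLE inf_le_left).op m, ?_, ?_⟩
  · exact TopCat.Presheaf.germ_res_apply ..
  · exact TopCat.Presheaf.germ_res_apply ..

/-- The map on stalks as a linear map. -/
def stalkLin {M N : X.Modules} (φ : M ⟶ N) (x : X) :
    (TopCat.Presheaf.stalk (C := Ab.{u}) M.presheaf x) →ₗ[X.presheaf.stalk x]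
    (TopCat.Presheaf.stalk (C := Ab.{u}) N.presheaf x) where
  toFun := ((TopCat.Presheaf.stalkFunctor Ab.{u} x).map φ.mapPresheaf)
  map_add' a b := map_add _ a b
  map_smul' r m := by
    obtain ⟨U, hx, r, m, rfl, rfl⟩ := exists_germ₂ M x r m
    rw [← germ_smul]
    erw [TopCat.Presheaf.stalkFunctor_map_germ_apply, TopCat.Presheaf.stalkFunctor_map_germ_apply]
    erw [Scheme.Modules.Hom.app_smul, germ_smul]
    rfl

theorem stalkLin_germ {M N : X.Modules} (φ : M ⟶ N) (x : X) (U : X.Opens) (hx : x ∈ U)
    (m : Γ(M, U)) :
    stalkLin φ x (M.presheaf.germ U x hx m) = N.presheaf.germ U x hx (φ.app U m) :=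
  TopCat.Presheaf.stalkFunctor_map_germ_apply U x hx φ.mapPresheaf m

variable (X) in
/-- The stalk functor from `O_X`-modules to modules over the local ring at `x`. -/
def stalkF (x : X) : X.Modules ⥤ ModuleCat.{u} (X.presheaf.stalk x) where
  obj M := ModuleCat.of _ (TopCat.Presheaf.stalk (C := Ab.{u}) M.presheaf x)
  map φ := ModuleCat.ofHom (stalkLin φ x)
  map_id M := by
    ext m
    exact ConcreteCategory.congr_hom ((TopCat.Presheaf.stalkFunctor Ab.{u} x).map_id M.presheaf) m
  map_comp {M N K} f g := by
    ext m
    exact ConcreteCategory.congr_hom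
      ((TopCat.Presheaf.stalkFunctor Ab.{u} x).map_comp f.mapPresheaf g.mapPresheaf) m

/-! ### The skyscraper -/

section Sky

variable (x : X) (M : ModuleCat.{u} (X.presheaf.stalk x))

/-- Sections of the skyscraper over `U`. -/
abbrev SkySec (U : X.Opens) : Type u := PLift (x ∈ U) → M

/-- The module structure on the value at a point, via the germ map. -/
@[reducible] def germMod (U : X.Opens) (h : x ∈ U) : Module Γ(X, U) M :=
  Module.compHom M (X.presheaf.germ U x h).hom

instance skySecModule (U : X.Opens) : Module Γ(X, U) (SkySec x M U) :=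
  letI : ∀ _ : PLift (x ∈ U), Module Γ(X, U) M := fun h => germMod x M U h.down
  inferInstanceAs (Module Γ(X, U) (∀ _ : PLift (x ∈ U), M))

theorem skySec_smul (U : X.Opens) (r : Γ(X, U)) (s : SkySec x M U) (h : PLift (x ∈ U)) :
    (r • s) h = X.presheaf.germ U x h.down r • s h := rfl

/-- The underlying presheaf of abelian groups of the skyscraper. -/
def skyAb : (Opens X)ᵒᵖ ⥤ Ab.{u} where
  obj U := AddCommGrpCat.of (SkySec x M U.unop)
  map {U V} f := AddCommGrpCat.ofHom
    { toFun := fun s h => s ⟨f.unop.le h.down⟩
      map_zero' := rfl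
      map_add' := fun _ _ => rfl }
  map_id _ := rfl
  map_comp _ _ := rfl

instance (U : (Opens X)ᵒᵖ) : Module (X.ringCatSheaf.obj.obj U) ((skyAb x M).obj U) :=
  skySecModule x M U.unop

/-- The skyscraper as a presheaf of modules. -/
def skyPre : X.PresheafOfModules :=
  PresheafOfModules.ofPresheaf (R := X.ringCatSheaf.obj) (skyAb x M) (by
    intro U V f r m
    funext h
    change X.presheaf.germ U.unop x _ r • m _ = X.presheaf.germ V.unop x h.down
      (X.presheaf.map f r) • m _
    congr 1
    exact (TopCat.Presheaf.germ_res_apply' X.presheaf f x h.down r).symm)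

theorem skyPre_isSheaf : TopCat.Presheaf.IsSheaf (skyAb x M) := by
  rw [TopCat.Presheaf.isSheaf_iff_isSheaf_comp (forget Ab.{u}),
    TopCat.Presheaf.isSheaf_iff_isSheafUniqueGluing_types]
  intro ι U sf hsf
  classical
  refine ⟨fun h => ?_, ?_, ?_⟩
  · have h' := h.down
    have : ∃ i, x ∈ U i := by simpa using h'
    exact sf this.choose ⟨this.choose_spec⟩
  · intro i
    funext h
    have h' : ∃ i, x ∈ U i := ⟨i, h.down⟩
    have := congrFun (hsf h'.choose i) ⟨⟨h'.choose_spec, h.down⟩⟩
    exact this
  · intro t ht
    funext h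
    have h' : ∃ i, x ∈ U i := by simpa using h.down
    have := congrFun (ht h'.choose) ⟨h'.choose_spec⟩
    exact this

/-- The skyscraper module. -/
def skyObj : X.Modules where
  val := skyPre x M
  isSheaf := skyPre_isSheaf x M

variable {M} {N : ModuleCat.{u} (X.presheaf.stalk x)}

/-- Functoriality of the skyscraper. -/
def skyMap (f : M ⟶ N) : skyObj x M ⟶ skyObj x N where
  val := PresheafOfModules.homMk (R := X.ringCatSheaf.obj)
    { app U := AddCommGrpCat.ofHom
        { toFun := fun s h => f.hom (s h)
          map_zero' := by funext h; exact map_zero _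
          map_add' := fun a b => by funext h; exact map_add _ _ _ }
      naturality := fun U V g => rfl }
    (by
      intro U r m
      funext h
      exact map_smul f.hom _ _)

end Sky

variable (X) in
/-- The skyscraper functor. -/
def skyF (x : X) : ModuleCat.{u} (X.presheaf.stalk x) ⥤ X.Modules where
  obj M := skyObj x M
  map f := skyMap x f
  map_id _ := rfl
  map_comp _ _ := rfl

section Adj

variable (x : X) {M : X.Modules} {N : ModuleCat.{u} (X.presheaf.stalk x)}

/-- From a map out of the stalk to a map to the skyscraper. -/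
def toSky (φ : (stalkF X x).obj M ⟶ N) : M ⟶ (skyF X x).obj N where
  val := PresheafOfModules.homMk (R := X.ringCatSheaf.obj)
    { app U := AddCommGrpCat.ofHom
        { toFun := fun s h => φ.hom (M.presheaf.germ U.unop x h.down s)
          map_zero' := by
            funext h
            exact (congrArg φ.hom (map_zero _)).trans (map_zero _)
          map_add' := fun a b => by
            funext h
            exact (congrArg φ.hom (map_add _ _ _)).trans (map_add _ _ _) }
      naturality := fun U V g => by
        ext s
        funext h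
        exact congrArg φ.hom (TopCat.Presheaf.germ_res_apply' M.presheaf g x h.down s) }
    (by
      intro U r m
      funext h
      exact (congrArg φ.hom (germ_smul M x U.unop h.down r m)).trans (map_smul φ.hom _ _))

theorem toSky_app (φ : (stalkF X x).obj M ⟶ N) (U : X.Opens) (s : Γ(M, U)) (h : PLift (x ∈ U)) :
    ((toSky x φ).app U s : SkySec x N U) h = φ.hom (M.presheaf.germ U x h.down s) := rfl

/-- The cocone giving the map out of the stalk. -/
def ofSkyAb (ψ : M ⟶ (skyF X x).obj N) :
    TopCat.Presheaf.stalk (C := Ab.{u}) M.presheaf x ⟶ AddCommGrpCat.of N :=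
  colimit.desc ((OpenNhds.inclusion x).op ⋙ M.presheaf)
    { pt := AddCommGrpCat.of N
      ι :=
        { app := fun U => AddCommGrpCat.ofHom
            { toFun := fun s => (ψ.app U.unop.1 s : SkySec x N U.unop.1) ⟨U.unop.2⟩
              map_zero' := by
                have := map_zero (ψ.app U.unop.1).hom
                exact congrFun this _
              map_add' := fun a b => by
                have := map_add (ψ.app U.unop.1).hom a b
                exact congrFun this _ }
          naturality := fun U V g => by
            ext s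
            have := ConcreteCategory.congr_hom (ψ.mapPresheaf.naturality
              ((OpenNhds.inclusion x).op.map g)) s
            exact congrFun this _ } }

theorem ofSkyAb_germ (ψ : M ⟶ (skyF X x).obj N) (U : X.Opens) (hx : x ∈ U) (s : Γ(M, U)) :
    ofSkyAb x ψ (M.presheaf.germ U x hx s) = (ψ.app U s : SkySec x N U) ⟨hx⟩ :=
  ConcreteCategory.congr_hom (colimit.ι_desc _ _ : colimit.ι ((OpenNhds.inclusion x).op ⋙ M.presheaf)
    (op ⟨U, hx⟩) ≫ _ = _) s

/-- From a map to the skyscraper to a map out of the stalk. -/
def ofSky (ψ : M ⟶ (skyF X x).obj N) : (stalkF X x).obj M ⟶ N :=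
  ModuleCat.ofHom
    { toFun := ofSkyAb x ψ
      map_add' := fun a b => map_add (ofSkyAb x ψ).hom a b
      map_smul' := fun r m => by
        obtain ⟨U, hx, r, m, rfl, rfl⟩ := exists_germ₂ M x r m
        rw [← germ_smul, ofSkyAb_germ]
        erw [ofSkyAb_germ]
        have := ψ.app_smul r m
        exact congrFun this _ }

theorem ofSky_germ (ψ : M ⟶ (skyF X x).obj N) (U : X.Opens) (hx : x ∈ U) (s : Γ(M, U)) :
    (ofSky x ψ).hom (M.presheaf.germ U x hx s) = (ψ.app U s : SkySec x N U) ⟨hx⟩ :=
  ofSkyAb_germ x ψ U hx s

theorem stalk_hom_ext {A : ModuleCat.{u} (X.presheaf.stalk x)} {f g : (stalkF X x).obj M ⟶ A}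
    (h : ∀ (U : X.Opens) (hx : x ∈ U) (s : Γ(M, U)),
      f.hom (M.presheaf.germ U x hx s) = g.hom (M.presheaf.germ U x hx s)) : f = g := by
  ext m
  obtain ⟨U, hx, m, rfl⟩ := TopCat.Presheaf.exists_germ_eq (C := Ab.{u}) M.presheaf m
  exact h U hx m

variable (X) in
/-- The stalk functor is left adjoint to the skyscraper functor. -/
def stalkSkyAdj (x : X) : stalkF X x ⊣ skyF X x :=
  Adjunction.mkOfHomEquiv
    { homEquiv := fun M N =>
        { toFun := fun φ => toSky x φ
          invFun := fun ψ => ofSky x ψ
          left_inv := fun φ => stalk_hom_ext x (fun U hx s => by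
            rw [ofSky_germ, toSky_app])
          right_inv := fun ψ => by
            apply Scheme.Modules.hom_ext
            intro U
            ext s
            funext h
            exact (toSky_app ..).trans (ofSky_germ ..) }
      homEquiv_naturality_left_symm := fun {M M' N} f g => stalk_hom_ext x (fun U hx s => by
        rw [Equiv.coe_fn_symm_mk, ofSky_germ]
        change _ = (ofSky x g).hom ((stalkLin f x) _)
        rw [stalkLin_germ, ofSky_germ]
        rfl)
      homEquiv_naturality_right := fun {M N N'} f g => by
        apply Scheme.Modules.hom_ext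
        intro U
        ext s
        funext h
        rfl }

end Adj

end

end Pool.Agent.W456
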