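import Mathlib
import Pool.Agent.W456.Sky

set_option autoImplicit false

universe u

open CategoryTheory CategoryTheory.Limits AlgebraicGeometry TopologicalSpace Opposite

namespace Pool.Agent.W456

noncomputable section

section General

variable {C D : Type*} [Category* C] [Category* D] [Abelian C] [Abelian D] (F : C ⥤ D) [F.Additive]

theorem finColim_of_epi [PreservesFiniteLimits F] [F.PreservesEpimorphisms] :
    PreservesFiniteColimits F := by
  have h := (Functor.exact_tfae F).out 0 3
  refine (h.1 fun S hS => ?_).2
  have h1 := (Functor.preservesFiniteLimits_iff_forall_exact_map_and_mono F).1 inferInstance S hS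
  have := hS.epi_g
  exact { exact := h1.1, mono_f := h1.2, epi_g := inferInstanceAs (Epi (F.map S.g)) }

theorem finLim_of_mono [PreservesFiniteColimits F] [F.PreservesMonomorphisms] :
    PreservesFiniteLimits F := by
  have h := (Functor.exact_tfae F).out 0 3
  refine (h.1 fun S hS => ?_).1
  have h1 := (Functor.preservesFiniteColimits_iff_forall_exact_map_and_epi F).1 inferInstance S hS
  have := hS.mono_f
  exact { exact := h1.1, epi_g := h1.2, mono_f := inferInstanceAs (Mono (F.map S.f)) }

end General

variable {X : Scheme.{u}}

variable (X) in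
/-- The underlying sheaf of abelian groups of a module. -/
def toSh : X.Modules ⥤ TopCat.Sheaf Ab.{u} X := SheafOfModules.toSheaf _

instance : PreservesFiniteLimits (toSh X) :=
  inferInstanceAs (PreservesFiniteLimits (SheafOfModules.toSheaf X.ringCatSheaf))

instance : (toSh X).Additive :=
  inferInstanceAs ((SheafOfModules.toSheaf X.ringCatSheaf).Additive)

instance : (toSh X).Faithful :=
  inferInstanceAs ((SheafOfModules.toSheaf X.ringCatSheaf).Faithful)

/-- Comparison of the stalk functors. -/
def stalkCompare (x : X) : stalkF X x ⋙ forget₂ (ModuleCat.{u} (X.presheaf.stalk x)) Ab.{u} ≅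
    toSh X ⋙ TopCat.Sheaf.forget Ab.{u} X ⋙ TopCat.Presheaf.stalkFunctor Ab.{u} x :=
  Iso.refl _

instance (x : X) : (stalkF X x).IsLeftAdjoint := (stalkSkyAdj X x).isLeftAdjoint
instance (x : X) : (skyF X x).IsRightAdjoint := (stalkSkyAdj X x).isRightAdjoint

instance (x : X) : PreservesFiniteLimits (stalkF X x) := by
  have : PreservesFiniteLimits
      (stalkF X x ⋙ forget₂ (ModuleCat.{u} (X.presheaf.stalk x)) Ab.{u}) :=
    preservesFiniteLimits_of_natIso (stalkCompare x).symm
  exact preservesFiniteLimits_of_reflects_of_preserves (stalkF X x)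
    (forget₂ (ModuleCat.{u} (X.presheaf.stalk x)) Ab.{u})

instance (x : X) : (stalkF X x).Additive :=
  have := preservesBinaryBiproducts_of_preservesBinaryCoproducts (stalkF X x)
  Functor.additive_of_preservesBinaryBiproducts _

instance (x : X) : (skyF X x).Additive :=
  have := preservesBinaryBiproducts_of_preservesBinaryProducts (skyF X x)
  Functor.additive_of_preservesBinaryBiproducts _

instance (x : X) : (skyF X x).PreservesEpimorphisms where
  preserves {M N} f hf := by
    rw [ModuleCat.epi_iff_surjective] at hf
    refine ⟨fun {K} g h hgh => ?_⟩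
    apply Scheme.Modules.hom_ext
    intro U
    ext s
    have hs : ∃ s' : SkySec x M U, ((skyF X x).map f).app U s' = s := by
      choose r hr using hf
      exact ⟨fun a => r ((s : SkySec x N U) a), funext fun a => hr _⟩
    obtain ⟨s', rfl⟩ := hs
    exact ConcreteCategory.congr_hom (congrArg (fun k => Scheme.Modules.Hom.app k U) hgh) s'

theorem isZero_of_stalk (M : X.Modules) (h : ∀ x, IsZero ((stalkF X x).obj M)) : IsZero M := by
  have h1 : IsZero ((toSh X).obj M) := by
    rw [TopCat.Sheaf.isZero_iff_stalkFunctor_obj_isZero]
    intro x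
    exact (Functor.map_isZero (forget₂ (ModuleCat.{u} (X.presheaf.stalk x)) Ab.{u}) (h x)).of_iso
      ((stalkCompare x).app M).symm
  rw [IsZero.iff_id_eq_zero] at h1 ⊢
  apply (toSh X).map_injective
  rw [CategoryTheory.Functor.map_zero, CategoryTheory.Functor.map_id, h1]

instance (x : X) : PreservesFiniteColimits (skyF X x) := finColim_of_epi _

end

end Pool.Agent.W456
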