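import Mathlib
import Pool.Agent.W456.Exact

set_option autoImplicit false

universe u

open CategoryTheory CategoryTheory.Limits AlgebraicGeometry TopologicalSpace Opposite

namespace Pool.Agent.W456

noncomputable section

variable {X Y : Scheme.{u}} (f : X ⟶ Y) [IsOpenImmersion f]

theorem isRightAdjoint_aux (φ : X.ringCatSheaf ⟶ (f.opensFunctor.sheafPushforwardContinuous
    RingCat.{u} (Opens.grothendieckTopology X) (Opens.grothendieckTopology Y)).obj Y.ringCatSheaf) :
    (SheafOfModules.pushforward.{u} φ).IsRightAdjoint := by
  have h1 : (PresheafOfModules.pushforward.{u} (F := f.opensFunctor) (R := Y.ringCatSheaf.obj)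
      φ.hom).IsRightAdjoint := by
    have := PresheafOfModules.pullbackObjIsDefined_eq_top (F := f.opensFunctor)
      (R := Y.ringCatSheaf.obj) (S := X.ringCatSheaf.obj) φ.hom
    exact Functor.isRightAdjoint_of_leftAdjointObjIsDefined_eq_top this
  exact (SheafOfModules.PullbackConstruction.adjunction.{u} φ).isRightAdjoint

instance : (Scheme.Modules.restrictFunctor f).IsRightAdjoint := isRightAdjoint_aux f _

/-- Extension by zero along an open immersion: the left adjoint of the restriction. -/
def extZ : X.Modules ⥤ Y.Modules := (Scheme.Modules.restrictFunctor f).leftAdjoint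

/-- The adjunction between extension by zero and restriction. -/
def extAdj : extZ f ⊣ Scheme.Modules.restrictFunctor f :=
  Adjunction.ofIsRightAdjoint _

/-- The adjoint triple. -/
def triple : Adjunction.Triple (extZ f) (Scheme.Modules.restrictFunctor f)
    (Scheme.Modules.pushforward f) where
  adj₁ := extAdj f
  adj₂ := Scheme.Modules.restrictAdjunction f

instance : IsIso (extAdj f).unit := (triple f).isIso_unit_iff_isIso_counit.2
  (inferInstanceAs (IsIso (Scheme.Modules.restrictAdjunction f).counit))

theorem isZero_of_sections (M : X.Modules) (h : ∀ U : X.Opens, Subsingleton Γ(M, U)) :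
    IsZero M := by
  rw [IsZero.iff_id_eq_zero]
  apply Scheme.Modules.hom_ext
  intro U
  ext s
  exact (h U).elim _ _

theorem isZero_stalk_restrict (M : Y.Modules) (x : X)
    (h : IsZero ((stalkF X x).obj ((Scheme.Modules.restrictFunctor f).obj M))) :
    IsZero ((stalkF Y (f x)).obj M) := by
  have h1 := Functor.map_isZero (forget₂ (ModuleCat.{u} (X.presheaf.stalk x)) Ab.{u}) h
  have h2 : IsZero ((forget₂ (ModuleCat.{u} (Y.presheaf.stalk (f x))) Ab.{u}).obj
      ((stalkF Y (f x)).obj M)) :=
    h1.of_iso ((Scheme.Modules.restrictStalkNatIso f x).app M).symm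
  rw [IsZero.iff_id_eq_zero] at h2 ⊢
  apply (forget₂ (ModuleCat.{u} (Y.presheaf.stalk (f x))) Ab.{u}).map_injective
  rw [CategoryTheory.Functor.map_zero, CategoryTheory.Functor.map_id, h2]

theorem isZero_stalk_restrict' (M : Y.Modules) (x : X)
    (h : IsZero ((stalkF Y (f x)).obj M)) :
    IsZero ((stalkF X x).obj ((Scheme.Modules.restrictFunctor f).obj M)) := by
  have h1 := Functor.map_isZero (forget₂ (ModuleCat.{u} (Y.presheaf.stalk (f x))) Ab.{u}) h
  have h2 : IsZero ((forget₂ (ModuleCat.{u} (X.presheaf.stalk x)) Ab.{u}).obj
      ((stalkF X x).obj ((Scheme.Modules.restrictFunctor f).obj M))) :=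
    h1.of_iso ((Scheme.Modules.restrictStalkNatIso f x).app M)
  rw [IsZero.iff_id_eq_zero] at h2 ⊢
  apply (forget₂ (ModuleCat.{u} (X.presheaf.stalk x)) Ab.{u}).map_injective
  rw [CategoryTheory.Functor.map_zero, CategoryTheory.Functor.map_id, h2]

theorem isZero_restrict_sky (y : Y) (hy : y ∉ Set.range f) (N : ModuleCat.{u} (Y.presheaf.stalk y)) :
    IsZero ((Scheme.Modules.restrictFunctor f).obj ((skyF Y y).obj N)) := by
  apply isZero_of_sections
  intro U
  refine ⟨fun a b => funext fun h => ?_⟩
  obtain ⟨x, -, hx⟩ := h.down
  exact absurd ⟨x, hx⟩ hy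

theorem isZero_stalk_ext (A : X.Modules) (y : Y) (hy : y ∉ Set.range f) :
    IsZero ((stalkF Y y).obj ((extZ f).obj A)) := by
  rw [IsZero.iff_id_eq_zero]
  apply ((stalkSkyAdj Y y).homEquiv _ _).injective
  apply ((extAdj f).homEquiv _ _).injective
  exact (isZero_restrict_sky f y hy _).eq_of_tgt _ _

instance : PreservesFiniteLimits (Scheme.Modules.restrictFunctor f) := by
  have := (extAdj f).rightAdjoint_preservesLimits
  infer_instance

instance : PreservesFiniteColimits (Scheme.Modules.restrictFunctor f) := by
  have := (Scheme.Modules.restrictAdjunction f).leftAdjoint_preservesColimits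
  infer_instance

instance : PreservesFiniteColimits (extZ f) := by
  have := (extAdj f).leftAdjoint_preservesColimits
  infer_instance

instance : (Scheme.Modules.restrictFunctor f).Additive :=
  have := preservesBinaryBiproducts_of_preservesBinaryProducts (Scheme.Modules.restrictFunctor f)
  Functor.additive_of_preservesBinaryBiproducts _

instance : (extZ f).Additive :=
  have := preservesBinaryBiproducts_of_preservesBinaryCoproducts (extZ f)
  Functor.additive_of_preservesBinaryBiproducts _

instance : (extZ f).PreservesMonomorphisms where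
  preserves {A B} φ hφ := by
    apply Preadditive.mono_of_kernel_zero
    apply IsZero.eq_of_src
    apply isZero_of_stalk
    intro y
    by_cases hy : y ∈ Set.range f
    · obtain ⟨x, rfl⟩ := hy
      apply isZero_stalk_restrict
      apply Functor.map_isZero
      refine IsZero.of_iso ?_
        (PreservesKernel.iso (Scheme.Modules.restrictFunctor f) ((extZ f).map φ))
      have : Mono ((Scheme.Modules.restrictFunctor f).map ((extZ f).map φ)) := by
        have h := (extAdj f).unit.naturality φ
        have h2 : (Scheme.Modules.restrictFunctor f).map ((extZ f).map φ) =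
            inv ((extAdj f).unit.app A) ≫ φ ≫ (extAdj f).unit.app B := by
          rw [IsIso.eq_inv_comp]
          exact h.symm
        rw [h2]
        infer_instance
      exact isZero_kernel_of_mono _
    · have h1 : Mono ((stalkF Y y).map (kernel.ι ((extZ f).map φ))) := inferInstance
      exact IsZero.of_mono ((stalkF Y y).map (kernel.ι ((extZ f).map φ)))
        (isZero_stalk_ext f A y hy)

instance : PreservesFiniteLimits (extZ f) := finLim_of_mono _

end

end Pool.Agent.W456
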