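import Mathlib

set_option autoImplicit false

universe u

open CategoryTheory AlgebraicGeometry

namespace Pool.Agent.W456

noncomputable section

/-- The structure sheaf as a module over itself. -/
abbrev unitMod (X : Scheme.{u}) : X.Modules := SheafOfModules.unit X.ringCatSheaf

end

end Pool.Agent.W456
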