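import Mathlib
import Pool.Agent.W456.ExtZero
import Pool.Agent.W456.UnitMod

set_option autoImplicit false

universe u

open CategoryTheory CategoryTheory.Limits AlgebraicGeometry TopologicalSpace Opposite

namespace Pool.Agent.W456

noncomputable section

variable {X : Scheme.{u}}

/-- Restriction of a global function. -/
abbrev resTop (U : X.Opens) (f : Γ(X, ⊤)) : Γ(X, U) := X.presheaf.map (homOfLE le_top).op f

theorem resTop_res (U V : (Opens X)ᵒᵖ) (i : U ⟶ V) (f : Γ(X, ⊤)) :
    X.presheaf.map i (resTop U.unop f) = resTop V.unop f := by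
  dsimp only [resTop]
  rw [← ConcreteCategory.comp_apply, ← Functor.map_comp]
  rfl

/-- Multiplication by a global function on sections. -/
def smulSec (f : Γ(X, ⊤)) (M : X.Modules) (U : X.Opens) : Γ(M, U) →+ Γ(M, U) :=
  DistribSMul.toAddMonoidHom Γ(M, U) (resTop U f)

theorem smulSec_apply (f : Γ(X, ⊤)) (M : X.Modules) (U : X.Opens) (s : Γ(M, U)) :
    smulSec f M U s = resTop U f • s := rfl

theorem smulSec_nat (f : Γ(X, ⊤)) (M : X.Modules) (U V : (Opens X)ᵒᵖ) (i : U ⟶ V)
    (s : Γ(M, U.unop)) : smulSec f M V.unop (M.presheaf.map i s) =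
      M.presheaf.map i (smulSec f M U.unop s) := by
  have h := Scheme.Modules.map_smul M i.unop (resTop U.unop f) s
  have h2 := resTop_res U V i f
  rw [smulSec_apply, smulSec_apply, ← h2]
  exact h.symm

/-- Multiplication by a global function on a module. -/
def smulEnd (f : Γ(X, ⊤)) (M : X.Modules) : M ⟶ M where
  val := PresheafOfModules.homMk (R := X.ringCatSheaf.obj)
    { app U := AddCommGrpCat.ofHom (smulSec f M U.unop)
      naturality := fun U V i => by
        ext s
        exact smulSec_nat f M U V i s }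
    (by
      intro U r m
      change smulSec f M U.unop ((show Γ(X, U.unop) from r) • (show Γ(M, U.unop) from m)) =
        (show Γ(X, U.unop) from r) • (smulSec f M U.unop (show Γ(M, U.unop) from m))
      rw [smulSec_apply, smulSec_apply, smul_comm])

theorem smulEnd_app (f : Γ(X, ⊤)) (M : X.Modules) (U : X.Opens) (s : Γ(M, U)) :
    (smulEnd f M).app U s = resTop U f • s := rfl

theorem smulEnd_nat (f : Γ(X, ⊤)) {M N : X.Modules} (φ : M ⟶ N) :
    φ ≫ smulEnd f N = smulEnd f M ≫ φ := by
  apply Scheme.Modules.hom_ext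
  intro U
  ext s
  change (smulEnd f N).app U (φ.app U s) = φ.app U ((smulEnd f M).app U s)
  rw [smulEnd_app, smulEnd_app, Scheme.Modules.Hom.app_smul]

variable (X) in
/-- The action of global functions as a ring map to the centre. -/
def gammaCenter : Γ(X, ⊤) →+* CatCenter X.Modules where
  toFun f := { app := fun M => smulEnd f M, naturality := fun M N φ => smulEnd_nat f φ }
  map_one' := by
    apply CatCenter.ext
    intro M
    apply Scheme.Modules.hom_ext
    intro U
    ext s
    change (smulEnd 1 M).app U s = s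
    rw [smulEnd_app, resTop, map_one, one_smul]
  map_mul' f g := by
    apply CatCenter.ext
    intro M
    apply Scheme.Modules.hom_ext
    intro U
    ext s
    change (smulEnd (f * g) M).app U s = (smulEnd f M).app U ((smulEnd g M).app U s)
    rw [smulEnd_app, smulEnd_app, smulEnd_app, resTop, map_mul, mul_smul]
  map_zero' := by
    apply CatCenter.ext
    intro M
    apply Scheme.Modules.hom_ext
    intro U
    ext s
    change (smulEnd 0 M).app U s = 0
    rw [smulEnd_app, resTop, map_zero, zero_smul]
  map_add' f g := by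
    apply CatCenter.ext
    intro M
    apply Scheme.Modules.hom_ext
    intro U
    ext s
    change (smulEnd (f + g) M).app U s = (smulEnd f M).app U s + (smulEnd g M).app U s
    rw [smulEnd_app, smulEnd_app, smulEnd_app, resTop, map_add, add_smul]

instance : Linear Γ(X, ⊤) X.Modules := Linear.ofRingMorphism (gammaCenter X)

theorem smul_id_eq (f : Γ(X, ⊤)) (M : X.Modules) : f • 𝟙 M = smulEnd f M := by
  change smulEnd f M ≫ 𝟙 M = _
  rw [Category.comp_id]

/-- The germ of a global function. -/
abbrev germTop (x : X) : Γ(X, ⊤) →+* X.presheaf.stalk x := (X.presheaf.germ ⊤ x trivial).hom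

theorem stalkF_smul (x : X) (f : Γ(X, ⊤)) (M : X.Modules) :
    (stalkF X x).map (f • 𝟙 M) = germTop x f • 𝟙 ((stalkF X x).obj M) := by
  rw [smul_id_eq]
  apply stalk_hom_ext
  intro U hx s
  change stalkLin (smulEnd f M) x _ = germTop x f • (M.presheaf.germ U x hx s)
  rw [stalkLin_germ, smulEnd_app, germ_smul]
  congr 1
  exact TopCat.Presheaf.germ_res_apply X.presheaf (homOfLE le_top) x hx f

/-! ### The structure sheaf as a module -/

/-- The section one. -/
def oneSec (U : X.Opens) : Γ(unitMod X, U) := (1 : Γ(X, U))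

theorem smul_oneSec (U : X.Opens) (r : Γ(X, U)) : r • oneSec U = (show Γ(unitMod X, U) from r) :=
  mul_one (M := Γ(X, U)) r

theorem exists_smul_one (x : X) (m : (stalkF X x).obj (unitMod X)) :
    ∃ r : X.presheaf.stalk x,
      r • ((unitMod X).presheaf.germ ⊤ x trivial (oneSec ⊤) : (stalkF X x).obj (unitMod X)) = m := by
  obtain ⟨U, hx, m, rfl⟩ := TopCat.Presheaf.exists_germ_eq (C := Ab.{u}) (unitMod X).presheaf m
  refine ⟨X.presheaf.germ U x hx (show Γ(X, U) from m), ?_⟩
  have h1 : (unitMod X).presheaf.germ ⊤ x trivial (oneSec ⊤) =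
      (unitMod X).presheaf.germ U x hx (oneSec U) := by
    have := TopCat.Presheaf.germ_res_apply (unitMod X).presheaf (homOfLE (le_top : U ≤ ⊤)) x hx
      (oneSec ⊤)
    rw [← this]
    congr 1
    exact (map_one (X.presheaf.map (homOfLE (le_top : U ≤ ⊤)).op).hom)
  rw [h1]
  exact (germ_smul (unitMod X) x U hx (show Γ(X, U) from m) (oneSec U)).symm.trans
    (congrArg _ (smul_oneSec U _))

/-- The germ of one at a point. -/
def oneGerm (x : X) : (stalkF X x).obj (unitMod X) :=
  (unitMod X).presheaf.germ ⊤ x trivial (oneSec ⊤)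

theorem oneGerm_eq (x : X) (U : X.Opens) (hx : x ∈ U) :
    oneGerm x = (unitMod X).presheaf.germ U x hx (oneSec U) := by
  have := TopCat.Presheaf.germ_res_apply (unitMod X).presheaf (homOfLE (le_top : U ≤ ⊤)) x hx
    (oneSec ⊤)
  rw [oneGerm, ← this]
  congr 1
  exact (map_one (X.presheaf.map (homOfLE (le_top : U ≤ ⊤)).op).hom)

theorem smul_oneGerm_inj (x : X) (r : X.presheaf.stalk x) (h : r • oneGerm x = 0) : r = 0 := by
  obtain ⟨U, hx, r, rfl⟩ := TopCat.Presheaf.exists_germ_eq X.presheaf r
  rw [oneGerm_eq x U hx] at h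
  have h1 : (unitMod X).presheaf.germ U x hx (show Γ(unitMod X, U) from r) =
      (unitMod X).presheaf.germ U x hx 0 := by
    rw [map_zero]
    exact (congrArg _ (smul_oneSec U r)).symm.trans
      ((germ_smul (unitMod X) x U hx r (oneSec U)).trans h)
  obtain ⟨W, hW, iU, iV, heq⟩ := TopCat.Presheaf.germ_eq (unitMod X).presheaf x hx hx _ _ h1
  have h2 : X.presheaf.map iU.op r = 0 := by
    refine (heq.trans ?_)
    exact map_zero ((unitMod X).presheaf.map iV.op).hom
  have h3 := TopCat.Presheaf.germ_res_apply X.presheaf iU x hW r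
  rw [← h3, h2, map_zero]

/-- The stalk of the structure sheaf, as a linear equivalence. -/
def stalkUnitLin (x : X) : X.presheaf.stalk x ≃ₗ[X.presheaf.stalk x]
    (stalkF X x).obj (unitMod X) :=
  LinearEquiv.ofBijective (LinearMap.toSpanSingleton (X.presheaf.stalk x)
    ((stalkF X x).obj (unitMod X)) (oneGerm x))
    ⟨(injective_iff_map_eq_zero _).2 fun r hr => smul_oneGerm_inj x r hr,
      fun m => exists_smul_one x m⟩

theorem stalkUnitLin_one (x : X) : stalkUnitLin x 1 = oneGerm x :=
  one_smul (X.presheaf.stalk x) (oneGerm x)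

/-- The stalk of the structure sheaf, as a module. -/
def stalkUnit (x : X) : ModuleCat.of (X.presheaf.stalk x) (X.presheaf.stalk x) ≅
    (stalkF X x).obj (unitMod X) :=
  (stalkUnitLin x).toModuleIso

end

end Pool.Agent.W456
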