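import Mathlib
import Pool.Agent.W456.ExtZero
import Pool.Agent.W456.DAdj
import Pool.Agent.W456.DLoc

set_option autoImplicit false

universe w₁ w₂ u

open CategoryTheory CategoryTheory.Limits AlgebraicGeometry TopologicalSpace Opposite
open Pretriangulated

namespace Pool.Agent.W456

noncomputable section

section General

universe v₁ v₂ u₁ u₂

variable {A : Type u₁} [Category.{v₁} A] [Abelian A] [HasDerivedCategory.{w₁} A]
  {B : Type u₂} [Category.{v₂} B] [Abelian B] [HasDerivedCategory.{w₂} B]
  (F : A ⥤ B) [F.Additive] [PreservesFiniteLimits F] [PreservesFiniteColimits F]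

/-- Exact functors commute with cohomology. -/
theorem mapD_homology (C : DerivedCategory A) (i : ℤ) :
    Nonempty (Hh i (F.mapDerivedCategory.obj C) ≅ F.obj (Hh i C)) := by
  let K := DerivedCategory.Q.objPreimage C
  let e : DerivedCategory.Q.obj K ≅ C := DerivedCategory.Q.objObjPreimageIso C
  refine ⟨(DerivedCategory.homologyFunctor B i).mapIso (F.mapDerivedCategory.mapIso e.symm ≪≫
    F.mapDerivedCategoryFactors.app K) ≪≫
    (DerivedCategory.homologyFunctorFactors B i).app _ ≪≫ ?_ ≪≫
    F.mapIso ((DerivedCategory.homologyFunctorFactors A i).symm.app K) ≪≫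
    F.mapIso ((DerivedCategory.homologyFunctor A i).mapIso e)⟩
  exact (K.sc i).mapHomologyIso F

theorem isZero_mapD_iff (C : DerivedCategory A) :
    IsZero (F.mapDerivedCategory.obj C) ↔ ∀ i, IsZero (F.obj (Hh i C)) := by
  rw [isZero_iff_homology]
  refine forall_congr' fun i => ?_
  obtain ⟨e⟩ := mapD_homology F C i
  exact ⟨fun h => h.of_iso e.symm, fun h => h.of_iso e⟩

end General

variable {X : Scheme.{u}}

attribute [local instance] HasDerivedCategory.standard


/-! ### Skyscrapers -/

theorem stalk_sky_counit (x : X) (N : ModuleCat.{u} (X.presheaf.stalk x)) :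
    IsIso ((stalkSkyAdj X x).counit.app N) := by
  have h1 : (stalkSkyAdj X x).counit.app N = ofSky x (𝟙 ((skyF X x).obj N)) := by
    simp only [stalkSkyAdj, Adjunction.mkOfHomEquiv_counit_app]
    rfl
  rw [h1]
  have h2 : Function.Bijective (ofSky x (𝟙 ((skyF X x).obj N))).hom := by
    constructor
    · rw [injective_iff_map_eq_zero]
      intro m hm
      obtain ⟨U, hx, s, rfl⟩ := TopCat.Presheaf.exists_germ_eq (C := Ab.{u})
        ((skyF X x).obj N).presheaf m
      have h3 := (ofSky_germ x (𝟙 ((skyF X x).obj N)) U hx s).symm.trans hm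
      have h4 : s = 0 := by
        funext h
        exact h3
      rw [h4]
      exact map_zero _
    · intro n
      refine ⟨((skyF X x).obj N).presheaf.germ ⊤ x trivial (fun _ => n), ?_⟩
      exact ofSky_germ x (𝟙 ((skyF X x).obj N)) ⊤ trivial _
  rw [← isIso_iff_of_reflects_iso _ (forget _), isIso_iff_bijective]
  exact h2

instance (x : X) : IsIso (stalkSkyAdj X x).counit := by
  have := stalk_sky_counit x
  exact NatIso.isIso_of_isIso_app _

theorem isZero_stalk_sky (x z : X) (hx : IsClosed ({x} : Set X)) (hz : z ≠ x)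
    (N : ModuleCat.{u} (X.presheaf.stalk x)) :
    IsZero ((stalkF X z).obj ((skyF X x).obj N)) := by
  rw [IsZero.iff_id_eq_zero]
  apply stalk_hom_ext
  intro U hzU s
  let V : X.Opens := U ⊓ ⟨{x}ᶜ, hx.isOpen_compl⟩
  have hzV : z ∈ V := ⟨hzU, hz⟩
  have h1 := TopCat.Presheaf.germ_res_apply ((skyF X x).obj N).presheaf
    (homOfLE (inf_le_left : V ≤ U)) z hzV s
  change ((skyF X x).obj N).presheaf.germ U z hzU s = 0
  rw [← h1]
  have h2 : ((skyF X x).obj N).presheaf.map (homOfLE (inf_le_left : V ≤ U)).op s = 0 := by
    funext h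
    exact absurd h.down fun h => h.2 rfl
  rw [h2]
  exact map_zero _

variable (X) in
/-- The derived stalk functor. -/
abbrev stD (x : X) : DerivedCategory X.Modules ⥤
    DerivedCategory (ModuleCat.{u} (X.presheaf.stalk x)) := (stalkF X x).mapDerivedCategory

variable (X) in
/-- The derived skyscraper functor. -/
abbrev skD (x : X) : DerivedCategory (ModuleCat.{u} (X.presheaf.stalk x)) ⥤
    DerivedCategory X.Modules := (skyF X x).mapDerivedCategory

variable (X) in
/-- The derived adjunction. -/
abbrev adjD (x : X) : stD X x ⊣ skD X x := dAdj (stalkSkyAdj X x)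

theorem isZero_of_stD (C : DerivedCategory X.Modules) (h : ∀ x, IsZero ((stD X x).obj C)) :
    IsZero C := by
  rw [isZero_iff_homology]
  intro i
  apply isZero_of_stalk
  intro x
  exact (isZero_mapD_iff (stalkF X x) C).1 (h x) i

theorem isZero_stD_skD (x z : X) (hx : IsClosed ({x} : Set X)) (hz : z ≠ x)
    (N : DerivedCategory (ModuleCat.{u} (X.presheaf.stalk x))) :
    IsZero ((stD X z).obj ((skD X x).obj N)) := by
  rw [isZero_mapD_iff]
  intro i
  obtain ⟨e⟩ := mapD_homology (skyF X x) N i
  exact (isZero_stalk_sky x z hx hz (Hh i N)).of_iso ((stalkF X z).mapIso e)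

/-- An object with vanishing stalks away from a closed point comes from the stalk. -/
theorem isIso_unit_of_supp (x : X) (hx : IsClosed ({x} : Set X)) (C : DerivedCategory X.Modules)
    (hC : ∀ z, z ≠ x → IsZero ((stD X z).obj C)) : IsIso ((adjD X x).unit.app C) := by
  obtain ⟨D, u, v, hT⟩ := distinguished_cocone_triangle ((adjD X x).unit.app C)
  have hD : IsZero D := by
    apply isZero_of_stD
    intro z
    have hT' := (stD X z).map_distinguished _ hT
    by_cases hz : z = x
    · subst hz
      have h1 : IsIso ((stD X z).map ((adjD X z).unit.app C)) := by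
        have h2 := (adjD X z).left_triangle_components C
        have h3 : IsIso ((adjD X z).counit.app ((stD X z).obj C)) := inferInstance
        exact IsIso.of_isIso_fac_right (hh := IsIso.id _) h2
      exact (Triangle.isZero₃_iff_isIso₁ _ hT').2 h1
    · have h1 : IsZero ((stD X z).obj C) := hC z hz
      have h2 : IsZero ((stD X z).obj ((skD X x).obj ((stD X x).obj C))) :=
        isZero_stD_skD x z hx hz _
      exact Triangle.isZero₃_of_isZero₁₂ _ hT' h1 h2
  exact (Triangle.isZero₃_iff_isIso₁ _ hT).1 hD

end

end Pool.Agent.W456
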