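import Mathlib
import Pool.Agent.W456.Geo1
import Pool.Agent.W456.Geo2

set_option autoImplicit false

universe w₁ w₂ u

open CategoryTheory CategoryTheory.Limits AlgebraicGeometry TopologicalSpace Opposite
open Pretriangulated

namespace Pool.Agent.W456

noncomputable section

variable {X Y : Scheme.{u}} (f : X ⟶ Y) [IsOpenImmersion f] (x : X)

/-- The stalk over an open subscheme, as a module over the local ring of the ambient scheme. -/
def sF : X.Modules ⥤ ModuleCat.{u} (Y.presheaf.stalk (f x)) :=
  stalkF X x ⋙ ModuleCat.restrictScalars (f.stalkMap x).hom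

theorem germ_appIso_inv (U : X.Opens) (hx : x ∈ U) (r : Γ(X, U)) :
    (f.stalkMap x).hom (Y.presheaf.germ (f ''ᵁ U) (f x) ⟨x, hx, rfl⟩ ((f.appIso U).inv r)) =
      X.presheaf.germ U x hx r := by
  have h1 := Scheme.Hom.germ_stalkMap_apply f (f ''ᵁ U) x ⟨x, hx, rfl⟩ ((f.appIso U).inv r)
  refine h1.trans ?_
  have h2 := ConcreteCategory.congr_hom (Scheme.Hom.appIso_inv_app f U) r
  rw [ConcreteCategory.comp_apply] at h2
  rw [h2]
  exact TopCat.Presheaf.germ_res_apply ..

theorem stalkMap_bijective : Function.Bijective (f.stalkMap x).hom :=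
  ConcreteCategory.bijective_of_isIso (f.stalkMap x)

/-- The comparison of stalks as an additive equivalence. -/
def alphaAdd (M : Y.Modules) : (stalkF X x).obj ((Scheme.Modules.restrictFunctor f).obj M) ≃+
    (stalkF Y (f x)).obj M :=
  ((Scheme.Modules.restrictStalkNatIso f x).app M).addCommGroupIsoToAddEquiv

theorem alphaAdd_germ (M : Y.Modules) (U : X.Opens) (hx : x ∈ U)
    (s : Γ((Scheme.Modules.restrictFunctor f).obj M, U)) :
    alphaAdd f x M (((Scheme.Modules.restrictFunctor f).obj M).presheaf.germ U x hx s) =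
      M.presheaf.germ (f ''ᵁ U) (f x) ⟨x, hx, rfl⟩ s :=
  ConcreteCategory.congr_hom
    (Scheme.Modules.germ_restrictStalkNatIso_hom_app f x M hx) s

/-- The comparison of stalks is semilinear. -/
theorem alphaAdd_smul (M : Y.Modules) (r : Y.presheaf.stalk (f x))
    (m : (stalkF X x).obj ((Scheme.Modules.restrictFunctor f).obj M)) :
    alphaAdd f x M ((f.stalkMap x).hom r • m) = r • alphaAdd f x M m := by
  obtain ⟨U, hx, r', m', hr, hm⟩ := exists_germ₂ ((Scheme.Modules.restrictFunctor f).obj M) x
    ((f.stalkMap x).hom r) m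
  have h1 : Y.presheaf.germ (f ''ᵁ U) (f x) ⟨x, hx, rfl⟩ ((f.appIso U).inv r') = r := by
    apply (stalkMap_bijective f x).1
    rw [germ_appIso_inv]
    exact hr
  rw [← hr, ← hm, alphaAdd_germ]
  have h2 := germ_smul ((Scheme.Modules.restrictFunctor f).obj M) x U hx r' m'
  refine (congrArg (alphaAdd f x M) h2.symm).trans ?_
  refine (alphaAdd_germ f x M U hx (r' • m')).trans ?_
  have h3 : (r' • m' : Γ((Scheme.Modules.restrictFunctor f).obj M, U)) =
      (((f.appIso U).inv r') • (show Γ(M, f ''ᵁ U) from m') : Γ(M, f ''ᵁ U)) := rfl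
  have h4 := germ_smul M (f x) (f ''ᵁ U) ⟨x, hx, rfl⟩ ((f.appIso U).inv r') m'
  rw [h1] at h4
  exact h4

theorem alphaAdd_nat {M N : Y.Modules} (φ : M ⟶ N)
    (m : (stalkF X x).obj ((Scheme.Modules.restrictFunctor f).obj M)) :
    alphaAdd f x N (((stalkF X x).map ((Scheme.Modules.restrictFunctor f).map φ)).hom m) =
      ((stalkF Y (f x)).map φ).hom (alphaAdd f x M m) :=
  ConcreteCategory.congr_hom ((Scheme.Modules.restrictStalkNatIso f x).hom.naturality φ) m

/-- The comparison of stalks as a linear equivalence. -/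
def alphaLin (M : Y.Modules) :
    ((ModuleCat.restrictScalars (f.stalkMap x).hom).obj
      ((stalkF X x).obj ((Scheme.Modules.restrictFunctor f).obj M)) : Type u) ≃ₗ[Y.presheaf.stalk
        (f x)] (stalkF Y (f x)).obj M where
  toFun := alphaAdd f x M
  invFun := (alphaAdd f x M).symm
  left_inv := (alphaAdd f x M).left_inv
  right_inv := (alphaAdd f x M).right_inv
  map_add' := (alphaAdd f x M).map_add'
  map_smul' := fun r m => alphaAdd_smul f x M r m

/-- Comparison of the stalk functors. -/
def alpha : Scheme.Modules.restrictFunctor f ⋙ sF f x ≅ stalkF Y (f x) :=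
  NatIso.ofComponents (fun M => (alphaLin f x M).toModuleIso) (fun {M N} φ => by
      ext m
      exact alphaAdd_nat f x φ m)

end

end Pool.Agent.W456
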