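import Mathlib
import Pool.Agent.W456.DLoc

set_option autoImplicit false

universe w v u

open CategoryTheory CategoryTheory.Limits Pretriangulated

namespace Pool.Agent.W456

noncomputable section

variable {C : Type u} [Category.{v} C] [Abelian C] [HasDerivedCategory.{w} C]

theorem homologyMap_eq_zero_of_Q {K L : CochainComplex C ℤ} (f : K ⟶ L)
    (h : DerivedCategory.Q.map f = 0) (n : ℤ) : HomologicalComplex.homologyMap f n = 0 := by
  have h1 := DerivedCategory.homologyFunctorFactors_hom_naturality f n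
  rw [h, Functor.map_zero, zero_comp] at h1
  exact (cancel_epi ((DerivedCategory.homologyFunctorFactors C n).hom.app K)).1
    (h1.symm.trans comp_zero.symm)

theorem Q_map_ne_zero {K L : CochainComplex C ℤ} (n : ℤ) (hK : IsZero (K.X (n + 1)))
    (hL : IsZero (L.X (n - 1))) (f : K ⟶ L) (hf : f.f n ≠ 0) : DerivedCategory.Q.map f ≠ 0 := by
  intro h
  apply hf
  have h1 := homologyMap_eq_zero_of_Q f h n
  have h2 : K.homologyπ n ≫ HomologicalComplex.homologyMap f n ≫ L.homologyι n =
      K.iCycles n ≫ f.f n ≫ L.pOpcycles n := by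
    rw [HomologicalComplex.homologyι_naturality, HomologicalComplex.homology_π_ι_assoc,
      HomologicalComplex.p_opcyclesMap]
  rw [h1, zero_comp, comp_zero] at h2
  have i1 : IsIso (K.iCycles n) := K.isIso_iCycles n (n + 1) (by simp) (hK.eq_of_tgt _ _)
  have i2 : IsIso (L.pOpcycles n) := L.isIso_pOpcycles (n - 1) n (by simp) (hL.eq_of_src _ _)
  rw [← cancel_epi (K.iCycles n), ← cancel_mono (L.pOpcycles n), Category.assoc, ← h2,
    comp_zero, zero_comp]

/-- A nonzero map on the extremal cohomology lifts to a nonzero map in the derived category. -/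
theorem exists_ne_zero_of_heart (F G : DerivedCategory C) (n : ℤ)
    (hF : ∀ i, n < i → IsZero (Hh i F)) (hG : ∀ i, i < n → IsZero (Hh i G))
    (α : Hh n F ⟶ Hh n G) (hα : α ≠ 0) : ∃ β : F ⟶ G, β ≠ 0 := by
  have : F.IsLE n := (DerivedCategory.isLE_iff F n).2 hF
  have : G.IsGE n := (DerivedCategory.isGE_iff G n).2 hG
  obtain ⟨K, _, ⟨e⟩⟩ := DerivedCategory.exists_iso_Q_obj_of_isLE F n
  obtain ⟨L, _, ⟨e'⟩⟩ := DerivedCategory.exists_iso_Q_obj_of_isGE G n
  have hK : IsZero (K.X (n + 1)) := K.isZero_of_isStrictlyLE n (n + 1)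
  have hL : IsZero (L.X (n - 1)) := L.isZero_of_isStrictlyGE n (n - 1)
  have i1 : IsIso (K.homologyι n) := K.isIso_homologyι n (n + 1) (by simp) (hK.eq_of_tgt _ _)
  have i2 : IsIso (L.homologyπ n) := L.isIso_homologyπ (n - 1) n (by simp) (hL.eq_of_src _ _)
  let a : K.homology n ⟶ L.homology n :=
    (DerivedCategory.homologyFunctorFactors C n).inv.app K ≫
      (DerivedCategory.homologyFunctor C n).map e.inv ≫ α ≫
      (DerivedCategory.homologyFunctor C n).map e'.hom ≫
      (DerivedCategory.homologyFunctorFactors C n).hom.app L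
  have ha : a ≠ 0 := by
    intro h
    apply hα
    have h2 := (cancel_epi ((DerivedCategory.homologyFunctorFactors C n).inv.app K)).1
      (h.trans comp_zero.symm)
    rw [← cancel_epi ((DerivedCategory.homologyFunctor C n).map e.inv),
      ← cancel_mono ((DerivedCategory.homologyFunctor C n).map e'.hom),
      ← cancel_mono ((DerivedCategory.homologyFunctorFactors C n).hom.app L)]
    simp only [Category.assoc, comp_zero, zero_comp]
    exact h2
  let p : K.X n ⟶ K.homology n := K.pOpcycles n ≫ inv (K.homologyι n)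
  let q : L.homology n ⟶ L.X n := inv (L.homologyπ n) ≫ L.iCycles n
  have hp : ∀ i, (ComplexShape.up ℤ).Rel i n → K.d i n ≫ p ≫ a = 0 := by
    intro i _
    simp only [p, Category.assoc, HomologicalComplex.d_pOpcycles_assoc, zero_comp]
  have hq : ∀ i, (ComplexShape.up ℤ).Rel n i → q ≫ L.d n i = 0 := by
    intro i _
    simp only [q, Category.assoc, HomologicalComplex.iCycles_d, comp_zero]
  let f : K ⟶ L := HomologicalComplex.mkHomToSingle (p ≫ a) hp ≫
    HomologicalComplex.mkHomFromSingle q hq
  have hf : f.f n = p ≫ a ≫ q := by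
    simp only [f, HomologicalComplex.comp_f, HomologicalComplex.mkHomToSingle_f,
      HomologicalComplex.mkHomFromSingle_f, Category.assoc, Iso.inv_hom_id_assoc]
  have hf0 : f.f n ≠ 0 := by
    rw [hf]
    intro h
    apply ha
    rw [← cancel_epi p, ← cancel_mono q, Category.assoc, h, comp_zero, zero_comp]
  refine ⟨e.hom ≫ DerivedCategory.Q.map f ≫ e'.inv, fun h => ?_⟩
  apply Q_map_ne_zero n hK hL f hf0
  rw [← cancel_epi e.hom, ← cancel_mono e'.inv, Category.assoc, h, comp_zero, zero_comp]

end

end Pool.Agent.W456
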