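import Mathlib
import Pool.Agent.W456.DLoc

set_option autoImplicit false

universe w v u

open CategoryTheory CategoryTheory.Limits Pretriangulated

namespace Pool.Agent.W456

noncomputable section

variable {R : Type u} [CommRing R]

/-- The functor `M ↦ M / r M`. -/
def quotF (r : R) : ModuleCat.{u} R ⥤ ModuleCat.{u} R where
  obj M := (M.smulShortComplex r).X₃
  map f := ModuleCat.ofHom (QuotSMulTop.map r f.hom)
  map_id M := by
    ext : 1
    exact QuotSMulTop.map_id r M
  map_comp f g := by
    ext : 1
    exact QuotSMulTop.map_comp r g.hom f.hom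

instance (r : R) : (quotF r).Additive where
  map_add {M N f g} := by
    ext : 1
    exact map_add (QuotSMulTop.map r) f.hom g.hom

/-- The short complex of complexes `K → K → K / r K`. -/
def quotSC (r : R) (K : CochainComplex (ModuleCat.{u} R) ℤ) :
    ShortComplex (CochainComplex (ModuleCat.{u} R) ℤ) :=
  ShortComplex.mk (r • 𝟙 K)
    (X₃ := ((quotF r).mapHomologicalComplex (ComplexShape.up ℤ)).obj K)
    { f := fun i => ((K.X i).smulShortComplex r).g
      comm' := fun i j _ => by
        ext x
        rfl }
    (by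
      ext i : 1
      exact ((K.X i).smulShortComplex r).zero)

theorem quotSC_shortExact (r : R) (K : CochainComplex (ModuleCat.{u} R) ℤ)
    (hK : ∀ i, IsSMulRegular (K.X i) r) : (quotSC r K).ShortExact := by
  apply HomologicalComplex.shortExact_of_degreewise_shortExact
  intro i
  exact (hK i).smulShortComplex_shortExact

variable [HasDerivedCategory.{w} (ModuleCat.{u} R)]

theorem isCone_quot (r : R) (K : CochainComplex (ModuleCat.{u} R) ℤ)
    (hK : ∀ i, IsSMulRegular (K.X i) r) :
    IsCone r (DerivedCategory.Q.obj K)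
      (DerivedCategory.Q.obj (((quotF r).mapHomologicalComplex (ComplexShape.up ℤ)).obj K)) := by
  have h := DerivedCategory.triangleOfSES_distinguished (quotSC_shortExact r K hK)
  have e : DerivedCategory.Q.map (r • 𝟙 K) = r • 𝟙 (DerivedCategory.Q.obj K) := by
    rw [Functor.map_smul, CategoryTheory.Functor.map_id]
  refine ⟨DerivedCategory.Q.map (quotSC r K).g,
    DerivedCategory.triangleOfSESδ (quotSC_shortExact r K hK), ?_⟩
  rw [← e]
  exact h

theorem isZero_HM_Q (K : CochainComplex (ModuleCat.{u} R) ℤ) (i : ℤ) (h : IsZero (K.X i)) :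
    IsZero (HM i (DerivedCategory.Q.obj K)) := by
  refine IsZero.of_iso ?_ ((DerivedCategory.homologyFunctorFactors _ i).app K)
  exact ShortComplex.isZero_homology_of_isZero_X₂ _ h

open RingTheory.Sequence in
theorem phi_vanish (fs : List R) : ∀ (K : CochainComplex (ModuleCat.{u} R) ℤ) (a : ℤ)
    (_ : ∀ i, i < a → IsZero (K.X i)) (_ : ∀ i, IsWeaklyRegular (K.X i) fs)
    {N : DerivedCategory (ModuleCat.{u} R)} (_ : IsPhi fs (DerivedCategory.Q.obj K) N)
    (i : ℤ) (_ : i < a), IsZero (HM i N) := by
  induction fs with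
  | nil =>
    rintro K a hK - N ⟨e⟩ i hi
    exact (isZero_HM_Q K i (hK i hi)).of_iso
      ((DerivedCategory.homologyFunctor _ i).mapIso e.symm)
  | cons r rs ih =>
    rintro K a hK hr N ⟨M', hM', hN⟩ i hi
    simp only [isWeaklyRegular_cons_iff] at hr
    obtain ⟨e⟩ := hM'.unique (isCone_quot r K fun i => (hr i).1)
    refine ih (((quotF r).mapHomologicalComplex (ComplexShape.up ℤ)).obj K) a ?_ ?_
      (hN.of_iso e (Iso.refl _)) i hi
    · intro j hj
      exact Functor.map_isZero (quotF r) (hK j hj)
    · intro j
      exact (hr j).2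

end

end Pool.Agent.W456
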