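import Mathlib

set_option autoImplicit false

universe w v u

open IsLocalRing TensorProduct

namespace Pool.Agent.W456

noncomputable section

variable {R : Type u} [CommRing R] [IsLocalRing R]

theorem exists_not_factor {M N : Type u} [AddCommGroup M] [Module R M] [AddCommGroup N]
    [Module R N] [Module.Finite R M] [Module.Finite R N] [Module.Projective R N]
    (l : M →ₗ[R] N) (h : ¬ ∃ l' : N →ₗ[R] M, l' ∘ₗ l = LinearMap.id) :
    ∃ φ : M →ₗ[R] ResidueField R, ∀ g : N →ₗ[R] ResidueField R, φ ≠ g ∘ₗ l := by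
  by_contra hc
  push Not at hc
  apply h
  have : Module.Free R N := Module.free_of_flat_of_isLocalRing
  rw [IsLocalRing.split_injective_iff_lTensor_residueField_injective]
  rw [injective_iff_map_eq_zero]
  intro v hv
  rw [← Module.forall_dual_apply_eq_zero_iff (ResidueField R)]
  intro lam
  obtain ⟨g, hg⟩ := hc ((lam.restrictScalars R) ∘ₗ (TensorProduct.mk R (ResidueField R) M 1))
  have key : ∀ w : ResidueField R ⊗[R] M, lam w =
      (LinearMap.mul' R (ResidueField R) ∘ₗ g.lTensor (ResidueField R)) (l.lTensor _ w) := by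
    intro w
    induction w with
    | zero => simp
    | add x y hx hy => rw [map_add, map_add, map_add, hx, hy]
    | tmul a m =>
      have h1 : a ⊗ₜ[R] m = a • ((1 : ResidueField R) ⊗ₜ[R] m) := by
        rw [TensorProduct.smul_tmul', smul_eq_mul, mul_one]
      have h2 : lam ((1 : ResidueField R) ⊗ₜ[R] m) = g (l m) := LinearMap.congr_fun hg m
      rw [h1, map_smul, h2]
      simp [TensorProduct.smul_tmul']
  rw [key, hv, map_zero]

theorem exists_lift_residue {M : Type u} [AddCommGroup M] [Module R M] [Module.Projective R M]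
    (φ : M →ₗ[R] ResidueField R) : ∃ ψ : M →ₗ[R] R, (Algebra.linearMap R (ResidueField R)) ∘ₗ ψ = φ :=
  Module.projective_lifting_property _ φ (IsLocalRing.residue_surjective)

theorem exists_ne_zero_to_residue {M : Type u} [AddCommGroup M] [Module R M] [Module.Finite R M]
    [Nontrivial M] : ∃ φ : M →ₗ[R] ResidueField R, φ ≠ 0 := by
  have h1 : Nontrivial (ResidueField R ⊗[R] M) := by
    by_contra hc
    rw [not_nontrivial_iff_subsingleton, IsLocalRing.subsingleton_tensorProduct] at hc
    exact not_subsingleton M hc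
  obtain ⟨v, hv⟩ := exists_ne (0 : ResidueField R ⊗[R] M)
  obtain ⟨lam, hlam⟩ : ∃ lam : Module.Dual (ResidueField R) (ResidueField R ⊗[R] M),
      lam v ≠ 0 := by
    by_contra hc
    push Not at hc
    exact hv ((Module.forall_dual_apply_eq_zero_iff (ResidueField R) v).1 hc)
  refine ⟨(lam.restrictScalars R) ∘ₗ (TensorProduct.mk R (ResidueField R) M 1), fun h0 => ?_⟩
  apply hlam
  have key : ∀ w : ResidueField R ⊗[R] M, lam w = 0 := by
    intro w
    induction w with
    | zero => simp
    | add x y hx hy => rw [map_add, hx, hy, add_zero]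
    | tmul a m =>
      have h1 : a ⊗ₜ[R] m = a • ((1 : ResidueField R) ⊗ₜ[R] m) := by
        rw [TensorProduct.smul_tmul', smul_eq_mul, mul_one]
      have h2 : lam ((1 : ResidueField R) ⊗ₜ[R] m) = 0 := LinearMap.congr_fun h0 m
      rw [h1, map_smul, h2, smul_zero]
  exact key v

/-- A finite nonzero module over a noetherian local ring maps nontrivially to any nonzero module
on which enough elements act locally nilpotently. -/
theorem exists_ne_zero_of_nil [IsNoetherianRing R] {M N : Type u} [AddCommGroup M] [Module R M]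
    [AddCommGroup N] [Module R N] [Module.Finite R M] [Nontrivial M] [Nontrivial N]
    (fs : List R) (hfs : ∀ p : Ideal R, p.IsPrime → (∀ f ∈ fs, f ∈ p) → p = maximalIdeal R)
    (hnil : ∀ f ∈ fs, ∀ x : N, ∃ n : ℕ, f ^ n • x = 0) :
    ∃ φ : M →ₗ[R] N, φ ≠ 0 := by
  obtain ⟨p, hp⟩ := associatedPrimes.nonempty R N
  have hp' : IsAssociatedPrime p N := hp
  rw [isAssociatedPrime_iff_exists_injective_linearMap] at hp'
  obtain ⟨hprime, g, hg⟩ := hp'
  have hpm : p = maximalIdeal R := by
    apply hfs p hprime
    intro f hf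
    obtain ⟨n, hn⟩ := hnil f hf (g 1)
    rw [← map_smul] at hn
    have h1 := (injective_iff_map_eq_zero g).1 hg _ hn
    have h2 : (Ideal.Quotient.mk p) (f ^ n) = 0 := by
      have : (f ^ n • (1 : R ⧸ p)) = (Ideal.Quotient.mk p) (f ^ n) := by
        rw [← Ideal.Quotient.algebraMap_eq, Algebra.algebraMap_eq_smul_one]
      rw [← this, h1]
    exact hprime.mem_of_pow_mem n ((Ideal.Quotient.eq_zero_iff_mem).1 h2)
  subst hpm
  obtain ⟨φ, hφ⟩ := exists_ne_zero_to_residue (R := R) (M := M)
  refine ⟨g ∘ₗ φ, fun h => hφ ?_⟩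
  ext m
  apply hg
  have := LinearMap.congr_fun h m
  exact this.trans (map_zero g).symm

end

end Pool.Agent.W456
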