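import Mathlib
import Pool.Agent.W456.Loc1
import Pool.Agent.W456.Loc2
import Pool.Agent.W456.Heart

set_option autoImplicit false

universe w v u

open CategoryTheory CategoryTheory.Limits Pretriangulated

namespace Pool.Agent.W456

noncomputable section

section

variable {C : Type u} [Category.{v} C] [Abelian C] [HasDerivedCategory.{w} C]

/-- Cohomology of a shift. -/
def HhShift (F : DerivedCategory C) (m i j : ℤ) (h : m + i = j) : Hh i (F⟦m⟧) ≅ Hh j F :=
  ((DerivedCategory.homologyFunctor C 0).shiftIso m i j h).app F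

theorem homotopy_zero_of_Q_zero {K L : CochainComplex C ℤ} [K.IsKProjective] (f : K ⟶ L)
    (h : DerivedCategory.Q.map f = 0) : Nonempty (Homotopy f 0) := by
  rw [← HomotopyCategory.quotient_map_eq_zero_iff]
  apply (CochainComplex.IsKProjective.Qh_map_bijective K _).injective
  rw [Functor.map_zero]
  have h1 := DerivedCategory.quotientCompQhIso_hom_naturality f
  rw [h, comp_zero] at h1
  exact (cancel_mono ((DerivedCategory.quotientCompQhIso C).hom.app L)).1
    (h1.trans zero_comp.symm)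

theorem factor_of_Q_zero {K : CochainComplex C ℤ} [K.IsKProjective] {A : C} (a : ℤ)
    (φ : K.X a ⟶ A) (hφ : ∀ i, (ComplexShape.up ℤ).Rel i a → K.d i a ≫ φ = 0)
    (h : DerivedCategory.Q.map (HomologicalComplex.mkHomToSingle φ hφ) = 0) :
    ∃ g : K.X (a + 1) ⟶ A, φ = K.d a (a + 1) ≫ g := by
  obtain ⟨t⟩ := homotopy_zero_of_Q_zero _ h
  have h1 := t.comm a
  rw [HomologicalComplex.mkHomToSingle_f, HomologicalComplex.zero_f, add_zero,
    dNext_eq _ (show (ComplexShape.up ℤ).Rel a (a + 1) from rfl),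
    prevD_eq _ (show (ComplexShape.up ℤ).Rel (a - 1) a by simp)] at h1
  have h2 : ((HomologicalComplex.single C (ComplexShape.up ℤ) a).obj A).d (a - 1) a = 0 :=
    (HomologicalComplex.isZero_single_obj_X (ComplexShape.up ℤ) a A (a - 1) (by lia)).eq_of_src _ _
  rw [h2, comp_zero, add_zero] at h1
  refine ⟨t.hom (a + 1) a ≫ (HomologicalComplex.singleObjXSelf (ComplexShape.up ℤ) a A).hom, ?_⟩
  rw [← Category.assoc, ← h1, Category.assoc, Iso.inv_hom_id, Category.comp_id]

end

section Tri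

variable {T : Type*} [Category* T] [Preadditive T] [HasZeroObject T] [HasShift T ℤ]
  [∀ n : ℤ, (shiftFunctor T n).Additive] [Pretriangulated T]
  {R : Type*} [CommRing R] [Linear R T]

theorem psi_augment (rs : List R) : ∀ {A B Ψ : T} (_ : IsPsi rs A Ψ) (π : A ⟶ B)
    (_ : ∀ r ∈ rs, r • 𝟙 B = 0), ∃ (i : A ⟶ Ψ) (s : Ψ ⟶ B), i ≫ s = π := by
  induction rs with
  | nil =>
    rintro A B Ψ ⟨e⟩ π -
    exact ⟨e.hom, e.inv ≫ π, by rw [Iso.hom_inv_id_assoc]⟩
  | cons r rs ih =>
    rintro A B Ψ ⟨Ψ', hΨ', ⟨u, v, hc⟩⟩ π hB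
    obtain ⟨i', s', h'⟩ := ih hΨ' π (fun r hr => hB r (List.mem_cons_of_mem _ hr))
    obtain ⟨(s : Ψ ⟶ B), hs⟩ := Triangle.yoneda_exact₂ _ hc s' (by
      change (r • 𝟙 Ψ') ≫ s' = 0
      rw [Linear.smul_comp, Category.id_comp, ← Category.comp_id s', ← Linear.comp_smul,
        hB r (List.mem_cons_self ..), comp_zero])
    change s' = u ≫ s at hs
    exact ⟨i' ≫ u, s, by rw [Category.assoc, ← hs, h']⟩

end Tri

section Local

variable {R : Type u} [CommRing R] [HasDerivedCategory.{w} (ModuleCat.{u} R)]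

theorem isZero_of_iso_HM {F G : DerivedCategory (ModuleCat.{u} R)} (e : F ≅ G) (i : ℤ)
    (h : IsZero (HM i F)) : IsZero (HM i G) :=
  h.of_iso ((DerivedCategory.homologyFunctor _ i).mapIso e.symm)

theorem NilOn.shift {r : R} {F : DerivedCategory (ModuleCat.{u} R)} (h : NilOn r F) (m : ℤ) :
    NilOn r (F⟦m⟧) := by
  intro i x
  let l := (HhShift F m i (m + i) rfl).toLinearEquiv
  obtain ⟨n, hn⟩ := h (m + i) (l x)
  refine ⟨n, ?_⟩
  apply l.injective
  rw [map_smul, hn, map_zero]

theorem socle_map [IsLocalRing R] [IsNoetherianRing R] (fs : List R)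
    (hfs : ∀ p : Ideal R, p.IsPrime → (∀ f ∈ fs, f ∈ p) → p = IsLocalRing.maximalIdeal R)
    {F G : DerivedCategory (ModuleCat.{u} R)} (n : ℤ)
    (hF : ∀ i, n < i → IsZero (HM i F)) (hG : ∀ i, i < n → IsZero (HM i G))
    (hfin : Module.Finite R (HM n F)) (hFn : ¬ IsZero (HM n F)) (hGn : ¬ IsZero (HM n G))
    (hnil : ∀ f ∈ fs, NilOn f G) : ∃ β : F ⟶ G, β ≠ 0 := by
  have h1 : Nontrivial (HM n F) := by
    rw [← not_subsingleton_iff_nontrivial]
    intro h
    exact hFn (ModuleCat.isZero_of_subsingleton _)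
  have h2 : Nontrivial (HM n G) := by
    rw [← not_subsingleton_iff_nontrivial]
    intro h
    exact hGn (ModuleCat.isZero_of_subsingleton _)
  obtain ⟨φ, hφ⟩ := exists_ne_zero_of_nil (M := HM n F) (N := HM n G) fs hfs
    (fun f hf x => hnil f hf n x)
  refine exists_ne_zero_of_heart F G n hF hG (ModuleCat.ofHom φ) (fun h => hφ ?_)
  exact congrArg ModuleCat.Hom.hom h

/-- The free module of rank one, as an object of the derived category. -/
abbrev oneD (R : Type u) [CommRing R] [HasDerivedCategory.{w} (ModuleCat.{u} R)] :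
    DerivedCategory (ModuleCat.{u} R) :=
  (DerivedCategory.singleFunctor (ModuleCat.{u} R) 0).obj (ModuleCat.of R R)

theorem psi_nonzero_map [IsLocalRing R] (fs : List R)
    (hfs : ∀ f ∈ fs, f ∈ IsLocalRing.maximalIdeal R) {Ψ : DerivedCategory (ModuleCat.{u} R)}
    (hΨ : IsPsi fs (oneD R) Ψ) (P : CochainComplex (ModuleCat.{u} R) ℤ) (a b : ℤ)
    (hfin : ∀ i, Module.Finite R (P.X i)) (hproj : ∀ i, Module.Projective R (P.X i))
    (ha : ∀ i, i < a → IsZero (P.X i)) (hb : ∀ i, b < i → IsZero (P.X i))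
    (hd : ¬ ∃ l : P.X (a + 1) ⟶ P.X a, P.d a (a + 1) ≫ l = 𝟙 _) :
    ∃ β : DerivedCategory.Q.obj P ⟶ Ψ⟦-a⟧, β ≠ 0 := by
  have : P.IsStrictlyLE b := by
    rw [CochainComplex.isStrictlyLE_iff]
    exact hb
  have hP : ∀ i, Projective (P.X i) := fun i =>
    (IsProjective.iff_projective (P.X i)).1 (hproj i)
  have hK : P.IsKProjective := CochainComplex.isKProjective_of_projective P b
  obtain ⟨φ, hφ⟩ := exists_not_factor (P.d a (a + 1)).hom (by
    rintro ⟨l, hl⟩
    exact hd ⟨ModuleCat.ofHom l, by ext : 1; exact hl⟩)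
  obtain ⟨ψ, hψ⟩ := exists_lift_residue φ
  let κ : ModuleCat.{u} R := ModuleCat.of R (IsLocalRing.ResidueField R)
  let π : ModuleCat.of R R ⟶ κ := ModuleCat.ofHom (Algebra.linearMap R _)
  obtain ⟨i, s, his⟩ := psi_augment fs hΨ ((DerivedCategory.singleFunctor _ 0).map π) (by
    intro r hr
    have h1 : r • 𝟙 κ = 0 := by
      ext x
      change r • x = 0
      obtain ⟨y, rfl⟩ := IsLocalRing.residue_surjective x
      rw [Algebra.smul_def]
      have : (algebraMap R (IsLocalRing.ResidueField R)) r = 0 :=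
        (IsLocalRing.residue_eq_zero_iff r).2 (hfs r hr)
      rw [this, zero_mul]
    rw [← CategoryTheory.Functor.map_id, ← Functor.map_smul, h1, Functor.map_zero])
  have hz : ∀ (j : ℤ) {A : ModuleCat.{u} R} (g : P.X a ⟶ A),
      (ComplexShape.up ℤ).Rel j a → P.d j a ≫ g = 0 := by
    intro j A g hj
    have : j < a := by
      change j + 1 = a at hj
      lia
    exact (ha j this).eq_of_src _ _
  let p : P ⟶ (HomologicalComplex.single (ModuleCat.{u} R) (ComplexShape.up ℤ) a).obj
      (ModuleCat.of R R) :=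
    HomologicalComplex.mkHomToSingle (ModuleCat.ofHom ψ) (fun j hj => hz j _ hj)
  have hpπ : p ≫ (HomologicalComplex.single (ModuleCat.{u} R) (ComplexShape.up ℤ) a).map π =
      HomologicalComplex.mkHomToSingle (ModuleCat.ofHom φ) (fun j hj => hz j _ hj) := by
    apply HomologicalComplex.to_single_hom_ext
    rw [HomologicalComplex.comp_f, HomologicalComplex.mkHomToSingle_f,
      HomologicalComplex.mkHomToSingle_f, HomologicalComplex.single_map_f_self]
    rw [Category.assoc, Iso.inv_hom_id_assoc, ← Category.assoc]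
    congr 1
    ext : 1
    exact hψ
  let σ := (DerivedCategory.singleFunctors (ModuleCat.{u} R)).shiftIso (-a) a 0 (by simp)
  let p' : DerivedCategory.Q.obj P ⟶
    (DerivedCategory.singleFunctor (ModuleCat.{u} R) a).obj (ModuleCat.of R R) :=
    DerivedCategory.Q.map p
  refine ⟨p' ≫ σ.inv.app _ ≫ (shiftFunctor _ (-a)).map i, fun h0 => ?_⟩
  have h1 : p' ≫ (DerivedCategory.singleFunctor (ModuleCat.{u} R) a).map π = 0 := by
    have h2 := σ.inv.naturality π
    have h3 : (shiftFunctor (DerivedCategory (ModuleCat.{u} R)) (-a)).map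
        ((DerivedCategory.singleFunctor (ModuleCat.{u} R) 0).map π) =
        (shiftFunctor _ (-a)).map i ≫ (shiftFunctor _ (-a)).map s := by
      rw [← Functor.map_comp, his]
    rw [Functor.comp_map, h3] at h2
    have h4 : (DerivedCategory.singleFunctor (ModuleCat.{u} R) a).map π ≫ σ.inv.app κ =
      σ.inv.app _ ≫ (shiftFunctor _ (-a)).map i ≫ (shiftFunctor _ (-a)).map s := h2
    rw [← cancel_mono (σ.inv.app κ), Category.assoc, h4, zero_comp, ← Category.assoc,
      ← Category.assoc]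
    rw [Category.assoc p', h0, zero_comp]
  have h5 : DerivedCategory.Q.map (HomologicalComplex.mkHomToSingle (ModuleCat.ofHom φ)
      (fun j hj => hz j _ hj)) = 0 := by
    rw [← hpπ, Functor.map_comp]
    exact h1
  obtain ⟨g, hg⟩ := factor_of_Q_zero a _ _ h5
  refine hφ g.hom ?_
  exact congrArg ModuleCat.Hom.hom hg

end Local

end

end Pool.Agent.W456
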