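import Mathlib
import Pool.Agent.W456.Loc3

set_option autoImplicit false

universe w v u

open CategoryTheory CategoryTheory.Limits Pretriangulated

namespace Pool.Agent.W456

noncomputable section

variable {R : Type u} [CommRing R]

/-- Bounded complexes of finite projective modules, in degrees between `a` and `b`. -/
structure PerfIn (P : CochainComplex (ModuleCat.{u} R) ℤ) (a b : ℤ) : Prop where
  fin : ∀ i, Module.Finite R (P.X i)
  proj : ∀ i, Module.Projective R (P.X i)
  ge : ∀ i, i < a → IsZero (P.X i)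
  le : ∀ i, b < i → IsZero (P.X i)

theorem finite_of_isZero {M : ModuleCat.{u} R} (h : IsZero M) : Module.Finite R M := by
  have := ModuleCat.subsingleton_of_isZero h
  infer_instance

theorem proj_of_isZero {M : ModuleCat.{u} R} (h : IsZero M) : Module.Projective R M := by
  have := ModuleCat.subsingleton_of_isZero h
  exact Module.Projective.of_free

theorem finite_of_iso {M N : ModuleCat.{u} R} (e : M ≅ N) (h : Module.Finite R M) :
    Module.Finite R N := Module.Finite.equiv e.toLinearEquiv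

theorem proj_of_iso {M N : ModuleCat.{u} R} (e : M ≅ N) (h : Module.Projective R M) :
    Module.Projective R N := Module.Projective.of_equiv e.toLinearEquiv

theorem PerfIn.trunc {P : CochainComplex (ModuleCat.{u} R) ℤ} {a b : ℤ} (h : PerfIn P a b)
    (l : P.X (a + 1) ⟶ P.X a) (hl : P.d a (a + 1) ≫ l = 𝟙 _) :
    PerfIn (P.truncGE (a + 1)) (a + 1) b ∧ QuasiIso (P.πTruncGE (a + 1)) := by
  have hge : P.IsGE (a + 1) := by
    rw [CochainComplex.isGE_iff]
    intro i hi
    rcases lt_or_eq_of_le (Int.lt_add_one_iff.1 hi) with hi | rfl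
    · exact ShortComplex.exact_of_isZero_X₂ _ (h.ge i hi)
    · have hm : Mono (P.d i (i + 1)) := mono_of_mono_fac hl
      rw [HomologicalComplex.exactAt_iff' P (i - 1) i (i + 1) (by simp) (by simp)]
      rw [ShortComplex.exact_iff_mono _ ((h.ge (i - 1) (by lia)).eq_of_src _ _)]
      exact hm
  -- the opcycles are a retract
  let s : P.opcycles (a + 1) ⟶ P.X (a + 1) :=
    P.descOpcycles (𝟙 _ - l ≫ P.d a (a + 1)) a (by simp) (by
      rw [Preadditive.comp_sub, Category.comp_id, ← Category.assoc, hl, Category.id_comp, sub_self])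
  have hs : s ≫ P.pOpcycles (a + 1) = 𝟙 _ := by
    rw [← cancel_epi (P.pOpcycles (a + 1)), HomologicalComplex.p_descOpcycles_assoc,
      Preadditive.sub_comp, Category.id_comp, Category.assoc, HomologicalComplex.d_pOpcycles,
      comp_zero, sub_zero, Category.comp_id]
  have hfin : Module.Finite R (P.opcycles (a + 1)) := by
    have := h.fin (a + 1)
    refine Module.Finite.of_surjective (P.pOpcycles (a + 1)).hom ?_
    exact (ModuleCat.epi_iff_surjective _).1 inferInstance
  have hproj : Module.Projective R (P.opcycles (a + 1)) := by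
    have := h.proj (a + 1)
    exact Module.Projective.of_split s.hom (P.pOpcycles (a + 1)).hom
      (congrArg ModuleCat.Hom.hom hs)
  have hz : ∀ i, i < a + 1 → IsZero ((P.truncGE (a + 1)).X i) := fun i hi =>
    (P.truncGE (a + 1)).isZero_of_isStrictlyGE (a + 1) i hi
  refine ⟨⟨fun i => ?_, fun i => ?_, hz, fun i hi => ?_⟩, inferInstance⟩
  · rcases lt_trichotomy i (a + 1) with hi | rfl | hi
    · exact finite_of_isZero (hz i hi)
    · exact finite_of_iso (P.truncGEXIsoOpcycles (a + 1)).symm hfin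
    · exact finite_of_iso (P.truncGEXIso (a + 1) i hi).symm (h.fin i)
  · rcases lt_trichotomy i (a + 1) with hi | rfl | hi
    · exact proj_of_isZero (hz i hi)
    · exact proj_of_iso (P.truncGEXIsoOpcycles (a + 1)).symm hproj
    · exact proj_of_iso (P.truncGEXIso (a + 1) i hi).symm (h.proj i)
  · rcases lt_trichotomy i (a + 1) with hi' | rfl | hi'
    · exact hz i hi'
    · refine IsZero.of_iso ?_ (P.truncGEXIsoOpcycles (a + 1))
      exact IsZero.of_epi (P.pOpcycles (a + 1)) (h.le _ hi)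
    · exact (h.le i hi).of_iso (P.truncGEXIso (a + 1) i hi')

variable [HasDerivedCategory.{w} (ModuleCat.{u} R)]

theorem exists_min_aux (F : DerivedCategory (ModuleCat.{u} R)) (hF : ¬ IsZero F) (b : ℤ) :
    ∀ (n : ℕ) (a : ℤ) (_ : b - a < n) (P : CochainComplex (ModuleCat.{u} R) ℤ)
      (_ : PerfIn P a b) (_ : F ≅ DerivedCategory.Q.obj P),
      ∃ (a' : ℤ) (P' : CochainComplex (ModuleCat.{u} R) ℤ), PerfIn P' a' b ∧
        Nonempty (F ≅ DerivedCategory.Q.obj P') ∧
        ¬ ∃ l : P'.X (a' + 1) ⟶ P'.X a', P'.d a' (a' + 1) ≫ l = 𝟙 _ := by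
  intro n
  induction n with
  | zero =>
    intro a ha P hP e
    exfalso
    apply hF
    refine IsZero.of_iso ?_ e
    rw [IsZero.iff_id_eq_zero, ← CategoryTheory.Functor.map_id]
    have : 𝟙 P = 0 := by
      ext i : 1
      rcases lt_or_ge i a with hi | hi
      · exact (hP.ge i hi).eq_of_src _ _
      · exact (hP.le i (by push_cast at ha; lia)).eq_of_src _ _
    rw [this, Functor.map_zero]
  | succ n ih =>
    intro a ha P hP e
    by_cases hd : ∃ l : P.X (a + 1) ⟶ P.X a, P.d a (a + 1) ≫ l = 𝟙 _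
    · obtain ⟨l, hl⟩ := hd
      obtain ⟨h1, h2⟩ := hP.trunc l hl
      exact ih (a + 1) (by push_cast at ha; lia) _ h1
        (e ≪≫ asIso (DerivedCategory.Q.map (P.πTruncGE (a + 1))))
    · exact ⟨a, P, hP, ⟨e⟩, hd⟩

theorem exists_min (F : DerivedCategory (ModuleCat.{u} R)) (hF : ¬ IsZero F) (a b : ℤ)
    (P : CochainComplex (ModuleCat.{u} R) ℤ) (hP : PerfIn P a b)
    (e : F ≅ DerivedCategory.Q.obj P) :
      ∃ (a' : ℤ) (P' : CochainComplex (ModuleCat.{u} R) ℤ), PerfIn P' a' b ∧
        Nonempty (F ≅ DerivedCategory.Q.obj P') ∧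
        ¬ ∃ l : P'.X (a' + 1) ⟶ P'.X a', P'.d a' (a' + 1) ≫ l = 𝟙 _ :=
  exists_min_aux F hF b ((b - a).toNat + 1) a (by lia) P hP e

omit [HasDerivedCategory.{w} (ModuleCat.{u} R)] in
open RingTheory.Sequence in
theorem isWeaklyRegular_of_projective (fs : List R) (hfs : IsWeaklyRegular R fs) (M : Type u)
    [AddCommGroup M] [Module R M] [Module.Projective R M] : IsWeaklyRegular M fs := by
  have h := IsWeaklyRegular.isWeaklyRegular_lTensor (M₂ := M) hfs
  exact (LinearEquiv.isWeaklyRegular_congr (TensorProduct.rid R M) fs).1 h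

/-- The local statement behind the lower bound. -/
theorem local_lower [IsLocalRing R] (fs : List R)
    (hreg : RingTheory.Sequence.IsWeaklyRegular R fs)
    (hfs : ∀ f ∈ fs, f ∈ IsLocalRing.maximalIdeal R) {Ψ : DerivedCategory (ModuleCat.{u} R)}
    (hΨ : IsPsi fs (oneD R) Ψ) (F : DerivedCategory (ModuleCat.{u} R)) (hF : ¬ IsZero F)
    (a b : ℤ) (P : CochainComplex (ModuleCat.{u} R) ℤ) (hP : PerfIn P a b)
    (e : F ≅ DerivedCategory.Q.obj P) :
    ∃ a' : ℤ, (∃ β : F ⟶ Ψ⟦-a'⟧, β ≠ 0) ∧
      ∀ (N : DerivedCategory (ModuleCat.{u} R)) (_ : IsPhi fs F N) (i : ℤ),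
        i < a' → IsZero (HM i N) := by
  obtain ⟨a', P', hP', ⟨e'⟩, hd⟩ := exists_min F hF a b P hP e
  refine ⟨a', ?_, ?_⟩
  · obtain ⟨β, hβ⟩ := psi_nonzero_map fs hfs hΨ P' a' b hP'.fin hP'.proj hP'.ge hP'.le hd
    refine ⟨e'.hom ≫ β, fun h => hβ ?_⟩
    rw [← cancel_epi e'.hom, h, comp_zero]
  · intro N hN i hi
    refine phi_vanish fs P' a' hP'.ge (fun j => ?_) (hN.of_iso e' (Iso.refl _)) i hi
    have := hP'.proj j
    exact isWeaklyRegular_of_projective fs hreg (P'.X j)

end

end Pool.Agent.W456
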