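import Mathlib
import Pool.Agent.W456.Loc4

set_option autoImplicit false

universe w v u

open CategoryTheory CategoryTheory.Limits Pretriangulated

namespace Pool.Agent.W456

noncomputable section

variable {R : Type u} [CommRing R]

theorem isNoetherian_homology [IsNoetherianRing R] (P : CochainComplex (ModuleCat.{u} R) ℤ) (i : ℤ)
    (h : Module.Finite R (P.X i)) : IsNoetherian R (P.homology i) := by
  have h0 : IsNoetherian R (P.X i) := isNoetherian_of_isNoetherianRing_of_finite R _
  have h1 : IsNoetherian R (P.cycles i) :=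
    isNoetherian_of_injective (P.iCycles i).hom
      ((ModuleCat.mono_iff_injective _).1 inferInstance)
  exact isNoetherian_of_surjective (P.homologyπ i).hom
    (LinearMap.range_eq_top.2 ((ModuleCat.epi_iff_surjective _).1 inferInstance))

variable [HasDerivedCategory.{w} (ModuleCat.{u} R)]

theorem isNoetherian_HM [IsNoetherianRing R] {F : DerivedCategory (ModuleCat.{u} R)}
    {P : CochainComplex (ModuleCat.{u} R) ℤ} {a b : ℤ} (hP : PerfIn P a b)
    (e : F ≅ DerivedCategory.Q.obj P) (i : ℤ) : IsNoetherian R (HM i F) := by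
  have : IsNoetherian R ((HomologicalComplex.homologyFunctor (ModuleCat.{u} R)
    (ComplexShape.up ℤ) i).obj P) := isNoetherian_homology P i (hP.fin i)
  exact isNoetherian_of_linearEquiv ((DerivedCategory.homologyFunctor _ i).mapIso e ≪≫
    (DerivedCategory.homologyFunctorFactors _ i).app P).symm.toLinearEquiv

theorem isZero_HM_oneD (i : ℤ) (hi : i ≠ 0) : IsZero (HM i (oneD R)) := by
  refine isZero_HM_Q _ i ?_
  exact HomologicalComplex.isZero_single_obj_X (ComplexShape.up ℤ) 0 _ i hi

omit [HasDerivedCategory.{w} (ModuleCat.{u} R)] in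
theorem perfIn_single : PerfIn ((HomologicalComplex.single (ModuleCat.{u} R)
    (ComplexShape.up ℤ) 0).obj (ModuleCat.of R R)) 0 0 where
  fin i := by
    by_cases h : i = 0
    · subst h
      exact finite_of_iso (HomologicalComplex.singleObjXSelf (ComplexShape.up ℤ) 0
        (ModuleCat.of R R)).symm (inferInstanceAs (Module.Finite R R))
    · exact finite_of_isZero (HomologicalComplex.isZero_single_obj_X _ _ _ i h)
  proj i := by
    by_cases h : i = 0
    · subst h
      exact proj_of_iso (HomologicalComplex.singleObjXSelf (ComplexShape.up ℤ) 0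
        (ModuleCat.of R R)).symm (inferInstanceAs (Module.Projective R R))
    · exact proj_of_isZero (HomologicalComplex.isZero_single_obj_X _ _ _ i h)
  ge i hi := HomologicalComplex.isZero_single_obj_X _ _ _ i (by lia)
  le i hi := HomologicalComplex.isZero_single_obj_X _ _ _ i (by lia)

theorem psi_not_isZero [IsLocalRing R] (fs : List R)
    (hfs : ∀ f ∈ fs, f ∈ IsLocalRing.maximalIdeal R) {Ψ : DerivedCategory (ModuleCat.{u} R)}
    (hΨ : IsPsi fs (oneD R) Ψ) : ¬ IsZero Ψ := by
  intro hz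
  obtain ⟨β, hβ⟩ := psi_nonzero_map fs hfs hΨ _ 0 0 perfIn_single.fin perfIn_single.proj
    perfIn_single.ge perfIn_single.le (by
      rintro ⟨l, hl⟩
      have h1 : IsZero (((HomologicalComplex.single (ModuleCat.{u} R)
        (ComplexShape.up ℤ) 0).obj (ModuleCat.of R R)).X (0 + 1)) :=
        perfIn_single.le _ (by lia)
      rw [h1.eq_of_src l 0, comp_zero] at hl
      have h2 : IsZero (((HomologicalComplex.single (ModuleCat.{u} R)
        (ComplexShape.up ℤ) 0).obj (ModuleCat.of R R)).X 0) := by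
        rw [IsZero.iff_id_eq_zero]
        exact hl.symm
      have h3 : IsZero (ModuleCat.of R R) := h2.of_iso
        (HomologicalComplex.singleObjXSelf (ComplexShape.up ℤ) 0 (ModuleCat.of R R)).symm
      have h4 : Subsingleton R := ModuleCat.subsingleton_of_isZero h3
      exact not_subsingleton R h4)
  exact hβ ((Functor.map_isZero _ hz).eq_of_tgt _ _)

theorem exists_top (F : DerivedCategory (ModuleCat.{u} R)) (hF : ¬ IsZero F) (b : ℤ)
    (hb : ∀ i, b < i → IsZero (HM i F)) :
    ∃ n, n ≤ b ∧ ¬ IsZero (HM n F) ∧ ∀ i, n < i → IsZero (HM i F) := by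
  obtain ⟨i, hi⟩ : ∃ i, ¬ IsZero (HM i F) := by
    by_contra hc
    push Not at hc
    exact hF ((isZero_iff_homology F).2 hc)
  obtain ⟨n, hn, hmax⟩ := Int.exists_greatest_of_bdd (P := fun i => ¬ IsZero (HM i F))
    ⟨b, fun z hz => by
      by_contra hc
      exact hz (hb z (not_le.1 hc))⟩ ⟨i, hi⟩
  refine ⟨n, ?_, hn, fun j hj => ?_⟩
  · by_contra hc
    exact hn (hb n (not_le.1 hc))
  · by_contra hc
    exact absurd (hmax j hc) (not_le.2 hj)

theorem exists_bot (F : DerivedCategory (ModuleCat.{u} R)) (hF : ¬ IsZero F) (a : ℤ)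
    (ha : ∀ i, i < a → IsZero (HM i F)) :
    ∃ n, ¬ IsZero (HM n F) ∧ ∀ i, i < n → IsZero (HM i F) := by
  obtain ⟨i, hi⟩ : ∃ i, ¬ IsZero (HM i F) := by
    by_contra hc
    push Not at hc
    exact hF ((isZero_iff_homology F).2 hc)
  obtain ⟨n, hn, hmin⟩ := Int.exists_least_of_bdd (P := fun i => ¬ IsZero (HM i F))
    ⟨a, fun z hz => by
      by_contra hc
      exact hz (ha z (not_le.1 hc))⟩ ⟨i, hi⟩
  refine ⟨n, hn, fun j hj => ?_⟩
  by_contra hc
  exact absurd (hmin j hc) (not_le.2 hj)

/-- The local statement behind the upper bound. -/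
theorem local_upper [IsLocalRing R] [IsNoetherianRing R] (fs : List R)
    (hmem : ∀ f ∈ fs, f ∈ IsLocalRing.maximalIdeal R)
    (hfs : ∀ p : Ideal R, p.IsPrime → (∀ f ∈ fs, f ∈ p) → p = IsLocalRing.maximalIdeal R)
    {Ψ : DerivedCategory (ModuleCat.{u} R)}
    (hΨ : IsPsi fs (oneD R) Ψ) (F : DerivedCategory (ModuleCat.{u} R)) (hF : ¬ IsZero F)
    (a b : ℤ) (P : CochainComplex (ModuleCat.{u} R) ℤ) (hP : PerfIn P a b)
    (e : F ≅ DerivedCategory.Q.obj P) :
    ∃ j : ℤ, (∃ β : F ⟶ Ψ⟦j⟧, β ≠ 0) ∧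
      ∀ (N : DerivedCategory (ModuleCat.{u} R)) (_ : IsPhi fs F N) (i : ℤ),
        (fs.length : ℤ) - j < i → IsZero (HM (i - fs.length) N) := by
  obtain ⟨n, -, hn, hn'⟩ := exists_top F hF b (fun i hi =>
    isZero_of_iso_HM e.symm i (isZero_HM_Q P i (hP.le i hi)))
  have hΨ0 := psi_not_isZero fs hmem hΨ
  obtain ⟨c, hc, hc'⟩ := exists_bot Ψ hΨ0 (0 - fs.length)
    (hΨ.ge 0 (fun i hi => isZero_HM_oneD i (by lia)))
  have hc0 : c ≤ 0 := by
    by_contra h
    exact hc (hΨ.le 0 (fun i hi => isZero_HM_oneD i (by lia)) c (not_le.1 h))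
  have hfin : Module.Finite R (HM n F) := by
    have := isNoetherian_HM hP e n
    infer_instance
  refine ⟨c - n, ?_, ?_⟩
  · refine socle_map fs hfs n hn' ?_ hfin hn ?_ ?_
    · intro i hi
      exact (hc' (c - n + i) (by lia)).of_iso (HhShift Ψ (c - n) i (c - n + i) rfl)
    · intro h
      exact hc (h.of_iso (HhShift Ψ (c - n) n c (by lia)).symm)
    · intro f hf
      exact (hΨ.nilOn f hf).shift _
  · intro N hN i hi
    exact hN.le n hn' _ (by lia)

end

end Pool.Agent.W456
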