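import Mathlib
import Pool.Agent.W456.Geo3
import Pool.Agent.W456.DGen
import Pool.Agent.W456.Loc5

set_option autoImplicit false

universe w₁ w₂ u

open CategoryTheory CategoryTheory.Limits AlgebraicGeometry TopologicalSpace Opposite
open Pretriangulated

namespace Pool.Agent.W456

noncomputable section

section Ring

variable {R S : Type u} [CommRing R] [CommRing S] (φ : R →+* S) (hφ : Function.Bijective φ)

include hφ

theorem finite_restrictScalars (M : ModuleCat.{u} S) (h : Module.Finite S M) :
    Module.Finite R ((ModuleCat.restrictScalars φ).obj M) := by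
  let e : R ≃+* S := RingEquiv.ofBijective φ hφ
  let _ : RingHomInvPair (e : R →+* S) (e.symm : S →+* R) := RingHomInvPair.of_ringEquiv e
  let _ : RingHomInvPair (e.symm : S →+* R) (e : R →+* S) := RingHomInvPair.symm _ _
  have : RingHomSurjective (e.symm : S →+* R) := ⟨e.symm.surjective⟩
  let l : M →ₛₗ[(e.symm : S →+* R)] ((ModuleCat.restrictScalars φ).obj M) :=
    { toFun := fun m => m
      map_add' := fun _ _ => rfl
      map_smul' := fun s m => by
        change s • m = φ (e.symm s) • m
        have : φ (e.symm s) = s := e.apply_symm_apply s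
        rw [this] }
  exact Module.Finite.of_surjective l (fun m => ⟨m, rfl⟩)

theorem proj_restrictScalars (M : ModuleCat.{u} S) (h : Module.Projective S M) :
    Module.Projective R ((ModuleCat.restrictScalars φ).obj M) := by
  have h1 : Projective M := (IsProjective.iff_projective M).1 h
  have h2 : (ModuleCat.restrictScalars φ).IsEquivalence :=
    ModuleCat.restrictScalars_isEquivalence_of_ringEquiv (RingEquiv.ofBijective φ hφ)
  have h3 : Projective ((ModuleCat.restrictScalars φ).obj M) :=
    ((ModuleCat.restrictScalars φ).asEquivalence.map_projective_iff M).2 h1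
  exact (IsProjective.iff_projective _).2 h3

/-- Restricting the regular module along an isomorphism. -/
def unitRestrict : (ModuleCat.restrictScalars φ).obj (ModuleCat.of S S) ≅ ModuleCat.of R R :=
  let e : R ≃+* S := RingEquiv.ofBijective φ hφ
  (show ((ModuleCat.restrictScalars φ).obj (ModuleCat.of S S) : Type u) ≃ₗ[R] R from
    { toFun := fun s => e.symm s
      invFun := fun r => e r
      left_inv := fun s => e.apply_symm_apply s
      right_inv := fun r => e.symm_apply_apply r
      map_add' := fun a b => map_add e.symm a b
      map_smul' := fun r s => by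
        have h : e.symm (φ r * (show S from s)) = r * e.symm (show S from s) := by
          rw [map_mul]
          congr 1
          exact e.symm_apply_apply r
        exact h }).toModuleIso

end Ring

variable {X Y : Scheme.{u}} (f : X ⟶ Y) [IsOpenImmersion f] (x : X)

instance : (sF f x).Additive := inferInstanceAs
  ((stalkF X x ⋙ ModuleCat.restrictScalars (f.stalkMap x).hom).Additive)

instance : PreservesFiniteLimits (sF f x) := inferInstanceAs
  (PreservesFiniteLimits (stalkF X x ⋙ ModuleCat.restrictScalars (f.stalkMap x).hom))

instance : PreservesFiniteColimits (sF f x) := inferInstanceAs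
  (PreservesFiniteColimits (stalkF X x ⋙ ModuleCat.restrictScalars (f.stalkMap x).hom))

/-- The germ of a function on an open subscheme, in the local ring of the ambient scheme. -/
def gx : Γ(X, ⊤) →+* Y.presheaf.stalk (f x) :=
  (RingEquiv.ofBijective (f.stalkMap x).hom (stalkMap_bijective f x)).symm.toRingHom.comp
    (germTop x)

theorem stalkMap_gx (g : Γ(X, ⊤)) : (f.stalkMap x).hom (gx f x g) = germTop x g :=
  (RingEquiv.ofBijective (f.stalkMap x).hom (stalkMap_bijective f x)).apply_symm_apply _

theorem sF_smul (g : Γ(X, ⊤)) (M : X.Modules) :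
    (sF f x).map (g • 𝟙 M) = gx f x g • 𝟙 ((sF f x).obj M) := by
  have h : (sF f x).map (g • 𝟙 M) = (ModuleCat.restrictScalars (f.stalkMap x).hom).map
    (germTop x g • 𝟙 ((stalkF X x).obj M)) := by
    rw [← stalkF_smul]
    rfl
  rw [h]
  ext m
  change germTop x g • (show (stalkF X x).obj M from m) =
    (f.stalkMap x).hom (gx f x g) • (show (stalkF X x).obj M from m)
  rw [stalkMap_gx]

/-- The stalk of the structure sheaf. -/
def sFUnit : (sF f x).obj (unitMod X) ≅
    ModuleCat.of (Y.presheaf.stalk (f x)) (Y.presheaf.stalk (f x)) :=
  (ModuleCat.restrictScalars (f.stalkMap x).hom).mapIso (stalkUnit x).symm ≪≫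
    unitRestrict _ (stalkMap_bijective f x)

end

end Pool.Agent.W456
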