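import Mathlib
import Pool.Agent.W456.ExtZero
import Pool.Agent.W456.UnitMod

set_option autoImplicit false

/-!
Perfect complexes on a scheme, as a full subcategory of the derived category of all modules
over the structure sheaf.
-/

universe u

open CategoryTheory CategoryTheory.Limits AlgebraicGeometry

namespace Pool.Agent.W456

noncomputable section

attribute [local instance] HasDerivedCategory.standard Abelian.hasFiniteBiproducts

/-- A module over the structure sheaf is finite locally free if every point has an open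
neighbourhood over which it is isomorphic to a finite direct sum of copies of the structure
sheaf. -/
def IsFiniteLocallyFree {X : Scheme.{u}} (M : X.Modules) : Prop :=
  ∀ x : X, ∃ U : X.Opens, x ∈ U ∧ ∃ n : ℕ,
    Nonempty ((Scheme.Modules.restrictFunctor U.ι).obj M ≅
      ⨁ fun _ : Fin n => unitMod U.toScheme)

/-- Bounded complexes of finite locally free modules. -/
def IsStrictlyPerfect {X : Scheme.{u}} (K : CochainComplex X.Modules ℤ) : Prop :=
  (∃ a b : ℤ, ∀ i : ℤ, i < a ∨ b < i → IsZero (K.X i)) ∧ ∀ i : ℤ, IsFiniteLocallyFree (K.X i)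

/-- An object of the derived category of modules is perfect if it is locally isomorphic, in the
derived category, to a bounded complex of finite locally free modules. -/
def isPerfect (X : Scheme.{u}) : ObjectProperty (DerivedCategory X.Modules) := fun E =>
  ∀ x : X, ∃ U : X.Opens, x ∈ U ∧ ∃ K : CochainComplex U.toScheme.Modules ℤ,
    IsStrictlyPerfect K ∧
    Nonempty ((Scheme.Modules.restrictFunctor U.ι).mapDerivedCategory.obj E ≅
      DerivedCategory.Q.obj K)

/-- The category of perfect complexes. -/
abbrev Dpf (X : Scheme.{u}) := (isPerfect X).FullSubcategory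

/-! ### Stability under shifts -/

theorem IsStrictlyPerfect.shift {X : Scheme.{u}} {K : CochainComplex X.Modules ℤ}
    (h : IsStrictlyPerfect K) (n : ℤ) : IsStrictlyPerfect (K⟦n⟧) := by
  obtain ⟨⟨a, b, hab⟩, hK⟩ := h
  refine ⟨⟨a - n, b - n, fun i hi => ?_⟩, fun i => ?_⟩
  · exact hab (i + n) (by lia)
  · exact hK (i + n)

theorem isPerfect_shift {X : Scheme.{u}} (E : DerivedCategory X.Modules) (hE : isPerfect X E)
    (n : ℤ) : isPerfect X (E⟦n⟧) := by
  intro x
  obtain ⟨U, hx, K, hK, ⟨e⟩⟩ := hE x
  refine ⟨U, hx, K⟦n⟧, hK.shift n, ⟨?_⟩⟩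
  exact ((Scheme.Modules.restrictFunctor U.ι).mapDerivedCategory.commShiftIso n).app E ≪≫
    (shiftFunctor _ n).mapIso e ≪≫ (DerivedCategory.Q.commShiftIso n).symm.app K

theorem isPerfect_of_iso {X : Scheme.{u}} {E F : DerivedCategory X.Modules} (e : E ≅ F)
    (hE : isPerfect X E) : isPerfect X F := by
  intro x
  obtain ⟨U, hx, K, hK, ⟨i⟩⟩ := hE x
  exact ⟨U, hx, K, hK, ⟨(Scheme.Modules.restrictFunctor U.ι).mapDerivedCategory.mapIso e.symm ≪≫
    i⟩⟩

instance (X : Scheme.{u}) : (isPerfect X).IsStableUnderShift ℤ where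
  isStableUnderShiftBy n := ⟨fun E hE => isPerfect_shift E hE n⟩

instance (X : Scheme.{u}) : (isPerfect X).IsClosedUnderIsomorphisms where
  of_iso e h := isPerfect_of_iso e h

example (X : Scheme.{u}) : HasShift (Dpf X) ℤ := inferInstance

end

end Pool.Agent.W456
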