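import Mathlib
import Pool.Agent.W456.Geo4
import Pool.Agent.W456.PerfDef

set_option autoImplicit false

universe w₁ w₂ u

open CategoryTheory CategoryTheory.Limits AlgebraicGeometry TopologicalSpace Opposite
open Pretriangulated

namespace Pool.Agent.W456

noncomputable section

attribute [local instance] HasDerivedCategory.standard Abelian.hasFiniteBiproducts

/-- Finite free modules. -/
def IsFF {X : Scheme.{u}} (M : X.Modules) : Prop :=
  ∃ n : ℕ, Nonempty (M ≅ ⨁ fun _ : Fin n => unitMod X)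

/-- Bounded complexes of finite free modules. -/
def IsBFF {X : Scheme.{u}} (K : CochainComplex X.Modules ℤ) : Prop :=
  (∃ a b : ℤ, ∀ i : ℤ, i < a ∨ b < i → IsZero (K.X i)) ∧ ∀ i : ℤ, IsFF (K.X i)

theorem isFF_of_isZero {X : Scheme.{u}} {M : X.Modules} (h : IsZero M) : IsFF M := by
  refine ⟨0, ⟨h.iso ?_⟩⟩
  rw [IsZero.iff_id_eq_zero]
  ext i
  exact i.elim0

theorem IsFF.of_iso {X : Scheme.{u}} {M N : X.Modules} (h : IsFF M) (e : M ≅ N) : IsFF N := by
  obtain ⟨n, ⟨i⟩⟩ := h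
  exact ⟨n, ⟨e.symm ≪≫ i⟩⟩

theorem IsFF.restrict {X Y : Scheme.{u}} (f : X ⟶ Y) [IsOpenImmersion f] {M : Y.Modules}
    (h : IsFF M) : IsFF ((Scheme.Modules.restrictFunctor f).obj M) := by
  obtain ⟨n, ⟨i⟩⟩ := h
  refine ⟨n, ⟨(Scheme.Modules.restrictFunctor f).mapIso i ≪≫
    (Scheme.Modules.restrictFunctor f).mapBiproduct _ ≪≫
    biproduct.mapIso (fun _ => Scheme.Modules.restrictUnitIso f)⟩⟩

theorem isFF_restrict_of_le {X : Scheme.{u}} {M : X.Modules} {U W : X.Opens} (h : W ≤ U)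
    (hM : IsFF ((Scheme.Modules.restrictFunctor U.ι).obj M)) :
    IsFF ((Scheme.Modules.restrictFunctor W.ι).obj M) := by
  have h1 : X.homOfLE h ≫ U.ι = W.ι := X.homOfLE_ι h
  exact (hM.restrict (X.homOfLE h)).of_iso
    ((Scheme.Modules.restrictFunctorComp (X.homOfLE h) U.ι).symm.app M ≪≫
      (Scheme.Modules.restrictFunctorCongr h1).app M)

theorem IsStrictlyPerfect.exists_free {X : Scheme.{u}} {K : CochainComplex X.Modules ℤ}
    (hK : IsStrictlyPerfect K) (x : X) : ∃ U : X.Opens, x ∈ U ∧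
      IsBFF (((Scheme.Modules.restrictFunctor U.ι).mapHomologicalComplex _).obj K) := by
  obtain ⟨⟨a, b, hab⟩, hfree⟩ := hK
  choose V hxV n e using fun i => hfree i x
  refine ⟨(Finset.Icc a b).inf V, ?_, ⟨a, b, fun i hi => ?_⟩, fun i => ?_⟩
  · rw [← SetLike.mem_coe, Opens.coe_finset_inf]
    simp only [Finset.inf_set_eq_iInter, Set.mem_iInter]
    intro i _
    exact hxV i
  · exact Functor.map_isZero (Scheme.Modules.restrictFunctor _) (hab i hi)
  · by_cases hi : i < a ∨ b < i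
    · exact isFF_of_isZero (Functor.map_isZero (Scheme.Modules.restrictFunctor _) (hab i hi))
    · push Not at hi
      exact isFF_restrict_of_le (Finset.inf_le (Finset.mem_Icc.2 hi)) ⟨n i, e i⟩

theorem isPerfect.exists_free {X : Scheme.{u}} {E : DerivedCategory X.Modules}
    (hE : isPerfect X E) (x : X) : ∃ (W : Scheme.{u}) (g : W ⟶ X) (_ : IsOpenImmersion g) (w : W)
      (_ : g w = x) (K : CochainComplex W.Modules ℤ), IsBFF K ∧
      Nonempty ((Scheme.Modules.restrictFunctor g).mapDerivedCategory.obj E ≅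
        DerivedCategory.Q.obj K) := by
  obtain ⟨U, hx, K, hK, ⟨e⟩⟩ := hE x
  obtain ⟨V, hV, hKV⟩ := hK.exists_free ⟨x, hx⟩
  refine ⟨V.toScheme, V.ι ≫ U.ι, inferInstance, ⟨⟨x, hx⟩, hV⟩, rfl, _, hKV, ?_⟩
  obtain ⟨i⟩ := mapD_comp (Scheme.Modules.restrictFunctor U.ι) (Scheme.Modules.restrictFunctor V.ι)
    (Scheme.Modules.restrictFunctor (V.ι ≫ U.ι)) (Scheme.Modules.restrictFunctorComp V.ι U.ι).symm E
  exact ⟨i.symm ≪≫ (Scheme.Modules.restrictFunctor V.ι).mapDerivedCategory.mapIso e ≪≫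
    (Scheme.Modules.restrictFunctor V.ι).mapDerivedCategoryFactors.app K⟩

/-! ### Stalks of perfect complexes -/

theorem finProj_sF_unit {X Y : Scheme.{u}} (f : X ⟶ Y) [IsOpenImmersion f] (x : X) (n : ℕ) :
    Module.Finite (Y.presheaf.stalk (f x)) ((sF f x).obj (⨁ fun _ : Fin n => unitMod X)) ∧
    Module.Projective (Y.presheaf.stalk (f x)) ((sF f x).obj (⨁ fun _ : Fin n => unitMod X)) := by
  let e : (sF f x).obj (⨁ fun _ : Fin n => unitMod X) ≅
      ModuleCat.of (Y.presheaf.stalk (f x)) (Fin n → Y.presheaf.stalk (f x)) :=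
    (sF f x).mapBiproduct _ ≪≫ biproduct.mapIso (fun _ => sFUnit f x) ≪≫
      ModuleCat.biproductIsoPi (fun _ : Fin n => ModuleCat.of (Y.presheaf.stalk (f x))
        (Y.presheaf.stalk (f x)))
  exact ⟨finite_of_iso e.symm (inferInstanceAs (Module.Finite (Y.presheaf.stalk (f x))
      (Fin n → Y.presheaf.stalk (f x)))),
    proj_of_iso e.symm (inferInstanceAs (Module.Projective (Y.presheaf.stalk (f x))
      (Fin n → Y.presheaf.stalk (f x))))⟩

theorem IsBFF.perfIn {X Y : Scheme.{u}} (f : X ⟶ Y) [IsOpenImmersion f] (x : X)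
    {K : CochainComplex X.Modules ℤ} (hK : IsBFF K) :
    ∃ a b, PerfIn (((sF f x).mapHomologicalComplex (ComplexShape.up ℤ)).obj K) a b := by
  obtain ⟨⟨a, b, hab⟩, hfree⟩ := hK
  refine ⟨a, b, fun i => ?_, fun i => ?_, fun i hi => ?_, fun i hi => ?_⟩
  · obtain ⟨n, ⟨e⟩⟩ := hfree i
    exact finite_of_iso ((sF f x).mapIso e.symm) (finProj_sF_unit f x n).1
  · obtain ⟨n, ⟨e⟩⟩ := hfree i
    exact proj_of_iso ((sF f x).mapIso e.symm) (finProj_sF_unit f x n).2
  · exact Functor.map_isZero (sF f x) (hab i (Or.inl hi))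
  · exact Functor.map_isZero (sF f x) (hab i (Or.inr hi))

/-- The stalk of an object, computed on an open subscheme. -/
theorem stD_iso {X Y : Scheme.{u}} (f : X ⟶ Y) [IsOpenImmersion f] (x : X)
    (E : DerivedCategory Y.Modules) :
    Nonempty ((sF f x).mapDerivedCategory.obj
      ((Scheme.Modules.restrictFunctor f).mapDerivedCategory.obj E) ≅ (stD Y (f x)).obj E) :=
  mapD_comp _ _ _ (alpha f x) E

theorem isPerfect.stalk {X : Scheme.{u}} {E : DerivedCategory X.Modules}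
    (hE : isPerfect X E) (x : X) :
    ∃ (P : CochainComplex (ModuleCat.{u} (X.presheaf.stalk x)) ℤ) (a b : ℤ), PerfIn P a b ∧
      Nonempty ((stD X x).obj E ≅ DerivedCategory.Q.obj P) := by
  obtain ⟨W, g, _, w, rfl, K, hK, ⟨e⟩⟩ := hE.exists_free x
  obtain ⟨a, b, hP⟩ := hK.perfIn g w
  obtain ⟨i⟩ := stD_iso g w E
  exact ⟨_, a, b, hP, ⟨i.symm ≪≫ (sF g w).mapDerivedCategory.mapIso e ≪≫
    (sF g w).mapDerivedCategoryFactors.app K⟩⟩

end

end Pool.Agent.W456
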