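import Mathlib
import Pool.Agent.W456.Geo5

set_option autoImplicit false

universe w₁ w₂ u

open CategoryTheory CategoryTheory.Limits AlgebraicGeometry TopologicalSpace Opposite
open Pretriangulated

namespace Pool.Agent.W456

noncomputable section

attribute [local instance] HasDerivedCategory.standard Abelian.hasFiniteBiproducts

variable {X : Scheme.{u}} {w v : X} (h : v ⤳ w)

/-- The specialization map on local rings. -/
abbrev spR : X.presheaf.stalk w →+* X.presheaf.stalk v := (X.presheaf.stalkSpecializes h).hom

theorem spR_germ (U : X.Opens) (hw : w ∈ U) (r : Γ(X, U)) :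
    spR h (X.presheaf.germ U w hw r) = X.presheaf.germ U v (h.mem_open U.isOpen hw) r :=
  ConcreteCategory.congr_hom (TopCat.Presheaf.germ_stalkSpecializes X.presheaf hw h) r

/-- The specialization map on stalks of a module. -/
def spAdd (M : X.Modules) : (stalkF X w).obj M →+ (stalkF X v).obj M :=
  (TopCat.Presheaf.stalkSpecializes (C := Ab.{u}) M.presheaf h).hom

theorem spAdd_germ (M : X.Modules) (U : X.Opens) (hw : w ∈ U) (s : Γ(M, U)) :
    spAdd h M (M.presheaf.germ U w hw s) = M.presheaf.germ U v (h.mem_open U.isOpen hw) s :=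
  ConcreteCategory.congr_hom (TopCat.Presheaf.germ_stalkSpecializes M.presheaf hw h) s

theorem spAdd_smul (M : X.Modules) (r : X.presheaf.stalk w) (m : (stalkF X w).obj M) :
    spAdd h M (r • m) = spR h r • spAdd h M m := by
  obtain ⟨U, hx, r, m, rfl, rfl⟩ := exists_germ₂ M w r m
  have h1 := germ_smul M w U hx r m
  have h2 := germ_smul M v U (h.mem_open U.isOpen hx) r m
  refine (congrArg (spAdd h M) h1.symm).trans ((spAdd_germ h M U hx _).trans ?_)
  rw [spR_germ, spAdd_germ]
  exact h2

/-- The specialization maps as a natural transformation. -/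
def spT : stalkF X w ⟶ stalkF X v ⋙ ModuleCat.restrictScalars (spR h) where
  app M := ModuleCat.ofHom (Y := (ModuleCat.restrictScalars (spR h)).obj ((stalkF X v).obj M))
    { toFun := fun m => spAdd h M m
      map_add' := fun a b => map_add _ _ _
      map_smul' := fun r m => spAdd_smul h M r m }
  naturality M N f := by
    apply stalk_hom_ext
    intro U hx s
    change spAdd h N (stalkLin f w (M.presheaf.germ U w hx s)) =
      stalkLin f v (spAdd h M (M.presheaf.germ U w hx s))
    rw [stalkLin_germ, spAdd_germ]
    erw [spAdd_germ, stalkLin_germ]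

theorem spT_apply (M : X.Modules) (m : (stalkF X w).obj M) :
    ((spT h).app M).hom m = spAdd h M m := rfl

theorem spAdd_one : spAdd h (unitMod X) (oneGerm w) = oneGerm v := by
  exact spAdd_germ h (unitMod X) ⊤ trivial (oneSec ⊤)

/-- The comparison of extension of scalars with the stalk at a generization. -/
def theta : stalkF X w ⋙ ModuleCat.extendScalars (spR h) ⟶ stalkF X v :=
  Functor.whiskerRight (spT h) _ ≫
    Functor.whiskerLeft (stalkF X v) (ModuleCat.extendRestrictScalarsAdj (spR h)).counit

theorem homEquiv_theta (M : X.Modules) {N : ModuleCat.{u} (X.presheaf.stalk v)}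
    (g : (stalkF X v).obj M ⟶ N) :
    (ModuleCat.extendRestrictScalarsAdj (spR h)).homEquiv _ _ ((theta h).app M ≫ g) =
      (spT h).app M ≫ (ModuleCat.restrictScalars (spR h)).map g := by
  have h1 : (theta h).app M = (ModuleCat.extendScalars (spR h)).map ((spT h).app M) ≫
      (ModuleCat.extendRestrictScalarsAdj (spR h)).counit.app ((stalkF X v).obj M) := rfl
  rw [h1, Category.assoc, Adjunction.homEquiv_naturality_left, Adjunction.homEquiv_unit,
    Functor.map_comp]
  congr 1
  exact Adjunction.right_triangle_components_assoc (ModuleCat.extendRestrictScalarsAdj (spR h))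
    ((stalkF X v).obj M) _

theorem exists_smul_oneGerm (x : X) (m : (stalkF X x).obj (unitMod X)) :
    ∃ r : X.presheaf.stalk x, r • oneGerm x = m := exists_smul_one x m

theorem hom_ext_oneGerm (x : X) {A : ModuleCat.{u} (X.presheaf.stalk x)}
    (f g : (stalkF X x).obj (unitMod X) ⟶ A) (hfg : f.hom (oneGerm x) = g.hom (oneGerm x)) :
    f = g := by
  ext m
  obtain ⟨r, rfl⟩ := exists_smul_oneGerm x m
  exact (map_smul f.hom r (oneGerm x)).trans
    ((congrArg (fun t => r • t) hfg).trans (map_smul g.hom r (oneGerm x)).symm)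

theorem exists_hom_oneGerm (x : X) (A : ModuleCat.{u} (X.presheaf.stalk x)) (n : A) :
    ∃ g : (stalkF X x).obj (unitMod X) ⟶ A, g.hom (oneGerm x) = n := by
  have h6 : (stalkUnitLin x).symm (oneGerm x) = 1 := by
    rw [← stalkUnitLin_one, LinearEquiv.symm_apply_apply]
  let l : X.presheaf.stalk x →ₗ[X.presheaf.stalk x] A :=
    LinearMap.toSpanSingleton (X.presheaf.stalk x) A n
  refine ⟨ModuleCat.ofHom (l ∘ₗ (stalkUnitLin x).symm.toLinearMap), ?_⟩
  have h7 : (ModuleCat.ofHom (l ∘ₗ (stalkUnitLin x).symm.toLinearMap)).hom (oneGerm x) =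
      l ((stalkUnitLin x).symm (oneGerm x)) := rfl
  exact h7.trans ((congrArg l h6).trans (one_smul _ n))

theorem spT_one {N : ModuleCat.{u} (X.presheaf.stalk v)}
    (g : (stalkF X v).obj (unitMod X) ⟶ N) :
    ((spT h).app (unitMod X) ≫ (ModuleCat.restrictScalars (spR h)).map g).hom (oneGerm w) =
      g.hom (oneGerm v) := by
  change g.hom (spAdd h (unitMod X) (oneGerm w)) = _
  rw [spAdd_one]

theorem isIso_theta_unit : IsIso ((theta h).app (unitMod X)) := by
  rw [isIso_iff_coyoneda_map_bijective]
  intro N
  have h1 : Function.Bijective (fun g : (stalkF X v).obj (unitMod X) ⟶ N =>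
      (spT h).app (unitMod X) ≫ (ModuleCat.restrictScalars (spR h)).map g) := by
    constructor
    · intro g g' hg
      apply hom_ext_oneGerm
      rw [← spT_one h g, ← spT_one h g']
      exact ConcreteCategory.congr_hom hg (oneGerm w)
    · intro k
      obtain ⟨g, hg⟩ := exists_hom_oneGerm v N (k.hom (oneGerm w))
      refine ⟨g, ?_⟩
      apply hom_ext_oneGerm
      exact (spT_one h g).trans hg
  have h2 : (fun g : (stalkF X v).obj (unitMod X) ⟶ N =>
      (ModuleCat.extendRestrictScalarsAdj (spR h)).homEquiv _ _ ((theta h).app (unitMod X) ≫ g)) =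
      (fun g : (stalkF X v).obj (unitMod X) ⟶ N =>
      (spT h).app (unitMod X) ≫ (ModuleCat.restrictScalars (spR h)).map g) := by
    funext g
    exact homEquiv_theta h _ g
  rw [← h2] at h1
  exact (Function.Bijective.of_comp_iff'
    ((ModuleCat.extendRestrictScalarsAdj (spR h)).homEquiv _ _).bijective _).1 h1

end

end Pool.Agent.W456
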