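import Mathlib
import Pool.Agent.W456.Geo6

set_option autoImplicit false

universe w₁ w₂ u

open CategoryTheory CategoryTheory.Limits AlgebraicGeometry TopologicalSpace Opposite
open Pretriangulated

namespace Pool.Agent.W456

noncomputable section

attribute [local instance] HasDerivedCategory.standard Abelian.hasFiniteBiproducts

section Nat

universe v₁ v₂ u₁ u₂

variable {A : Type u₁} [Category.{v₁} A] [Abelian A] {B : Type u₂} [Category.{v₂} B] [Abelian B]
  {F G : A ⥤ B} [F.Additive] [G.Additive] (θ : F ⟶ G)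

omit [F.Additive] [G.Additive] [Abelian A] [Abelian B] in
theorem isIso_app_of_iso {M N : A} (e : M ≅ N) (h : IsIso (θ.app M)) : IsIso (θ.app N) :=
  (NatTrans.isIso_app_iff_of_iso θ e).1 h

theorem isIso_app_biproduct {n : ℕ} (M : Fin n → A) (h : ∀ i, IsIso (θ.app (M i))) :
    IsIso (θ.app (⨁ M)) := by
  classical
  refine ⟨∑ j, G.map (biproduct.π M j) ≫ inv (θ.app (M j)) ≫ F.map (biproduct.ι M j), ?_, ?_⟩
  · rw [Preadditive.comp_sum]
    have h1 : ∀ j, θ.app (⨁ M) ≫ G.map (biproduct.π M j) ≫ inv (θ.app (M j)) ≫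
        F.map (biproduct.ι M j) = F.map (biproduct.π M j ≫ biproduct.ι M j) := by
      intro j
      rw [← θ.naturality_assoc, IsIso.hom_inv_id_assoc, Functor.map_comp]
    rw [Finset.sum_congr rfl (fun j _ => h1 j), ← Functor.map_sum, biproduct.total,
      CategoryTheory.Functor.map_id]
  · rw [Preadditive.sum_comp]
    have h1 : ∀ j, (G.map (biproduct.π M j) ≫ inv (θ.app (M j)) ≫
        F.map (biproduct.ι M j)) ≫ θ.app (⨁ M) = G.map (biproduct.π M j ≫ biproduct.ι M j) := by
      intro j
      rw [Category.assoc, Category.assoc, θ.naturality, IsIso.inv_hom_id_assoc, Functor.map_comp]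
    rw [Finset.sum_congr rfl (fun j _ => h1 j), ← Functor.map_sum, biproduct.total,
      CategoryTheory.Functor.map_id]

theorem isIso_mapHC (K : CochainComplex A ℤ) (h : ∀ i, IsIso (θ.app (K.X i))) :
    IsIso ((NatTrans.mapHomologicalComplex θ (ComplexShape.up ℤ)).app K) := by
  have : ∀ i, IsIso (((NatTrans.mapHomologicalComplex θ (ComplexShape.up ℤ)).app K).f i) := h
  exact HomologicalComplex.Hom.isIso_of_components _

end Nat

instance (R S : Type u) [CommRing R] [CommRing S] (φ : R →+* S) :
    (ModuleCat.extendScalars.{u, u, u} φ).Additive :=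
  have := preservesBinaryBiproducts_of_preservesBinaryCoproducts (ModuleCat.extendScalars.{u, u, u} φ)
  Functor.additive_of_preservesBinaryBiproducts _

/-- Acyclic bounded complexes of projective modules stay acyclic under extension of scalars. -/
theorem isZero_extend {R S : Type u} [CommRing R] [CommRing S] (φ : R →+* S)
    (P : CochainComplex (ModuleCat.{u} R) ℤ) (a b : ℤ) (hP : PerfIn P a b)
    (h : IsZero (DerivedCategory.Q.obj P)) :
    IsZero (DerivedCategory.Q.obj (((ModuleCat.extendScalars.{u, u, u}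
      φ).mapHomologicalComplex (ComplexShape.up ℤ)).obj P)) := by
  have : P.IsStrictlyLE b := by
    rw [CochainComplex.isStrictlyLE_iff]
    exact hP.le
  have hp : ∀ i, Projective (P.X i) := fun i =>
    (IsProjective.iff_projective (P.X i)).1 (hP.proj i)
  have hK : P.IsKProjective := CochainComplex.isKProjective_of_projective P b
  obtain ⟨t⟩ := homotopy_zero_of_Q_zero (𝟙 P) (h.eq_of_src _ _)
  have t' := (ModuleCat.extendScalars.{u, u, u} φ).mapHomotopy t
  rw [IsZero.iff_id_eq_zero]
  have h1 := DerivedCategory.Q_map_eq_of_homotopy (C := ModuleCat.{u} S) t'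
  rw [CategoryTheory.Functor.map_id, CategoryTheory.Functor.map_id, Functor.map_zero,
    Functor.map_zero] at h1
  exact h1

variable {X : Scheme.{u}} {w v : X} (h : v ⤳ w)

theorem isIso_theta_of_isFF {M : X.Modules} (hM : IsFF M) : IsIso ((theta h).app M) := by
  obtain ⟨n, ⟨e⟩⟩ := hM
  refine isIso_app_of_iso (theta h) e.symm ?_
  exact isIso_app_biproduct (theta h) _ (fun _ => isIso_theta_unit h)

omit h in
theorem finProj_stalk_unit (x : X) (n : ℕ) :
    Module.Finite (X.presheaf.stalk x) ((stalkF X x).obj (⨁ fun _ : Fin n => unitMod X)) ∧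
    Module.Projective (X.presheaf.stalk x) ((stalkF X x).obj (⨁ fun _ : Fin n => unitMod X)) := by
  let e : (stalkF X x).obj (⨁ fun _ : Fin n => unitMod X) ≅
      ModuleCat.of (X.presheaf.stalk x) (Fin n → X.presheaf.stalk x) :=
    (stalkF X x).mapBiproduct _ ≪≫ biproduct.mapIso (fun _ => (stalkUnit x).symm) ≪≫
      ModuleCat.biproductIsoPi (fun _ : Fin n => ModuleCat.of (X.presheaf.stalk x)
        (X.presheaf.stalk x))
  exact ⟨finite_of_iso e.symm (inferInstanceAs (Module.Finite (X.presheaf.stalk x)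
      (Fin n → X.presheaf.stalk x))),
    proj_of_iso e.symm (inferInstanceAs (Module.Projective (X.presheaf.stalk x)
      (Fin n → X.presheaf.stalk x)))⟩

omit h in
theorem IsBFF.perfIn_stalk (x : X)
    {K : CochainComplex X.Modules ℤ} (hK : IsBFF K) :
    ∃ a b, PerfIn (((stalkF X x).mapHomologicalComplex (ComplexShape.up ℤ)).obj K) a b := by
  obtain ⟨⟨a, b, hab⟩, hfree⟩ := hK
  refine ⟨a, b, fun i => ?_, fun i => ?_, fun i hi => ?_, fun i hi => ?_⟩
  · obtain ⟨n, ⟨e⟩⟩ := hfree i
    exact finite_of_iso ((stalkF X x).mapIso e.symm) (finProj_stalk_unit x n).1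
  · obtain ⟨n, ⟨e⟩⟩ := hfree i
    exact proj_of_iso ((stalkF X x).mapIso e.symm) (finProj_stalk_unit x n).2
  · exact Functor.map_isZero (stalkF X x) (hab i (Or.inl hi))
  · exact Functor.map_isZero (stalkF X x) (hab i (Or.inr hi))

include h in
theorem isZero_stD_of_specializes (K : CochainComplex X.Modules ℤ) (hK : IsBFF K)
    (h0 : IsZero ((stD X w).obj (DerivedCategory.Q.obj K))) :
    IsZero ((stD X v).obj (DerivedCategory.Q.obj K)) := by
  have h1 : IsZero (DerivedCategory.Q.obj
      (((stalkF X w).mapHomologicalComplex (ComplexShape.up ℤ)).obj K)) :=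
    h0.of_iso ((stalkF X w).mapDerivedCategoryFactors.symm.app K)
  obtain ⟨a, b, hP⟩ := hK.perfIn_stalk w
  have h2 := isZero_extend (spR h) _ a b hP h1
  have h3 : IsIso ((NatTrans.mapHomologicalComplex (theta h) (ComplexShape.up ℤ)).app K) :=
    isIso_mapHC (theta h) K (fun i => isIso_theta_of_isFF h (hK.2 i))
  have h4 : IsZero (DerivedCategory.Q.obj
      (((stalkF X v).mapHomologicalComplex (ComplexShape.up ℤ)).obj K)) :=
    h2.of_iso (DerivedCategory.Q.mapIso (asIso
      ((NatTrans.mapHomologicalComplex (theta h) (ComplexShape.up ℤ)).app K))).symm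
  exact h4.of_iso ((stalkF X v).mapDerivedCategoryFactors.app K)

omit h in
/-- Vanishing of the stalk can be tested on an open subscheme. -/
theorem isZero_stD_restrict_iff {W : Scheme.{u}} (g : W ⟶ X) [IsOpenImmersion g] (z : W)
    (E : DerivedCategory X.Modules) :
    IsZero ((stD X (g z)).obj E) ↔
      IsZero ((stD W z).obj ((Scheme.Modules.restrictFunctor g).mapDerivedCategory.obj E)) := by
  rw [isZero_mapD_iff, isZero_mapD_iff]
  refine forall_congr' fun i => ?_
  obtain ⟨e⟩ := mapD_homology (Scheme.Modules.restrictFunctor g) E i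
  constructor
  · intro h
    exact (isZero_stalk_restrict' g _ z h).of_iso ((stalkF W z).mapIso e)
  · intro h
    exact isZero_stalk_restrict g _ z (h.of_iso ((stalkF W z).mapIso e.symm))

include h in
theorem isPerfect.isZero_of_specializes {E : DerivedCategory X.Modules} (hE : isPerfect X E)
    (h0 : IsZero ((stD X w).obj E)) : IsZero ((stD X v).obj E) := by
  obtain ⟨W, g, _, w', rfl, K, hK, ⟨e⟩⟩ := hE.exists_free w
  have hv : v ∈ Set.range g := h.mem_open g.isOpenEmbedding.isOpen_range ⟨w', rfl⟩
  obtain ⟨v', rfl⟩ := hv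
  have h' : v' ⤳ w' := g.isOpenEmbedding.isInducing.specializes_iff.1 h
  rw [isZero_stD_restrict_iff] at h0 ⊢
  have h1 : IsZero ((stD W w').obj (DerivedCategory.Q.obj K)) :=
    h0.of_iso ((stD W w').mapIso e.symm)
  exact (isZero_stD_of_specializes h' K hK h1).of_iso ((stD W v').mapIso e)

end

end Pool.Agent.W456
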