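import Mathlib
import Pool.Agent.W456.Loc5

set_option autoImplicit false

universe w v u

open CategoryTheory CategoryTheory.Limits Pretriangulated

namespace Pool.Agent.W456

noncomputable section

variable {R : Type u} [CommRing R]

/-- The module `R` as a complex in degree zero. -/
abbrev oneC (R : Type u) [CommRing R] : CochainComplex (ModuleCat.{u} R) ℤ :=
  (HomologicalComplex.single (ModuleCat.{u} R) (ComplexShape.up ℤ) 0).obj (ModuleCat.of R R)

theorem oneC_kproj : CochainComplex.IsKProjective (oneC R) := by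
  have : CochainComplex.IsStrictlyLE (oneC R) 0 := by
    rw [CochainComplex.isStrictlyLE_iff]
    exact perfIn_single.le
  have hp : ∀ i, Projective ((oneC R).X i) := fun i =>
    (IsProjective.iff_projective ((oneC R).X i)).1 (perfIn_single.proj i)
  exact CochainComplex.isKProjective_of_projective _ 0

variable [HasDerivedCategory.{w} (ModuleCat.{u} R)]

theorem hom_oneD_Q (L : CochainComplex (ModuleCat.{u} R) ℤ) (hL : IsZero (L.X 0))
    (g : oneD R ⟶ DerivedCategory.Q.obj L) : g = 0 := by
  have := oneC_kproj (R := R)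
  let g' : DerivedCategory.Q.obj (oneC R) ⟶ DerivedCategory.Q.obj L := g
  obtain ⟨c, hc⟩ := (CochainComplex.IsKProjective.Qh_map_bijective (oneC R)
    ((HomotopyCategory.quotient _ _).obj L)).surjective
    ((DerivedCategory.quotientCompQhIso _).hom.app (oneC R) ≫ g' ≫
      (DerivedCategory.quotientCompQhIso _).inv.app L)
  obtain ⟨d, rfl⟩ := (HomotopyCategory.quotient _ _).map_surjective c
  have hd : d = 0 := by
    apply HomologicalComplex.from_single_hom_ext
    exact hL.eq_of_tgt _ _
  rw [hd, Functor.map_zero, Functor.map_zero] at hc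
  have h1 : g' = 0 := by
    rw [← cancel_epi ((DerivedCategory.quotientCompQhIso _).hom.app (oneC R)),
      ← cancel_mono ((DerivedCategory.quotientCompQhIso _).inv.app L), Category.assoc, ← hc,
      comp_zero, zero_comp]
  exact h1

theorem hom_oneD_eq_zero (N : DerivedCategory (ModuleCat.{u} R)) (hN : IsZero (HM 0 N))
    (g : oneD R ⟶ N) : g = 0 := by
  obtain ⟨A, B, hA, hB, f₁, f₂, f₃, hT⟩ :=
    DerivedCategory.TStructure.t.exists_triangle N (-1) 0 (by simp)
  have iA : A.IsLE (-1) := ⟨hA⟩
  have iB : B.IsGE 0 := ⟨hB⟩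
  have h0 : IsZero (HM 0 B) := by
    have e3 := DerivedCategory.HomologySequence.exact₃ _ hT 0 1 rfl
    exact e3.isZero_of_both_zeros (hN.eq_of_src _ _)
      ((DerivedCategory.isZero_of_isLE A (-1) 1 (by lia)).eq_of_tgt _ _)
  have iB1 : B.IsGE 1 := by
    rw [DerivedCategory.isGE_iff]
    intro i hi
    rcases lt_or_eq_of_le (show i ≤ 0 by lia) with hi' | rfl
    · exact DerivedCategory.isZero_of_isGE B 0 i hi'
    · exact h0
  obtain ⟨K, _, ⟨e⟩⟩ := DerivedCategory.exists_iso_Q_obj_of_isLE A (-1)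
  obtain ⟨L, _, ⟨e'⟩⟩ := DerivedCategory.exists_iso_Q_obj_of_isGE B 1
  have h1 : g ≫ f₂ = 0 := by
    have := hom_oneD_Q L (L.isZero_of_isStrictlyGE 1 0) ((g ≫ f₂) ≫ e'.hom)
    exact (cancel_mono e'.hom).1 (this.trans zero_comp.symm)
  obtain ⟨(g' : oneD R ⟶ A), hg'⟩ := Triangle.coyoneda_exact₂ _ hT g h1
  have h2 : g' = 0 := by
    have := hom_oneD_Q K (K.isZero_of_isStrictlyLE (-1) 0) (g' ≫ e.hom)
    exact (cancel_mono e.hom).1 (this.trans zero_comp.symm)
  exact hg'.trans ((congrArg (fun t => t ≫ f₁) h2).trans zero_comp)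

end

end Pool.Agent.W456
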