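import Mathlib
import Pool.Agent.W456.Geo7
import Pool.Agent.W456.Loc6

set_option autoImplicit false

universe w₁ w₂ u

open CategoryTheory CategoryTheory.Limits AlgebraicGeometry TopologicalSpace Opposite
open Pretriangulated

namespace Pool.Agent.W456

noncomputable section

attribute [local instance] HasDerivedCategory.standard Abelian.hasFiniteBiproducts

/-- The structure sheaf in the derived category. -/
abbrev unitD (X : Scheme.{u}) : DerivedCategory X.Modules :=
  (DerivedCategory.singleFunctor X.Modules 0).obj (unitMod X)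

section Biprod

variable {C : Type*} [Category* C] [Abelian C] (A : C)

/-- Adding finite biproducts of copies of an object. -/
def biprodFin (n m : ℕ) : (⨁ fun _ : Fin n => A) ⊞ (⨁ fun _ : Fin m => A) ≅
    ⨁ fun _ : Fin (n + m) => A where
  hom := biprod.desc (biproduct.desc fun i => biproduct.ι (fun _ : Fin (n + m) => A)
      (Fin.castAdd m i))
    (biproduct.desc fun j => biproduct.ι (fun _ : Fin (n + m) => A) (Fin.natAdd n j))
  inv := biproduct.desc (Fin.addCases
    (fun i => biproduct.ι (fun _ : Fin n => A) i ≫ biprod.inl)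
    (fun j => biproduct.ι (fun _ : Fin m => A) j ≫ biprod.inr))
  hom_inv_id := by
    apply biprod.hom_ext'
    · apply biproduct.hom_ext'
      intro i
      simp
    · apply biproduct.hom_ext'
      intro j
      simp
  inv_hom_id := by
    apply biproduct.hom_ext'
    intro i
    refine Fin.addCases (fun i => ?_) (fun j => ?_) i
    · simp
    · simp

end Biprod

theorem IsFF.biprod {X : Scheme.{u}} {M N : X.Modules} (hM : IsFF M) (hN : IsFF N) :
    IsFF (M ⊞ N) := by
  obtain ⟨n, ⟨e⟩⟩ := hM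
  obtain ⟨m, ⟨e'⟩⟩ := hN
  exact ⟨n + m, ⟨biprod.mapIso e e' ≪≫ biprodFin _ n m⟩⟩

theorem isBFF_cone {X : Scheme.{u}} {K L : CochainComplex X.Modules ℤ} (φ : K ⟶ L)
    (hK : IsBFF K) (hL : IsBFF L) : IsBFF (CochainComplex.mappingCone φ) := by
  obtain ⟨⟨a, b, hab⟩, hK⟩ := hK
  obtain ⟨⟨c, d, hcd⟩, hL⟩ := hL
  have e : ∀ i, (CochainComplex.mappingCone φ).X i ≅ K.X (i + 1) ⊞ L.X i := fun i =>
    HomologicalComplex.homotopyCofiber.XIsoBiprod φ i (i + 1) rfl
  refine ⟨⟨min (a - 1) c, max b d, fun i hi => ?_⟩, fun i => ?_⟩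
  · refine IsZero.of_iso ?_ (e i)
    have h1 : IsZero (K.X (i + 1)) := hab _ (by lia)
    have h2 : IsZero (L.X i) := hcd _ (by lia)
    rw [biprod_isZero_iff]
    exact ⟨h1, h2⟩
  · exact ((hK (i + 1)).biprod (hL i)).of_iso (e i).symm

theorem isCone_mappingCone {X : Scheme.{u}} (r : Γ(X, ⊤)) (K : CochainComplex X.Modules ℤ) :
    IsCone r (DerivedCategory.Q.obj K)
      (DerivedCategory.Q.obj (CochainComplex.mappingCone (r • 𝟙 K))) := by
  have h := DerivedCategory.mappingCone_triangle_distinguished (r • 𝟙 K)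
  have e : DerivedCategory.Q.map (r • 𝟙 K) = r • 𝟙 (DerivedCategory.Q.obj K) := by
    rw [Functor.map_smul, CategoryTheory.Functor.map_id]
  refine ⟨DerivedCategory.Q.map (CochainComplex.mappingCone.triangle (r • 𝟙 K)).mor₂,
    DerivedCategory.Q.map (CochainComplex.mappingCone.triangle (r • 𝟙 K)).mor₃ ≫
      (DerivedCategory.Q.commShiftIso (1 : ℤ)).hom.app K, ?_⟩
  rw [← e]
  exact h

theorem isBFF_unit (X : Scheme.{u}) :
    IsBFF ((HomologicalComplex.single X.Modules (ComplexShape.up ℤ) 0).obj (unitMod X)) := by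
  have hz : ∀ i : ℤ, i ≠ 0 → IsZero (((HomologicalComplex.single X.Modules
      (ComplexShape.up ℤ) 0).obj (unitMod X)).X i) := fun i hi =>
    HomologicalComplex.isZero_single_obj_X _ _ _ _ hi
  refine ⟨⟨0, 0, fun i hi => hz i (by lia)⟩, fun i => ?_⟩
  by_cases hi : i = 0
  · subst hi
    have h1 : IsFF (unitMod X) := ⟨1, ⟨(biproductUniqueIso (fun _ : Fin 1 => unitMod X)).symm⟩⟩
    exact h1.of_iso (HomologicalComplex.singleObjXSelf (ComplexShape.up ℤ) 0 (unitMod X)).symm
  · exact isFF_of_isZero (hz i hi)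

theorem exists_koszul (X : Scheme.{u}) (fs : List Γ(X, ⊤)) :
    ∃ K : CochainComplex X.Modules ℤ, IsBFF K ∧ IsPsi fs (unitD X) (DerivedCategory.Q.obj K) := by
  induction fs with
  | nil => exact ⟨_, isBFF_unit X, ⟨Iso.refl _⟩⟩
  | cons r rs ih =>
    obtain ⟨K, hK, hψ⟩ := ih
    exact ⟨_, isBFF_cone (r • 𝟙 K) hK hK, _, hψ, isCone_mappingCone r K⟩

end

end Pool.Agent.W456
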