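import Mathlib
import Pool.Agent.W456.Geo8

set_option autoImplicit false

universe w₁ w₂ u

open CategoryTheory CategoryTheory.Limits AlgebraicGeometry TopologicalSpace Opposite
open Pretriangulated

namespace Pool.Agent.W456

noncomputable section

attribute [local instance] HasDerivedCategory.standard Abelian.hasFiniteBiproducts

variable {X U : Scheme.{u}} (f : U ⟶ X) [IsOpenImmersion f] (x : U)
  (hx : IsClosed ({f x} : Set X)) (fs : List Γ(U, ⊤))
  (hfs : ∀ z : U, z ≠ x → ∃ g ∈ fs, IsUnit (germTop z g))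

include hx in
theorem isClosed_pt : IsClosed ({x} : Set U) := by
  have h : ({x} : Set U) = f ⁻¹' {f x} := by
    ext z
    simp only [Set.mem_singleton_iff, Set.mem_preimage]
    exact ⟨fun h => h ▸ rfl, fun h => f.isOpenEmbedding.injective h⟩
  rw [h]
  exact hx.preimage f.continuous

omit [IsOpenImmersion f] in
include hfs in
theorem stD_psi_zero {A Ψ : DerivedCategory U.Modules} (hΨ : IsPsi fs A Ψ) (z : U) (hz : z ≠ x) :
    IsZero ((stD U z).obj Ψ) := by
  have h1 := hΨ.mapD (stalkF U z) (germTop z) (stalkF_smul z)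
  apply h1.isZero_of_isUnit
  obtain ⟨g, hg, hu⟩ := hfs z hz
  exact ⟨_, List.mem_map.2 ⟨g, hg, rfl⟩, hu⟩

omit [IsOpenImmersion f] in
include hfs in
theorem stD_phi_zero {A Φ : DerivedCategory U.Modules} (hΦ : IsPhi fs A Φ) (z : U) (hz : z ≠ x) :
    IsZero ((stD U z).obj Φ) := by
  have h1 := hΦ.mapD (stalkF U z) (germTop z) (stalkF_smul z)
  apply h1.isZero_of_isUnit
  obtain ⟨g, hg, hu⟩ := hfs z hz
  exact ⟨_, List.mem_map.2 ⟨g, hg, rfl⟩, hu⟩

/-- Derived extension by zero. -/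
abbrev extD : DerivedCategory U.Modules ⥤ DerivedCategory X.Modules :=
  (extZ f).mapDerivedCategory

/-- Derived restriction. -/
abbrev resD : DerivedCategory X.Modules ⥤ DerivedCategory U.Modules :=
  (Scheme.Modules.restrictFunctor f).mapDerivedCategory

/-- Restriction after extension by zero. -/
def resExt (Ψ : DerivedCategory U.Modules) : Ψ ≅ (resD f).obj ((extD f).obj Ψ) :=
  asIso ((dAdj (extAdj f)).unit.app Ψ)

include hfs in
theorem stD_ext_zero {A Ψ : DerivedCategory U.Modules} (hΨ : IsPsi fs A Ψ) (z : X)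
    (hz : z ≠ f x) : IsZero ((stD X z).obj ((extD f).obj Ψ)) := by
  by_cases hr : z ∈ Set.range f
  · obtain ⟨z', rfl⟩ := hr
    rw [isZero_stD_restrict_iff]
    have hz' : z' ≠ x := fun h => hz (h ▸ rfl)
    exact (stD_psi_zero x fs hfs hΨ z' hz').of_iso ((stD U z').mapIso (resExt f Ψ).symm)
  · rw [isZero_mapD_iff]
    intro i
    obtain ⟨e⟩ := mapD_homology (extZ f) Ψ i
    exact (isZero_stalk_ext f (Hh i Ψ) z hr).of_iso ((stalkF X z).mapIso e)

theorem psi_stD {Ψ : DerivedCategory U.Modules} (hΨ : IsPsi fs (unitD U) Ψ) :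
    IsPsi (fs.map (gx f x)) (oneD (X.presheaf.stalk (f x)))
      ((stD X (f x)).obj ((extD f).obj Ψ)) := by
  have h1 := hΨ.mapD (sF f x) (gx f x) (sF_smul f x)
  obtain ⟨e1⟩ := stD_iso f x ((extD f).obj Ψ)
  obtain ⟨e2⟩ := mapD_single (sF f x) (unitMod U) 0
  exact h1.of_iso (e2 ≪≫ (DerivedCategory.singleFunctor _ 0).mapIso (sFUnit f x))
    ((sF f x).mapDerivedCategory.mapIso (resExt f Ψ) ≪≫ e1)

open ZeroObject in
/-- Zero objects are perfect. -/
theorem isPerfect_res_zero {X : Scheme.{u}} {E : DerivedCategory X.Modules} (h : IsZero E) :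
    ∃ K : CochainComplex X.Modules ℤ, IsStrictlyPerfect K ∧
      Nonempty (E ≅ DerivedCategory.Q.obj K) := by
  have hz : IsZero (0 : CochainComplex X.Modules ℤ) := isZero_zero _
  have hz' : ∀ i, IsZero ((0 : CochainComplex X.Modules ℤ).X i) := fun i =>
    Functor.map_isZero (HomologicalComplex.eval _ _ i) hz
  refine ⟨0, ⟨⟨0, 0, fun i _ => hz' i⟩, fun i x => ⟨⊤, trivial, ?_⟩⟩, ⟨?_⟩⟩
  · exact isFF_of_isZero (Functor.map_isZero _ (hz' i))
  · exact h.iso (Functor.map_isZero _ hz)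

theorem IsBFF.isStrictlyPerfect {X : Scheme.{u}} {K : CochainComplex X.Modules ℤ}
    (hK : IsBFF K) : IsStrictlyPerfect K := by
  refine ⟨hK.1, fun i x => ⟨⊤, trivial, ?_⟩⟩
  exact (hK.2 i).restrict _

omit [IsOpenImmersion f] hx hfs in
theorem isPerfect_ext (U : X.Opens) (x : U) (hx : IsClosed ({U.ι x} : Set X))
    (fs : List Γ(U, ⊤)) (hfs : ∀ z : U, z ≠ x → ∃ g ∈ fs, IsUnit (germTop z g))
    {A : DerivedCategory U.toScheme.Modules} {K : CochainComplex U.toScheme.Modules ℤ}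
    (hK : IsBFF K) (hΨ : IsPsi fs A (DerivedCategory.Q.obj K)) :
    isPerfect X ((extD U.ι).obj (DerivedCategory.Q.obj K)) := by
  intro z
  by_cases hz : z ∈ U
  · exact ⟨U, hz, K, hK.isStrictlyPerfect, ⟨(resExt U.ι _).symm⟩⟩
  · let V : X.Opens := ⟨{U.ι x}ᶜ, hx.isOpen_compl⟩
    refine ⟨V, ?_, ?_⟩
    · intro h
      apply hz
      rw [Set.mem_singleton_iff] at h
      rw [h]
      exact x.2
    · apply isPerfect_res_zero
      apply isZero_of_stD
      intro v
      rw [← isZero_stD_restrict_iff]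
      apply stD_ext_zero U.ι x fs hfs hΨ
      intro h
      exact v.2 h

end

end Pool.Agent.W456
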