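import Mathlib
import Pool.Agent.W456.Geo9

set_option autoImplicit false

universe w₁ w₂ u

open CategoryTheory CategoryTheory.Limits AlgebraicGeometry TopologicalSpace Opposite
open Pretriangulated

namespace Pool.Agent.W456

noncomputable section

attribute [local instance] HasDerivedCategory.standard Abelian.hasFiniteBiproducts

/-- Nonzero maps on stalks give nonzero maps, for a target supported at a closed point. -/
theorem exists_hom_of_stalk {X : Scheme.{u}} (y : X) (hy : IsClosed ({y} : Set X))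
    (E C : DerivedCategory X.Modules) (hC : ∀ z, z ≠ y → IsZero ((stD X z).obj C)) (i : ℤ)
    (β : (stD X y).obj E ⟶ ((stD X y).obj C)⟦i⟧) (hβ : β ≠ 0) : ∃ γ : E ⟶ C⟦i⟧, γ ≠ 0 := by
  have hC' : ∀ z, z ≠ y → IsZero ((stD X z).obj (C⟦i⟧)) := fun z hz =>
    (Functor.map_isZero (shiftFunctor _ i) (hC z hz)).of_iso
      (((stD X z).commShiftIso i).app C)
  have hu := isIso_unit_of_supp y hy (C⟦i⟧) hC'
  let β' : (stD X y).obj E ⟶ (stD X y).obj (C⟦i⟧) := β ≫ ((stD X y).commShiftIso i).inv.app C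
  have hβ' : β' ≠ 0 := by
    intro h
    apply hβ
    have h2 : β' = 0 ≫ ((stD X y).commShiftIso i).inv.app C := h.trans zero_comp.symm
    exact (cancel_mono (((stD X y).commShiftIso i).inv.app C)).1 h2
  refine ⟨((adjD X y).homEquiv _ _) β' ≫ inv ((adjD X y).unit.app (C⟦i⟧)), fun h => hβ' ?_⟩
  have h3 : ((adjD X y).homEquiv _ _) β' = 0 := by
    rw [← cancel_mono (inv ((adjD X y).unit.app (C⟦i⟧))), h, zero_comp]
  have h4 := (((adjD X y).homEquiv _ _).symm_apply_apply β')
  rw [h3] at h4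
  rw [← h4, Adjunction.homEquiv_counit, Functor.map_zero, zero_comp]

/-- Vanishing of maps out of the structure sheaf into an object supported at a closed point. -/
theorem hom_unit_zero {U : Scheme.{u}} (x : U) (hx : IsClosed ({x} : Set U))
    (Φ : DerivedCategory U.Modules) (hΦ : ∀ z, z ≠ x → IsZero ((stD U z).obj Φ)) (n : ℤ)
    (h0 : IsZero (HM n ((stD U x).obj Φ))) (g : unitD U ⟶ Φ⟦n⟧) : g = 0 := by
  have hC' : ∀ z, z ≠ x → IsZero ((stD U z).obj (Φ⟦n⟧)) := fun z hz =>
    (Functor.map_isZero (shiftFunctor _ n) (hΦ z hz)).of_iso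
      (((stD U z).commShiftIso n).app Φ)
  have hu := isIso_unit_of_supp x hx (Φ⟦n⟧) hC'
  obtain ⟨e⟩ := mapD_single (stalkF U x) (unitMod U) 0
  let e' : oneD (U.presheaf.stalk x) ≅ (stD U x).obj (unitD U) :=
    (DerivedCategory.singleFunctor _ 0).mapIso (stalkUnit x) ≪≫ e.symm
  have h1 : IsZero (HM 0 ((stD U x).obj (Φ⟦n⟧))) := by
    refine IsZero.of_iso ?_ ((DerivedCategory.homologyFunctor _ 0).mapIso
      (((stD U x).commShiftIso n).app Φ))
    exact h0.of_iso (HhShift ((stD U x).obj Φ) n 0 n (by simp))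
  have h2 : (stD U x).map g = 0 := by
    have := hom_oneD_eq_zero _ h1 (e'.hom ≫ (stD U x).map g)
    exact (cancel_epi e'.hom).1 (this.trans comp_zero.symm)
  have h3 := (adjD U x).unit.naturality g
  have h4 : g ≫ (adjD U x).unit.app (Φ⟦n⟧) = 0 := by
    refine h3.trans ?_
    rw [Functor.comp_map, h2, Functor.map_zero, comp_zero]
  exact (cancel_mono ((adjD U x).unit.app (Φ⟦n⟧))).1 (h4.trans zero_comp.symm)

variable {X U : Scheme.{u}} (f : U ⟶ X) [IsOpenImmersion f] (x : U)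
  (hx : IsClosed ({f x} : Set X)) (fs : List Γ(U, ⊤))
  (hfs : ∀ z : U, z ≠ x → ∃ g ∈ fs, IsUnit (germTop z g))

include hx hfs in
/-- Vanishing of maps out of the Koszul object. -/
theorem hom_koszul_zero {Ψ : DerivedCategory U.Modules} (hΨ : IsPsi fs (unitD U) Ψ)
    (E : DerivedCategory X.Modules) (i : ℤ)
    (h0 : ∀ N, IsPhi (fs.map (gx f x)) ((stD X (f x)).obj E) N →
      IsZero (HM (i - fs.length) N))
    (γ : (extD f).obj Ψ ⟶ E⟦i⟧) : γ = 0 := by
  obtain ⟨Φ, hΦ⟩ := exists_isPhi fs ((resD f).obj E)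
  have key : ∀ g : Ψ ⟶ ((resD f).obj E)⟦i⟧, g = 0 := by
    refine phi_iter fs hΨ hΦ (i - fs.length) i (by ring) ?_
    intro g
    refine hom_unit_zero x (isClosed_pt f x hx) Φ (stD_phi_zero x fs hfs hΦ) _ ?_ g
    obtain ⟨e⟩ := stD_iso f x E
    have h1 := (hΦ.mapD (sF f x) (gx f x) (sF_smul f x)).of_iso e (Iso.refl _)
    have h2 := h0 _ h1
    obtain ⟨e1⟩ := mapD_homology (sF f x) Φ (i - fs.length)
    obtain ⟨e2⟩ := mapD_homology (stalkF U x) Φ (i - fs.length)
    have h3 : IsZero ((sF f x).obj (Hh (i - fs.length) Φ)) := h2.of_iso e1.symm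
    refine IsZero.of_iso ?_ e2
    have h4 : Subsingleton ((sF f x).obj (Hh (i - fs.length) Φ)) :=
      ModuleCat.subsingleton_of_isZero h3
    have h5 : Subsingleton ((stalkF U x).obj (Hh (i - fs.length) Φ)) := h4
    exact ModuleCat.isZero_of_subsingleton _
  let γ' : Ψ ⟶ (resD f).obj (E⟦i⟧) := ((dAdj (extAdj f)).homEquiv _ _) γ
  have h1 : γ' ≫ ((resD f).commShiftIso i).hom.app E = 0 := key _
  have h2 : γ' = 0 := (cancel_mono (((resD f).commShiftIso i).hom.app E)).1
    (h1.trans zero_comp.symm)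
  have h4 := (((dAdj (extAdj f)).homEquiv _ _).symm_apply_apply γ)
  have h5 : ((dAdj (extAdj f)).homEquiv _ _) γ = 0 := h2
  rw [h5] at h4
  rw [← h4, Adjunction.homEquiv_counit, Functor.map_zero, zero_comp]

end

end Pool.Agent.W456
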