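import Mathlib
import Pool.Agent.W456.Geo10
import Pool.Agent.W456.CA3

set_option autoImplicit false

universe u

open CategoryTheory CategoryTheory.Limits AlgebraicGeometry TopologicalSpace Opposite
open RingTheory.Sequence

namespace Pool.Agent.W456

noncomputable section

variable {X : Scheme.{u}}

/-- Pulling back a section. -/
def resF {W : Scheme.{u}} (f : W ⟶ X) (V : X.Opens) (h : ∀ z : W, f z ∈ V) :
    Γ(X, V) →+* Γ(W, ⊤) :=
  (f.appLE V ⊤ (fun z _ => h z)).hom

theorem germTop_resF {W : Scheme.{u}} (f : W ⟶ X) (V : X.Opens) (h : ∀ z : W, f z ∈ V) (z : W)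
    (s : Γ(X, V)) :
    germTop z (resF f V h s) = (f.stalkMap z).hom ((X.presheaf.germ V (f z) (h z)).hom s) := by
  have h1 : f.appLE V ⊤ (fun z _ => h z) ≫ W.presheaf.germ ⊤ z trivial =
      X.presheaf.germ V (f z) (h z) ≫ f.stalkMap z := by
    rw [Scheme.Hom.germ_stalkMap]
    have hle : (⊤ : W.Opens) ≤ f ⁻¹ᵁ V := fun z _ => h z
    have hz : z ∈ (⊤ : W.Opens) := trivial
    have h2 : f.appLE V ⊤ (fun z _ => h z) = f.app V ≫
      W.presheaf.map (homOfLE hle).op := rfl
    rw [h2, Category.assoc]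
    congr 1
    exact TopCat.Presheaf.germ_res W.presheaf (homOfLE hle) z hz
  exact ConcreteCategory.congr_hom h1 s

theorem gx_resF {W : Scheme.{u}} (f : W ⟶ X) [IsOpenImmersion f] (V : X.Opens)
    (h : ∀ z : W, f z ∈ V) (z : W) (s : Γ(X, V)) :
    gx f z (resF f V h s) = (X.presheaf.germ V (f z) (h z)).hom s := by
  apply (stalkMap_bijective f z).1
  rw [stalkMap_gx, germTop_resF]

/-- Restriction of a section to a smaller open subscheme. -/
def resU (V U : X.Opens) (h : U ≤ V) : Γ(X, V) →+* Γ(U.toScheme, ⊤) :=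
  resF U.ι V (fun z => h z.2)

theorem germTop_resU (V U : X.Opens) (h : U ≤ V) (z : U.toScheme) (f : Γ(X, V)) :
    germTop z (resU V U h f) = (U.ι.stalkMap z).hom
      ((X.presheaf.germ V (U.ι z) (h z.2)).hom f) := germTop_resF U.ι V (fun z => h z.2) z f

theorem gx_resU (V U : X.Opens) (h : U ≤ V) (z : U.toScheme) (f : Γ(X, V)) :
    gx U.ι z (resU V U h f) = (X.presheaf.germ V (U.ι z) (h z.2)).hom f :=
  gx_resF U.ι V (fun z => h z.2) z f

/-- The prime of a point of an affine open. -/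
theorem mem_primeIdealOf (V : X.Opens) (hV : IsAffineOpen V) (x : V) (f : Γ(X, V)) :
    f ∈ (hV.primeIdealOf x).asIdeal ↔ ¬ IsUnit ((X.presheaf.germ V x.1 x.2).hom f) := by
  rw [hV.primeIdealOf_eq_map_closedPoint]
  exact IsLocalRing.mem_maximalIdeal _

theorem primeIdealOf_injective (V : X.Opens) (hV : IsAffineOpen V) (x y : V)
    (h : hV.primeIdealOf x = hV.primeIdealOf y) : x = y := by
  apply Subtype.ext
  rw [← hV.fromSpec_primeIdealOf x, ← hV.fromSpec_primeIdealOf y, h]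

/-- Isolating a point by sections. -/
theorem exists_data (V : X.Opens) (hV : IsAffineOpen V) (x : V) (fs : List Γ(X, V))
    (g : Γ(X, V)) (hg : g ∉ (hV.primeIdealOf x).asIdeal)
    (hmin : ∀ p : Ideal Γ(X, V), p.IsPrime → (∀ f ∈ fs, f ∈ p) → g ∉ p →
      p = (hV.primeIdealOf x).asIdeal) :
    ∃ (U : X.Opens) (hU : U ≤ V) (hxU : x.1 ∈ U),
      ∀ z : U.toScheme, z ≠ ⟨x.1, hxU⟩ → ∃ f ∈ fs.map (resU V U hU), IsUnit (germTop z f) := by
  refine ⟨X.basicOpen g, X.basicOpen_le g, ?_, ?_⟩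
  · rw [Scheme.mem_basicOpen _ _ _ x.2]
    rw [mem_primeIdealOf, not_not] at hg
    exact hg
  · intro z hz
    by_contra hc
    push Not at hc
    apply hz
    have hzV : z.1 ∈ V := X.basicOpen_le g z.2
    have h1 : ∀ f ∈ fs, f ∈ (hV.primeIdealOf ⟨z.1, hzV⟩).asIdeal := by
      intro f hf
      rw [mem_primeIdealOf]
      intro hu
      apply hc _ (List.mem_map.2 ⟨f, hf, rfl⟩)
      rw [germTop_resU]
      exact hu.map _
    have h2 : g ∉ (hV.primeIdealOf ⟨z.1, hzV⟩).asIdeal := by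
      rw [mem_primeIdealOf, not_not]
      exact (Scheme.mem_basicOpen _ _ _ hzV).1 z.2
    have h3 := hmin _ (hV.primeIdealOf ⟨z.1, hzV⟩).2 h1 h2
    have h4 := primeIdealOf_injective V hV _ _ (PrimeSpectrum.ext h3)
    apply Subtype.ext
    exact congrArg (fun w : V => w.1) h4

end

end Pool.Agent.W456
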