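import Mathlib
import Pool.Agent.W456.Geo11

set_option autoImplicit false

universe u

open CategoryTheory CategoryTheory.Limits AlgebraicGeometry TopologicalSpace Opposite
open RingTheory.Sequence

namespace Pool.Agent.W456

noncomputable section

variable {X : Scheme.{u}}

/-- Good functions around a closed point. -/
structure PtData (X : Scheme.{u}) (U : X.Opens) (x : U.toScheme) (fs : List Γ(U.toScheme, ⊤)) :
    Prop where
  closed : IsClosed ({U.ι x} : Set X)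
  unit : ∀ z : U.toScheme, z ≠ x → ∃ f ∈ fs, IsUnit (germTop z f)
  mem : ∀ f ∈ fs.map (gx U.ι x), f ∈ IsLocalRing.maximalIdeal (X.presheaf.stalk (U.ι x))

theorem map_gx_resU (V U : X.Opens) (h : U ≤ V) (z : U.toScheme) (fs : List Γ(X, V)) :
    (fs.map (resU V U h)).map (gx U.ι z) = fs.map (X.presheaf.germ V (U.ι z) (h z.2)).hom := by
  rw [List.map_map]
  apply List.map_congr_left
  intro f _
  exact gx_resU V U h z f

section

variable (V : X.Opens) (hV : IsAffineOpen V) (U : X.Opens) (hU : U ≤ V) (z : U.toScheme)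
  (fs : List Γ(X, V))

theorem mem_stalk (h : ∀ f ∈ fs, f ∈ (hV.primeIdealOf ⟨U.ι z, hU z.2⟩).asIdeal) :
    ∀ f ∈ (fs.map (resU V U hU)).map (gx U.ι z),
      f ∈ IsLocalRing.maximalIdeal (X.presheaf.stalk (U.ι z)) := by
  rw [map_gx_resU]
  let _ := X.presheaf.algebra_section_stalk ⟨U.ι z, hU z.2⟩
  have hloc := hV.isLocalization_stalk ⟨U.ι z, hU z.2⟩
  exact mem_of_isLocalization (hV.primeIdealOf ⟨U.ι z, hU z.2⟩).asIdeal
    (X.presheaf.stalk (U.ι z)) fs h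

theorem prime_stalk
    (h : (hV.primeIdealOf ⟨U.ι z, hU z.2⟩).asIdeal ∈ (Ideal.ofList fs).minimalPrimes) :
    ∀ p : Ideal (X.presheaf.stalk (U.ι z)), p.IsPrime →
        (∀ f ∈ (fs.map (resU V U hU)).map (gx U.ι z), f ∈ p) →
          p = IsLocalRing.maximalIdeal (X.presheaf.stalk (U.ι z)) := by
  rw [map_gx_resU]
  let _ := X.presheaf.algebra_section_stalk ⟨U.ι z, hU z.2⟩
  have hloc := hV.isLocalization_stalk ⟨U.ι z, hU z.2⟩
  intro p hp hh
  exact prime_of_isLocalization (hV.primeIdealOf ⟨U.ι z, hU z.2⟩).asIdeal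
    (X.presheaf.stalk (U.ι z)) fs h p hp hh

theorem regular_stalk
    (h : IsWeaklyRegular (Localization.AtPrime (hV.primeIdealOf ⟨U.ι z, hU z.2⟩).asIdeal)
      (fs.map (algebraMap Γ(X, V)
        (Localization.AtPrime (hV.primeIdealOf ⟨U.ι z, hU z.2⟩).asIdeal)))) :
    IsWeaklyRegular (X.presheaf.stalk (U.ι z)) ((fs.map (resU V U hU)).map (gx U.ι z)) := by
  rw [map_gx_resU]
  let _ := X.presheaf.algebra_section_stalk ⟨U.ι z, hU z.2⟩
  have hloc := hV.isLocalization_stalk ⟨U.ι z, hU z.2⟩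
  exact regular_of_isLocalization (hV.primeIdealOf ⟨U.ι z, hU z.2⟩).asIdeal
    (X.presheaf.stalk (U.ι z)) fs h

end

theorem upper_data {k : Type u} [Field k] (q : X ⟶ Spec (.of k)) [LocallyOfFiniteType q]
    (y : X) (hy : IsClosed ({y} : Set X)) :
    ∃ (U : X.Opens) (x : U.toScheme) (_ : U.ι x = y) (fs : List Γ(U.toScheme, ⊤)),
      PtData X U x fs ∧ ((fs.length : ℕ) : WithBot ℕ∞) ≤ topologicalKrullDim X ∧
      ∀ p : Ideal (X.presheaf.stalk (U.ι x)), p.IsPrime →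
        (∀ f ∈ fs.map (gx U.ι x), f ∈ p) →
          p = IsLocalRing.maximalIdeal (X.presheaf.stalk (U.ι x)) := by
  have hN : IsLocallyNoetherian X := LocallyOfFiniteType.isLocallyNoetherian q
  obtain ⟨_, ⟨V, hV, rfl⟩, hyV, -⟩ := X.isBasis_affineOpens.exists_subset_of_mem_open
    (Set.mem_univ y) isOpen_univ
  have hNV : IsNoetherianRing Γ(X, V) := IsLocallyNoetherian.component_noetherian ⟨V, hV⟩
  have hmax : (hV.primeIdealOf ⟨y, hyV⟩).asIdeal.IsMaximal :=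
    hV.primeIdealOf_isMaximal_of_isClosed ⟨y, hyV⟩ hy
  obtain ⟨fs, hfs, hlen⟩ := exists_min_list (hV.primeIdealOf ⟨y, hyV⟩).asIdeal
  obtain ⟨g, hg, hg'⟩ := exists_isolating (hV.primeIdealOf ⟨y, hyV⟩).asIdeal fs hfs
  obtain ⟨U, hU, hyU, hunit⟩ := exists_data V hV ⟨y, hyV⟩ fs g hg hg'
  refine ⟨U, ⟨y, hyU⟩, rfl, fs.map (resU V U hU), ⟨hy, hunit, ?_⟩, ?_, ?_⟩
  · refine mem_stalk V hV U hU ⟨y, hyU⟩ fs ?_
    intro f hf
    exact hfs.1.2 (Ideal.subset_span hf)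
  · rw [List.length_map]
    refine le_trans ?_ (ringKrullDim_le_dim X ⟨V, hV⟩)
    have h1 : ((hV.primeIdealOf ⟨y, hyV⟩).asIdeal.height : WithBot ℕ∞) ≤
        ringKrullDim Γ(X, V) := Ideal.height_le_ringKrullDim_of_isPrime
    rw [← hlen] at h1
    exact_mod_cast h1
  · exact prime_stalk V hV U hU ⟨y, hyU⟩ fs hfs

theorem lower_data {k : Type u} [Field k] (q : X ⟶ Spec (.of k)) [LocallyOfFiniteType q]
    (l : ℕ) (hl : (l : WithBot ℕ∞) ≤ topologicalKrullDim X) :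
    ∃ (U : X.Opens) (x : U.toScheme) (fs : List Γ(U.toScheme, ⊤)),
      PtData X U x fs ∧ l ≤ fs.length ∧
      IsWeaklyRegular (X.presheaf.stalk (U.ι x)) (fs.map (gx U.ι x)) := by
  have hJ : JacobsonSpace X := LocallyOfFiniteType.jacobsonSpace q
  have hN : IsLocallyNoetherian X := LocallyOfFiniteType.isLocallyNoetherian q
  obtain ⟨⟨V, hV⟩, hl'⟩ := exists_affine_of_le_dim X l hl
  have hNV : IsNoetherianRing Γ(X, V) := IsLocallyNoetherian.component_noetherian ⟨V, hV⟩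
  have hft : (q.appLE ⊤ V (by simp)).hom.FiniteType :=
    q.finiteType_appLE (isAffineOpen_top _) hV (by simp)
  let φ : k →+* Γ(X, V) := (q.appLE ⊤ V (by simp)).hom.comp
    (Scheme.ΓSpecIso (.of k)).commRingCatIsoToRingEquiv.symm.toRingHom
  have hφ : φ.FiniteType := hft.comp (RingHom.FiniteType.of_surjective _
    (Scheme.ΓSpecIso (.of k)).commRingCatIsoToRingEquiv.symm.surjective)
  let _ : Algebra k Γ(X, V) := φ.toAlgebra
  have hft' : Algebra.FiniteType k Γ(X, V) := hφ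
  obtain ⟨m, hm, fs, hlen, hmem, hreg, hpr⟩ := ca_lower k Γ(X, V) l hl'
  have hmin : m ∈ (Ideal.ofList fs).minimalPrimes := by
    refine ⟨⟨hm.isPrime, Ideal.span_le.2 hmem⟩, ?_⟩
    rintro p ⟨hp, hp'⟩ hpm
    have h1 : p.IsMaximal := hpr p hp (fun f hf => hp' (Ideal.subset_span hf))
    exact (h1.eq_of_le hm.ne_top hpm).ge
  obtain ⟨x', hx'⟩ : ∃ x' : V, hV.primeIdealOf x' = ⟨m, hm.isPrime⟩ := by
    refine ⟨hV.isoSpec.inv ⟨m, hm.isPrime⟩, ?_⟩
    exact hV.isoSpec.schemeIsoToHomeo.apply_symm_apply _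
  obtain ⟨x, hxV⟩ := x'
  have hmm : m = (hV.primeIdealOf ⟨x, hxV⟩).asIdeal := by rw [hx']
  subst hmm
  have hx : IsClosed ({x} : Set X) := by
    have h1 : IsClosed ({⟨x, hxV⟩} : Set V) := by
      have h2 : IsClosed ({hV.primeIdealOf ⟨x, hxV⟩} : Set (PrimeSpectrum Γ(X, V))) :=
        (PrimeSpectrum.isClosed_singleton_iff_isMaximal _).2 hm
      have h3 : ({⟨x, hxV⟩} : Set V) = hV.isoSpec.hom ⁻¹' {hV.primeIdealOf ⟨x, hxV⟩} := by
        ext w
        simp only [Set.mem_singleton_iff, Set.mem_preimage]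
        exact ⟨fun h => h ▸ rfl, fun h => primeIdealOf_injective V hV _ _ h⟩
      rw [h3]
      exact h2.preimage hV.isoSpec.hom.continuous
    have h2 : (fun w : V => w.1) ⁻¹' closedPoints X = closedPoints V :=
      V.isOpenEmbedding.preimage_closedPoints
    have h3 : (⟨x, hxV⟩ : V) ∈ closedPoints V := h1
    rw [← h2] at h3
    exact h3
  obtain ⟨g, hg, hg'⟩ := exists_isolating (hV.primeIdealOf ⟨x, hxV⟩).asIdeal fs hmin
  obtain ⟨U, hU, hxU, hunit⟩ := exists_data V hV ⟨x, hxV⟩ fs g hg hg'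
  refine ⟨U, ⟨x, hxU⟩, fs.map (resU V U hU), ⟨hx, hunit, ?_⟩, ?_, ?_⟩
  · exact mem_stalk V hV U hU ⟨x, hxU⟩ fs hmem
  · rw [List.length_map]
    exact hlen
  · exact regular_stalk V hV U hU ⟨x, hxU⟩ fs hreg

end

end Pool.Agent.W456
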