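import Mathlib
import Pool.Agent.W456.PerfDef

set_option autoImplicit false

universe v₁ u₁ v₂ u₂

open CategoryTheory CategoryTheory.Limits

namespace Pool.Agent.W456

section

variable (T : Type u₁) [Category.{v₁} T] [HasShift T ℤ]

/-- The invariant of a category with shift that detects dimension. -/
def Inv (n : ℤ) : Prop :=
  ∃ E : T, ¬ Subsingleton (E ⟶ E) ∧ ∀ (G : T) (j : ℤ), ¬ Subsingleton (E ⟶ G⟦j⟧) →
    ∃ i : ℤ, n - j ≤ i ∧ ¬ Subsingleton (G ⟶ E⟦i⟧)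

end

section

variable {T : Type u₁} [Category.{v₁} T] {T' : Type u₂} [Category.{v₂} T']

/-- Homs of isomorphic objects. -/
theorem not_subsingleton_congr {A B A' B' : T} (a : A ≅ A') (b : B ≅ B')
    (h : ¬ Subsingleton (A ⟶ B)) : ¬ Subsingleton (A' ⟶ B') :=
  fun h' => h ((Iso.homCongr a b).subsingleton_congr.2 h')

theorem not_subsingleton_map_iff (F : T ⥤ T') [F.Full] [F.Faithful] (A B : T) :
    ¬ Subsingleton (F.obj A ⟶ F.obj B) ↔ ¬ Subsingleton (A ⟶ B) :=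
  not_congr (Functor.FullyFaithful.ofFullyFaithful F).homEquiv.symm.subsingleton_congr

variable [HasShift T ℤ] [HasShift T' ℤ]

theorem shift_all (F : T ⥤ T')
    (h : ∀ A : T, Nonempty (F.obj (A⟦(1 : ℤ)⟧) ≅ (F.obj A)⟦(1 : ℤ)⟧)) (n : ℤ) :
    ∀ A : T, Nonempty (F.obj (A⟦n⟧) ≅ (F.obj A)⟦n⟧) := by
  induction n using Int.induction_on with
  | zero =>
    intro A
    exact ⟨F.mapIso ((shiftFunctorZero T ℤ).app A) ≪≫
      ((shiftFunctorZero T' ℤ).symm.app (F.obj A))⟩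
  | succ i hi =>
    intro A
    obtain ⟨e⟩ := hi A
    obtain ⟨e'⟩ := h (A⟦(i : ℤ)⟧)
    exact ⟨F.mapIso ((shiftFunctorAdd' T (i : ℤ) 1 (i + 1) rfl).app A) ≪≫ e' ≪≫
      (shiftFunctor T' (1 : ℤ)).mapIso e ≪≫
      (shiftFunctorAdd' T' (i : ℤ) 1 (i + 1) rfl).symm.app (F.obj A)⟩
  | pred i hi =>
    intro A
    obtain ⟨e⟩ := hi A
    obtain ⟨e'⟩ := h (A⟦(-(i : ℤ) - 1)⟧)
    have hh : (-(i : ℤ) - 1) + 1 = -(i : ℤ) := by ring
    have e2 : (F.obj (A⟦(-(i : ℤ) - 1)⟧))⟦(1 : ℤ)⟧ ≅ (F.obj A)⟦(-(i : ℤ))⟧ :=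
      e'.symm ≪≫ F.mapIso ((shiftFunctorAdd' T _ _ _ hh).symm.app A) ≪≫ e
    have hh2 : (-(i : ℤ)) + (-1) = -(i : ℤ) - 1 := by ring
    exact ⟨(shiftFunctorCompIsoId T' (1 : ℤ) (-1) (by norm_num)).symm.app _ ≪≫
      (shiftFunctor T' (-1 : ℤ)).mapIso e2 ≪≫
      (shiftFunctorAdd' T' _ _ _ hh2).symm.app (F.obj A)⟩

theorem Inv.transport (e : T ≌ T')
    (h : ∀ A : T, Nonempty (e.functor.obj (A⟦(1 : ℤ)⟧) ≅ (e.functor.obj A)⟦(1 : ℤ)⟧)) (n : ℤ)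
    (hn : Inv T n) : Inv T' n := by
  obtain ⟨E, hE, hE'⟩ := hn
  refine ⟨e.functor.obj E, (not_subsingleton_map_iff e.functor E E).2 hE, ?_⟩
  intro G' j hj
  let G := e.inverse.obj G'
  let g : e.functor.obj G ≅ G' := e.counitIso.app G'
  obtain ⟨s⟩ := shift_all e.functor h j G
  have h1 : ¬ Subsingleton (e.functor.obj E ⟶ e.functor.obj (G⟦j⟧)) :=
    not_subsingleton_congr (Iso.refl _) ((shiftFunctor T' j).mapIso g.symm ≪≫ s.symm) hj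
  rw [not_subsingleton_map_iff] at h1
  obtain ⟨i, hi, hi'⟩ := hE' G j h1
  refine ⟨i, hi, ?_⟩
  obtain ⟨s'⟩ := shift_all e.functor h i E
  rw [← not_subsingleton_map_iff e.functor] at hi'
  exact not_subsingleton_congr g s' hi'

theorem shift_symm (e : T ≌ T')
    (h : ∀ A : T, Nonempty (e.functor.obj (A⟦(1 : ℤ)⟧) ≅ (e.functor.obj A)⟦(1 : ℤ)⟧)) (B : T') :
    Nonempty (e.symm.functor.obj (B⟦(1 : ℤ)⟧) ≅ (e.symm.functor.obj B)⟦(1 : ℤ)⟧) := by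
  obtain ⟨s⟩ := h (e.inverse.obj B)
  exact ⟨e.inverse.mapIso ((shiftFunctor T' (1 : ℤ)).mapIso (e.counitIso.symm.app B) ≪≫ s.symm) ≪≫
    (e.unitIso.symm.app _)⟩

theorem Inv.iff (e : T ≌ T')
    (h : ∀ A : T, Nonempty (e.functor.obj (A⟦(1 : ℤ)⟧) ≅ (e.functor.obj A)⟦(1 : ℤ)⟧)) (n : ℤ) :
    Inv T n ↔ Inv T' n :=
  ⟨Inv.transport e h n, Inv.transport e.symm (shift_symm e h) n⟩

end

end Pool.Agent.W456
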