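import Mathlib
import Pool.Agent.W456.Inv
import Pool.Agent.W456.Geo12

set_option autoImplicit false

universe u

open CategoryTheory CategoryTheory.Limits AlgebraicGeometry TopologicalSpace Opposite
open Pretriangulated RingTheory.Sequence

namespace Pool.Agent.W456

noncomputable section

attribute [local instance] HasDerivedCategory.standard Abelian.hasFiniteBiproducts

variable {X : Scheme.{u}}

theorem not_subsingleton_iff {A B : DerivedCategory X.Modules} :
    ¬ Subsingleton (A ⟶ B) ↔ ∃ γ : A ⟶ B, γ ≠ 0 := by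
  constructor
  · intro h
    by_contra hc
    push Not at hc
    exact h ⟨fun a b => (hc a).trans (hc b).symm⟩
  · rintro ⟨γ, hγ⟩ h
    exact hγ (Subsingleton.elim _ _)

theorem hom_dpf_iff (A B : Dpf X) (i : ℤ) :
    ¬ Subsingleton (A ⟶ B⟦i⟧) ↔ ∃ γ : A.obj ⟶ B.obj⟦i⟧, γ ≠ 0 := by
  rw [← not_subsingleton_map_iff (isPerfect X).ι, ← not_subsingleton_iff]
  let e : (isPerfect X).ι.obj (B⟦i⟧) ≅ B.obj⟦i⟧ := ((isPerfect X).ι.commShiftIso i).app B
  constructor
  · exact not_subsingleton_congr (Iso.refl _) e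
  · exact not_subsingleton_congr (Iso.refl _) e.symm

theorem hom_dpf_self_iff (A : Dpf X) : ¬ Subsingleton (A ⟶ A) ↔ ¬ IsZero A.obj := by
  rw [← not_subsingleton_map_iff (isPerfect X).ι]
  change ¬ Subsingleton (A.obj ⟶ A.obj) ↔ _
  rw [not_subsingleton_iff, IsZero.iff_id_eq_zero]
  constructor
  · rintro ⟨γ, hγ⟩ h
    apply hγ
    rw [← Category.comp_id γ, h, comp_zero]
  · intro h
    exact ⟨_, h⟩

/-- The Koszul object at a closed point. -/
theorem PtData.exists_obj {U : X.Opens} {x : U.toScheme} {fs : List Γ(U.toScheme, ⊤)}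
    (h : PtData X U x fs) : ∃ (K : DerivedCategory U.toScheme.Modules),
      IsPsi fs (unitD U.toScheme) K ∧ isPerfect X ((extD U.ι).obj K) := by
  obtain ⟨K, hK, hΨ⟩ := exists_koszul U.toScheme fs
  exact ⟨_, hΨ, isPerfect_ext U x h.closed fs h.unit hK hΨ⟩

theorem inv_of_le_dim {k : Type u} [Field k] (q : X ⟶ Spec (.of k)) [LocallyOfFiniteType q]
    (l : ℕ) (hl : (l : WithBot ℕ∞) ≤ topologicalKrullDim X) : Inv (Dpf X) l := by
  obtain ⟨U, x, fs, hd, hlen, hreg⟩ := lower_data q l hl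
  obtain ⟨K, hΨ, hperf⟩ := hd.exists_obj
  have hst := psi_stD U.ι x fs hΨ
  refine ⟨⟨_, hperf⟩, ?_, ?_⟩
  · rw [hom_dpf_self_iff]
    intro hz
    exact psi_not_isZero _ hd.mem hst (Functor.map_isZero _ hz)
  · intro G j hj
    rw [hom_dpf_iff] at hj
    obtain ⟨γ, hγ⟩ := hj
    obtain ⟨N, hN, hN'⟩ : ∃ N, ∃ _ : IsPhi (fs.map (gx U.ι x)) ((stD X (U.ι x)).obj G.obj) N,
        ¬ IsZero (HM (j - fs.length) N) := by
      by_contra hc
      push Not at hc
      exact hγ (hom_koszul_zero U.ι x hd.closed fs hd.unit hΨ G.obj j hc γ)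
    have hG : ¬ IsZero ((stD X (U.ι x)).obj G.obj) := by
      intro h
      exact hN' (Functor.map_isZero _ (hN.isZero_of_isZero h))
    obtain ⟨P, a, b, hP, ⟨e⟩⟩ := isPerfect.stalk G.property (U.ι x)
    obtain ⟨a', ⟨β, hβ⟩, hv⟩ := local_lower _ hreg hd.mem hst _ hG a b P hP e
    refine ⟨-a', ?_, ?_⟩
    · by_contra hc
      exact hN' (hv N hN _ (by lia))
    · rw [hom_dpf_iff]
      exact exists_hom_of_stalk (U.ι x) hd.closed G.obj _
        (fun z hz => stD_ext_zero U.ι x fs hd.unit hΨ z hz) (-a') β hβ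

theorem le_dim_of_inv {k : Type u} [Field k] (q : X ⟶ Spec (.of k)) [LocallyOfFiniteType q]
    [QuasiCompact q] (l : ℕ) (hl : Inv (Dpf X) l) : (l : WithBot ℕ∞) ≤ topologicalKrullDim X := by
  have hN : IsLocallyNoetherian X := LocallyOfFiniteType.isLocallyNoetherian q
  have hc : CompactSpace X := QuasiCompact.compactSpace_of_compactSpace q
  obtain ⟨E, hE, hE'⟩ := hl
  rw [hom_dpf_self_iff] at hE
  obtain ⟨y, hy, hEy⟩ : ∃ y : X, IsClosed ({y} : Set X) ∧ ¬ IsZero ((stD X y).obj E.obj) := by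
    by_contra hc'
    push Not at hc'
    apply hE
    apply isZero_of_stD
    intro z
    obtain ⟨y, hy, hy'⟩ : ∃ y ∈ closure ({z} : Set X), IsClosed ({y} : Set X) :=
      IsClosed.exists_closed_singleton isClosed_closure ⟨z, subset_closure rfl⟩
    exact isPerfect.isZero_of_specializes (specializes_iff_mem_closure.2 hy) E.property
      (hc' y hy')
  obtain ⟨U, x, hx, fs, hd, hlen, hpr⟩ := upper_data q y hy
  subst hx
  obtain ⟨K, hΨ, hperf⟩ := hd.exists_obj
  have hst := psi_stD U.ι x fs hΨ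
  obtain ⟨P, a, b, hP, ⟨e⟩⟩ := isPerfect.stalk E.property (U.ι x)
  obtain ⟨j, ⟨β, hβ⟩, hv⟩ := local_upper _ hd.mem hpr hst _ hEy a b P hP e
  obtain ⟨i, hi, hi'⟩ := hE' ⟨_, hperf⟩ j (by
    rw [hom_dpf_iff]
    exact exists_hom_of_stalk (U.ι x) hd.closed E.obj _
      (fun z hz => stD_ext_zero U.ι x fs hd.unit hΨ z hz) j β hβ)
  rw [hom_dpf_iff] at hi'
  obtain ⟨γ, hγ⟩ := hi'
  have hle : i ≤ fs.length - j := by
    by_contra hc'
    apply hγ
    refine hom_koszul_zero U.ι x hd.closed fs hd.unit hΨ E.obj i (fun N hN => ?_) γ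
    have := hv N hN i (by rw [List.length_map]; lia)
    rwa [List.length_map] at this
  have h1 : l ≤ fs.length := by lia
  refine le_trans ?_ hlen
  exact_mod_cast h1

theorem inv_iff {k : Type u} [Field k] (q : X ⟶ Spec (.of k)) [LocallyOfFiniteType q]
    [QuasiCompact q] (l : ℕ) : Inv (Dpf X) l ↔ (l : WithBot ℕ∞) ≤ topologicalKrullDim X :=
  ⟨le_dim_of_inv q l, inv_of_le_dim q l⟩

theorem eq_of_nat_le_iff (a b : WithBot ℕ∞)
    (h : ∀ l : ℕ, (l : WithBot ℕ∞) ≤ a ↔ (l : WithBot ℕ∞) ≤ b) : a = b := by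
  have key : ∀ a b : WithBot ℕ∞, (∀ l : ℕ, (l : WithBot ℕ∞) ≤ a → (l : WithBot ℕ∞) ≤ b) →
      a ≤ b := by
    intro a b h
    induction a with
    | bot => exact bot_le
    | coe a =>
      induction b with
      | bot =>
        have := h 0 (by simp)
        simp at this
      | coe b =>
        rw [WithBot.coe_le_coe]
        refine ENat.forall_natCast_le_iff_le.1 ?_
        intro n hn
        have := h n (by exact_mod_cast hn)
        exact_mod_cast this
  exact le_antisymm (key a b fun l => (h l).1) (key b a fun l => (h l).2)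

end

end Pool.Agent.W456
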