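import Pool.Agent.W894.MB.Defs2

set_option autoImplicit false

namespace Pool.Agent.W456.MCDist

open Set Pool.Agent.Helper669.Forcing Pool.Agent.H995R3.Boards Pool.Agent.W894.MB

universe u w

variable {I : Type w} [LinearOrder I]

theorem lower (h3 : G_LB.{u, max u w, u}) (h4 : G_ARITH.{u, w}) (F : Fam.{u, w} I) (i : I)
    (p : F.P) (Y : Type u) [LinearOrder Y] (emb : Y ↪ F.K i) (t : Y → F.P)
    (ht : ∀ a b, a ≤ b → t b ≤ t a) (hp : ∀ y, t y ≤ p) (hj : ∀ y, ∀ j ≤ i, (t y).1 j = p.1 j) :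
    ∃ v ≤ p, (∀ y, v ≤ t y) ∧ ∀ j ≤ i, v.1 j = p.1 j := by
  classical
  rcases isEmpty_or_nonempty Y with hY | ⟨⟨y0⟩⟩
  · exact ⟨p, le_rfl, fun y => (IsEmpty.false y).elim, fun j _ => rfl⟩
  have key : ∀ j, ∃ q : CondZ (F.Z j) (F.K j), (j ≤ i → q = p.1 j) ∧
      (∀ y, q ≤ (t y).1 j) ∧
      ∀ x, q.f x ≠ none → (p.1 j).f x ≠ none ∨ ∃ a, ((t a).1 j).f x ≠ none := by
    intro j
    by_cases hji : j ≤ i
    · refine ⟨p.1 j, fun _ => rfl, fun y => ?_, fun x hx => Or.inl hx⟩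
      rw [hj y j hji]
    · have hij : i < j := not_le.1 hji
      obtain ⟨e⟩ := (h4 I F j).2.2 i hij
      obtain ⟨q, hq1, hq2⟩ := h3 (F.Z j) (F.K j) Y
        ⟨(Function.Embedding.prodMap emb (Function.Embedding.refl _)).trans e⟩
        (fun y => (t y).1 j) (fun a b hab => ht a b hab j)
      exact ⟨q, fun h => absurd h hji, hq1, fun x hx => Or.inr (hq2 x hx)⟩
  choose q hq1 hq2 hq3 using key
  have hsm : Small.{u} {j | ∃ x, (q j).f x ≠ none} := by
    have hs1 : Small.{u} {j | ∃ x, (p.1 j).f x ≠ none} := p.2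
    have hs2 : ∀ y, Small.{u} {j | ∃ x, ((t y).1 j).f x ≠ none} := fun y => (t y).2
    have hs3 : Small.{u} (⋃ y, {j | ∃ x, ((t y).1 j).f x ≠ none} : Set I) := small_iUnion _
    have hs4 : Small.{u} ({j | ∃ x, (p.1 j).f x ≠ none} ∪
      (⋃ y, {j | ∃ x, ((t y).1 j).f x ≠ none}) : Set I) := small_union _ _
    refine small_subset (s := ({j | ∃ x, (p.1 j).f x ≠ none} ∪
      (⋃ y, {j | ∃ x, ((t y).1 j).f x ≠ none}) : Set I)) ?_
    rintro j ⟨x, hx⟩
    rcases hq3 j x hx with h | ⟨a, ha⟩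
    · exact Or.inl ⟨x, h⟩
    · exact Or.inr (mem_iUnion.2 ⟨a, ⟨x, ha⟩⟩)
  have hv : ∀ y, (⟨q, hsm⟩ : F.P) ≤ t y := fun y j => hq2 j y
  exact ⟨⟨q, hsm⟩, (hv y0).trans (hp y0), hv, fun j h => hq1 j h⟩

theorem main (h3 : G_LB.{u, max u w, u}) (h4 : G_ARITH.{u, w}) : G_DIST.{u, w} := by
  classical
  intro I _ F i p O hO hD
  have hwf : WellFounded ((· < ·) : F.K i → F.K i → Prop) := wellFounded_lt
  let G : ∀ x : F.K i, (∀ y, y < x → F.P) → F.P := fun x r =>
    if h : ∃ b : F.P, b ∈ O x ∧ b ≤ p ∧ (∀ j ≤ i, b.1 j = p.1 j) ∧ ∀ y hy, b ≤ r y hy then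
      h.choose else p
  let s : F.K i → F.P := hwf.fix G
  have hs : ∀ x, s x = G x (fun y _ => s y) := fun x => hwf.fix_eq G x
  have good : ∀ x, s x ∈ O x ∧ s x ≤ p ∧ (∀ j ≤ i, (s x).1 j = p.1 j) ∧ ∀ y, y < x → s x ≤ s y := by
    intro x
    induction x using hwf.induction with
    | _ x ih =>
      have hex : ∃ b : F.P, b ∈ O x ∧ b ≤ p ∧ (∀ j ≤ i, b.1 j = p.1 j) ∧
          ∀ y (_ : y < x), b ≤ s y := by
        obtain ⟨v, hvp, hvy, hvj⟩ := lower h3 h4 F i p (Set.Iio x)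
          ⟨Subtype.val, Subtype.val_injective⟩ (fun y => s y.1)
          (by
            rintro ⟨a, ha⟩ ⟨b, hb⟩ hab
            rcases eq_or_lt_of_le (show a ≤ b from hab) with h | h
            · subst h
              exact le_rfl
            · exact (ih b hb).2.2.2 a h)
          (fun y => (ih y.1 y.2).2.1) (fun y => (ih y.1 y.2).2.2.1)
        obtain ⟨b, hbv, hbj, hbO⟩ := hD x v hvp
        exact ⟨b, hbO, hbv.trans hvp, fun j hj => (hbj j hj).trans (hvj j hj),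
          fun y hy => hbv.trans (hvy ⟨y, hy⟩)⟩
      have e : s x = hex.choose := by
        rw [hs x]
        exact dif_pos hex
      rw [e]
      exact hex.choose_spec
  obtain ⟨v, hvp, hvy, hvj⟩ := lower h3 h4 F i p (F.K i) (Function.Embedding.refl _) s
    (by
      intro a b hab
      rcases eq_or_lt_of_le hab with h | h
      · subst h
        exact le_rfl
      · exact (good b).2.2.2 a h)
    (fun y => (good y).2.1) (fun y => (good y).2.2.1)
  exact ⟨v, hvp, hvj, fun x => hO x (s x) (good x).1 v (hvy x)⟩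


end Pool.Agent.W456.MCDist
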